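import Mathlib

open Finset

namespace H110R2

variable {V : Type*} [DecidableEq V]

/-- `U` contains no clique of `G` with exactly `a` vertices. -/
def NoCl (G : SimpleGraph V) (a : ℕ) (U : Finset V) : Prop :=
  ∀ T : Finset V, T ⊆ U → ¬ G.IsNClique a T

open Classical in
/-- The `G`-neighbours of `v` inside `X`. -/
noncomputable def nb (G : SimpleGraph V) (v : V) (X : Finset V) : Finset V :=
  X.filter (fun w => G.Adj v w)

lemma mem_nb {G : SimpleGraph V} {v w : V} {X : Finset V} :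
    w ∈ nb G v X ↔ w ∈ X ∧ G.Adj v w := by
  classical
  simp [nb]

lemma nb_subset (G : SimpleGraph V) (v : V) (X : Finset V) : nb G v X ⊆ X :=
  fun _ hw => (mem_nb.mp hw).1

lemma NoCl.mono {G : SimpleGraph V} {a : ℕ} {U U' : Finset V} (h : NoCl G a U) (hs : U' ⊆ U) :
    NoCl G a U' := fun T hT => h T (hT.trans hs)

lemma not_noCl_zero (G : SimpleGraph V) (U : Finset V) : ¬ NoCl G 0 U := by
  intro h
  exact h ∅ (empty_subset _) (by simp [SimpleGraph.isNClique_iff])

lemma NoCl.step {G : SimpleGraph V} {a : ℕ} {U S : Finset V} {v : V}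
    (h : NoCl G (a + 1) U) (hv : v ∈ U) (hS : S ⊆ U) (hadj : ∀ w ∈ S, G.Adj v w) :
    NoCl G a S := by
  intro T hT hc
  refine h (insert v T) ?_ (hc.insert (fun w hw => hadj w (hT hw)))
  exact insert_subset hv (hT.trans hS)

lemma NoCl.of_le {G : SimpleGraph V} {a a' : ℕ} {U : Finset V} (h : NoCl G a U) (haa : a ≤ a') :
    NoCl G a' U := by
  intro T hT hc
  obtain ⟨T', hT', hcard⟩ := Finset.exists_subset_card_eq (s := T) (n := a) (by rw [hc.card_eq]; exact haa)
  refine h T' (hT'.trans hT) ?_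
  rw [SimpleGraph.isNClique_iff]
  refine ⟨?_, hcard⟩
  exact hc.isClique.subset (by exact_mod_cast hT')

lemma card_nb_add (G : SimpleGraph V) {v : V} {X : Finset V} (hv : v ∈ X) :
    (nb G v X).card + (nb Gᶜ v X).card + 1 = X.card := by
  classical
  have h1 : X = insert v (nb G v X ∪ nb Gᶜ v X) := by
    ext w
    simp only [mem_insert, mem_union, mem_nb, SimpleGraph.compl_adj]
    constructor
    · intro hw
      by_cases hwv : w = v
      · exact Or.inl hwv
      · by_cases ha : G.Adj v w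
        · exact Or.inr (Or.inl ⟨hw, ha⟩)
        · exact Or.inr (Or.inr ⟨hw, fun h => hwv h.symm, ha⟩)
    · rintro (rfl | h | h)
      · exact hv
      · exact h.1
      · exact h.1
  have hdisj : Disjoint (nb G v X) (nb Gᶜ v X) := by
    rw [Finset.disjoint_left]
    intro w h1 h2
    exact (mem_nb.mp h2).2.2 (mem_nb.mp h1).2
  have hnot : v ∉ nb G v X ∪ nb Gᶜ v X := by
    simp [mem_nb]
  conv_rhs => rw [h1]
  rw [card_insert_of_notMem hnot, card_union_of_disjoint hdisj]

lemma nb_ssubset (G : SimpleGraph V) {v : V} {X : Finset V} (hv : v ∈ X) : nb G v X ⊂ X := by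
  refine (Finset.ssubset_iff_of_subset (nb_subset G v X)).mpr ⟨v, hv, ?_⟩
  simp [mem_nb]

/-- Erdős–Szekeres in product form. -/
lemma es_bound (G : SimpleGraph V) {x y : ℝ} (hx : 0 < x) (hy : 0 < y) (hxy : x + y ≤ 1) :
    ∀ (n : ℕ) (S : Finset V), S.card ≤ n → ∀ a b : ℕ, NoCl G a S → NoCl Gᶜ b S →
      ((S.card : ℝ) + 1) * x ^ a * y ^ b ≤ 1 := by
  intro n
  induction n with
  | zero =>
    intro S hS a b _ _
    have h0 : S.card = 0 := by omega
    rw [h0]
    have h1 : x ^ a ≤ 1 := pow_le_one₀ hx.le (by linarith)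
    have h2 : y ^ b ≤ 1 := pow_le_one₀ hy.le (by linarith)
    have h3 : 0 < x ^ a := pow_pos hx a
    have h4 : 0 < y ^ b := pow_pos hy b
    simp only [Nat.cast_zero, zero_add, one_mul]
    exact mul_le_one₀ h1 h4.le h2
  | succ n ih =>
    intro S hS a b ha hb
    rcases S.eq_empty_or_nonempty with rfl | ⟨v, hv⟩
    · have h1 : x ^ a ≤ 1 := pow_le_one₀ hx.le (by linarith)
      have h2 : y ^ b ≤ 1 := pow_le_one₀ hy.le (by linarith)
      have h4 : 0 < y ^ b := pow_pos hy b
      simp only [card_empty, Nat.cast_zero, zero_add, one_mul]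
      exact mul_le_one₀ h1 h4.le h2
    · rcases a with _ | a
      · exact absurd ha (not_noCl_zero _ _)
      rcases b with _ | b
      · exact absurd hb (not_noCl_zero _ _)
      have hR := card_lt_card (nb_ssubset G hv)
      have hB := card_lt_card (nb_ssubset Gᶜ hv)
      have h1 := ih (nb G v S) (by omega) a (b + 1)
        (ha.step hv (nb_subset _ _ _) (fun w hw => (mem_nb.mp hw).2)) (hb.mono (nb_subset _ _ _))
      have h2 := ih (nb Gᶜ v S) (by omega) (a + 1) b (ha.mono (nb_subset _ _ _))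
        (hb.step hv (nb_subset _ _ _) (fun w hw => (mem_nb.mp hw).2))
      have hc := card_nb_add G hv
      have hc' : (S.card : ℝ) + 1 = ((nb G v S).card + 1) + ((nb Gᶜ v S).card + 1) := by
        rw [← hc]; push_cast; ring
      rw [hc']
      have e1 : (((nb G v S).card : ℝ) + 1) * x ^ (a + 1) * y ^ (b + 1) ≤ x := by
        have : (((nb G v S).card : ℝ) + 1) * x ^ (a + 1) * y ^ (b + 1)
            = ((((nb G v S).card : ℝ) + 1) * x ^ a * y ^ (b + 1)) * x := by ring
        rw [this]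
        nlinarith
      have e2 : (((nb Gᶜ v S).card : ℝ) + 1) * x ^ (a + 1) * y ^ (b + 1) ≤ y := by
        have : (((nb Gᶜ v S).card : ℝ) + 1) * x ^ (a + 1) * y ^ (b + 1)
            = ((((nb Gᶜ v S).card : ℝ) + 1) * x ^ (a + 1) * y ^ b) * y := by ring
        rw [this]
        nlinarith
      nlinarith

/-- polynomial bound for off-diagonal sets -/
lemma es_poly (G : SimpleGraph V) (k m a : ℕ) (hk : 1 ≤ k) (ha : a ≤ k) (S : Finset V)
    (h1 : NoCl G a S) (h2 : NoCl Gᶜ m S) :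
    (S.card : ℝ) ≤ 3 * (k + 1) ^ m := by
  have hk' : (0 : ℝ) < k := by exact_mod_cast hk
  have hx : (0 : ℝ) < k / (k + 1) := by positivity
  have hy : (0 : ℝ) < 1 / (k + 1) := by positivity
  have hxy : (k : ℝ) / (k + 1) + 1 / (k + 1) ≤ 1 := by
    rw [← add_div, div_self (by positivity)]
  have h := es_bound G hx hy hxy S.card S le_rfl a m h1 h2
  have e1 : (1 : ℝ) / 3 ≤ (k / (k + 1)) ^ a := by
    have h3 : ((k : ℝ) / (k + 1)) ^ k ≤ (k / (k + 1)) ^ a :=
      pow_le_pow_of_le_one hx.le (by rw [div_le_one (by positivity)]; linarith) ha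
    have h4 : ((k + 1 : ℝ) / k) ^ k ≤ 3 := by
      have h5 : (k + 1 : ℝ) / k ≤ Real.exp (1 / k) := by
        have := Real.add_one_le_exp (1 / (k : ℝ))
        have e : (k + 1 : ℝ) / k = 1 / k + 1 := by field_simp; ring
        rw [e]; exact this
      calc ((k + 1 : ℝ) / k) ^ k ≤ (Real.exp (1 / k)) ^ k :=
            pow_le_pow_left₀ (by positivity) h5 k
        _ = Real.exp 1 := by
            rw [← Real.exp_nat_mul]; congr 1; field_simp
        _ ≤ 3 := by have := Real.exp_one_lt_d9; linarith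
    have h6 : ((k : ℝ) / (k + 1)) ^ k * ((k + 1 : ℝ) / k) ^ k = 1 := by
      rw [← mul_pow]
      have : (k : ℝ) / (k + 1) * ((k + 1 : ℝ) / k) = 1 := by field_simp
      rw [this, one_pow]
    have h7 : 0 < ((k : ℝ) / (k + 1)) ^ k := pow_pos hx k
    have h8 : (1 : ℝ) / 3 ≤ ((k : ℝ) / (k + 1)) ^ k := by
      rw [div_le_iff₀ (by norm_num)]
      nlinarith
    linarith
  have e2 : ((1 : ℝ) / (k + 1)) ^ m * (k + 1) ^ m = 1 := by
    rw [← mul_pow]
    have : (1 : ℝ) / (k + 1) * (k + 1) = 1 := by field_simp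
    rw [this, one_pow]
  have hpos : (0 : ℝ) < (k + 1) ^ m := by positivity
  have hpos2 : (0 : ℝ) < ((1 : ℝ) / (k + 1)) ^ m := pow_pos hy m
  have hS : (0 : ℝ) ≤ S.card := Nat.cast_nonneg _
  -- (|S|+1) * (1/3) * y^m ≤ 1
  have h9 : ((S.card : ℝ) + 1) * (1 / 3) * ((1 : ℝ) / (k + 1)) ^ m ≤ 1 := by
    refine le_trans ?_ h
    have : ((S.card : ℝ) + 1) * (1 / 3) ≤ ((S.card : ℝ) + 1) * (k / (k + 1)) ^ a :=
      mul_le_mul_of_nonneg_left e1 (by linarith)
    exact mul_le_mul_of_nonneg_right this hpos2.le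
  have h10 : ((S.card : ℝ) + 1) * (1 / 3) * (((1 : ℝ) / (k + 1)) ^ m * (k + 1) ^ m) ≤ (k + 1) ^ m := by
    calc ((S.card : ℝ) + 1) * (1 / 3) * (((1 : ℝ) / (k + 1)) ^ m * (k + 1) ^ m)
        = (((S.card : ℝ) + 1) * (1 / 3) * ((1 : ℝ) / (k + 1)) ^ m) * (k + 1) ^ m := by ring
      _ ≤ 1 * (k + 1) ^ m := mul_le_mul_of_nonneg_right h9 hpos.le
      _ = (k + 1) ^ m := one_mul _
  rw [e2] at h10
  linarith

end H110R2
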