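import Pool.Agent.H110R2.Count

open Finset

namespace H110R2

variable {V : Type*} [DecidableEq V]

lemma sum_nb_sum (G : SimpleGraph V) (X Y : Finset V) (g : V → ℝ) :
    ∑ v ∈ X, ∑ y ∈ nb G v Y, g y = ∑ y ∈ Y, ((nb G y X).card : ℝ) * g y := by
  classical
  have h1 : ∀ v ∈ X, ∑ y ∈ nb G v Y, g y = ∑ y ∈ Y, (if G.Adj v y then g y else 0) := by
    intro v _
    have : nb G v Y = Y.filter (fun w => G.Adj v w) := by ext w; simp [mem_nb]
    rw [this, Finset.sum_filter]
  rw [sum_congr rfl h1, sum_comm]
  refine sum_congr rfl (fun y _ => ?_)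
  have : nb G y X = X.filter (fun w => G.Adj w y) := by ext w; simp [mem_nb, G.adj_comm]
  rw [this, ← Finset.sum_filter, sum_const, nsmul_eq_mul]

lemma NoCl.stepSet {H : SimpleGraph V} {b0 b : ℕ} {X X' S : Finset V}
    (h : NoCl H (b0 + b) X) (hS : S ⊆ X) (hX' : X' ⊆ X) (hc : H.IsNClique b0 S)
    (hadj : ∀ x ∈ X', ∀ s ∈ S, H.Adj s x) : NoCl H b X' := by
  intro T hT hTc
  refine h (S ∪ T) (union_subset hS (hT.trans hX')) ?_
  rw [SimpleGraph.isNClique_iff]
  have hdisj : Disjoint S T := by
    rw [Finset.disjoint_left]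
    intro s hs hsT
    exact (H.loopless.irrefl s) (hadj s (hT hsT) s hs)
  refine ⟨?_, by rw [card_union_of_disjoint hdisj, hc.card_eq, hTc.card_eq]⟩
  intro x hx y hy hxy
  simp only [coe_union, Set.mem_union, mem_coe] at hx hy
  rcases hx with hx | hx <;> rcases hy with hy | hy
  · exact hc.isClique (by exact_mod_cast hx) (by exact_mod_cast hy) hxy
  · exact hadj y (hT hy) x hx
  · exact (hadj x (hT hx) y hy).symm
  · exact hTc.isClique (by exact_mod_cast hx) (by exact_mod_cast hy) hxy

lemma step_bound {f f' n n' y y' p A η q : ℝ} (hf : 0 < f) (hf' : 0 < f') (hn : 0 < n)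
    (hn' : 0 < n') (hy : 0 < y) (hy' : 0 < y') (hp : 0 < p) (hη : 0 < η)
    (h : η * Real.log f' - (η - q) * Real.log n' - (η - 1) * Real.log y'
      ≤ η * Real.log f - (η - q) * Real.log n - (η - 1) * Real.log y - A)
    (hr : p * y ≤ y') :
    f' ≤ f * (y' / y) * Real.exp (-(Real.log p / η)) *
      (Real.exp (-A / η) * (n' / n) ^ (1 - q / η)) := by
  have hrr : Real.log p ≤ Real.log (y' / y) := by
    apply Real.log_le_log hp
    rw [le_div_iff₀ hy]; exact hr
  have hlogr : Real.log (y' / y) = Real.log y' - Real.log y := Real.log_div hy'.ne' hy.ne'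
  have hlogn : Real.log (n' / n) = Real.log n' - Real.log n := Real.log_div hn'.ne' hn.ne'
  have hRpos : 0 < f * (y' / y) * Real.exp (-(Real.log p / η)) *
      (Real.exp (-A / η) * (n' / n) ^ (1 - q / η)) := by positivity
  rw [← Real.log_le_log_iff hf' hRpos]
  have hq1 : Real.log ((n' / n) ^ (1 - q / η)) = (1 - q / η) * Real.log (n' / n) :=
    Real.log_rpow (by positivity) _
  rw [Real.log_mul (by positivity) (by positivity), Real.log_mul (by positivity) (by positivity),
    Real.log_mul (by positivity) (by positivity), Real.log_exp,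
    Real.log_mul (by positivity) (by positivity), Real.log_exp, hq1]
  have h2 : η * Real.log f' ≤ η * (Real.log f + Real.log (y' / y) + -(Real.log p / η)
      + (-A / η + (1 - q / η) * Real.log (n' / n))) := by
    have e : η * (Real.log f + Real.log (y' / y) + -(Real.log p / η)
      + (-A / η + (1 - q / η) * Real.log (n' / n)))
      = η * Real.log f + η * Real.log (y' / y) - Real.log p - A + (η - q) * Real.log (n' / n) := by
      field_simp
      ring
    rw [e, hlogn]
    nlinarith
  exact le_of_mul_le_mul_left h2 hη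

end H110R2
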