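import Pool.Agent.H110R2.Book

open Finset

namespace H110R2

variable {V : Type*} [DecidableEq V]

/-- logarithm of the potential `|X|^q |Y| δ^η` written through the excess `f = δ |X| |Y|` -/
noncomputable def LP (η q f n y : ℝ) : ℝ :=
  η * Real.log f - (η - q) * Real.log n - (η - 1) * Real.log y

lemma fx_split (G : SimpleGraph V) (p : ℝ) {X Y : Finset V} {v : V} (hv : v ∈ X) :
    fx G p X (nb G v Y) = fx G p (nb G v X) (nb G v Y) + fx G p (nb Gᶜ v X) (nb G v Y)
      + (1 - p) * (nb G v Y).card := by
  classical
  have h1 : X = insert v (nb G v X ∪ nb Gᶜ v X) := by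
    ext w
    simp only [mem_insert, mem_union, mem_nb, SimpleGraph.compl_adj]
    constructor
    · intro hw
      by_cases hwv : w = v
      · exact Or.inl hwv
      · by_cases ha : G.Adj v w
        · exact Or.inr (Or.inl ⟨hw, ha⟩)
        · exact Or.inr (Or.inr ⟨hw, fun h => hwv h.symm, ha⟩)
    · rintro (rfl | h | h)
      · exact hv
      · exact h.1
      · exact h.1
  have hdisj : Disjoint (nb G v X) (nb Gᶜ v X) := by
    rw [Finset.disjoint_left]
    intro w h1 h2
    exact (mem_nb.mp h2).2.2 (mem_nb.mp h1).2
  have hnot : v ∉ nb G v X ∪ nb Gᶜ v X := by simp [mem_nb]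
  have hself : nb G v (nb G v Y) = nb G v Y := by
    ext w; simp only [mem_nb]; tauto
  unfold fx
  conv_lhs => rw [h1]
  rw [sum_insert hnot, sum_union hdisj, hself]
  ring

lemma fx_le (G : SimpleGraph V) {p : ℝ} (hp : 0 ≤ p) (X Y : Finset V) :
    fx G p X Y ≤ X.card * Y.card := by
  rw [fx_eq]
  have h1 : ∑ x ∈ X, ((nb G x Y).card : ℝ) ≤ ∑ _x ∈ X, (Y.card : ℝ) :=
    sum_le_sum (fun x _ => by exact_mod_cast card_le_card (nb_subset G x Y))
  rw [sum_const, nsmul_eq_mul] at h1
  have h2 : 0 ≤ p * X.card * Y.card := by positivity
  linarith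

lemma log_erase {θ N f g : ℝ} (hθ0 : 0 < θ) (hθ1 : θ < 1) (hN : 1 < N) (hf : 0 < f)
    (hg : g < (1 - θ) * f / N) :
    Real.log f + (1 - θ) * (Real.log (N - 1) - Real.log N) ≤ Real.log (f - g) := by
  have hN0 : 0 < N := by linarith
  have h1 : 0 < (N - 1) / N := div_pos (by linarith) hN0
  have hgm := Real.geom_mean_le_arith_mean2_weighted (w₁ := 1 - θ) (w₂ := θ) (p₁ := (N - 1) / N)
    (p₂ := 1) (by linarith) hθ0.le h1.le zero_le_one (by ring)
  rw [Real.one_rpow, mul_one, mul_one] at hgm
  have e1 : (1 - θ) * ((N - 1) / N) + θ = 1 - (1 - θ) / N := by field_simp; ring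
  rw [e1] at hgm
  have hpow : 0 < ((N - 1) / N) ^ (1 - θ) := Real.rpow_pos_of_pos h1 _
  have hfg : f * (1 - (1 - θ) / N) ≤ f - g := by
    have : (1 - θ) * f / N = f * ((1 - θ) / N) := by ring
    rw [this] at hg
    nlinarith
  have hpos : 0 < 1 - (1 - θ) / N := lt_of_lt_of_le hpow hgm
  have h2 : Real.log (f * (1 - (1 - θ) / N)) ≤ Real.log (f - g) :=
    Real.log_le_log (by positivity) hfg
  rw [Real.log_mul hf.ne' hpos.ne'] at h2
  have h3 : (1 - θ) * Real.log ((N - 1) / N) ≤ Real.log (1 - (1 - θ) / N) := by
    rw [← Real.log_rpow h1]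
    exact Real.log_le_log hpow hgm
  rw [Real.log_div (by linarith) hN0.ne'] at h3
  linarith

theorem book_aux (G : SimpleGraph V) (p μ q η A B ε W LM : ℝ) (k0 l m b0 : ℕ) (Y0 : Finset V)
    (hp0 : 0 < p) (hp1 : p < 1) (_hμ0 : 0 < μ) (hμ1 : μ < 1) (hq : 0 < q) (hη : q < η)
    (_hA : 0 ≤ A) (hB : 0 ≤ B) (hε0 : 0 < ε) (hε1 : ε ≤ 1) (hW : 0 ≤ W)
    (hg : ∀ β : ℝ, 0 ≤ β → β ≤ μ →
      Real.exp (-A / η) * (1 - β) ^ (1 - q / η) + Real.exp (-B / η) * β ^ (1 - q / η)
        ≤ (1 - ε) * Real.exp (Real.log p / η))
    (hb0 : 1 ≤ b0) (hm : b0 ≤ m) (hμ2 : 0 < μ - b0 / m)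
    (hP1 : -(q * b0 * Real.log (μ - b0 / m)) - η * Real.log (1 - q / η) ≤ B * b0)
    (hWb : ∀ a ≤ k0, ∀ T : Finset V, NoCl G a T → NoCl Gᶜ m T → (T.card : ℝ) ≤ W)
    (hY : ∀ a ≤ k0, ∀ Z ⊆ Y0, NoCl G a Z → NoCl Gᶜ l Z → (Z.card : ℝ) ≤ Real.exp (LM + A * a)) :
    ∀ (n : ℕ) (X : Finset V), X.card ≤ n → ∀ Y ⊆ Y0, ∀ a b : ℕ, a ≤ k0 → NoCl G a (X ∪ Y) →
      NoCl Gᶜ b X → NoCl Gᶜ l Y → 0 < fx G p X Y →
      LP η q (fx G p X Y) X.card Y.card
        ≤ LM + q * Real.log ((W + 1) / (ε * p)) + A * a + B * b := by
  have hη0 : 0 < η := lt_trans hq hη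
  have hθ0 : 0 < q / η := by positivity
  have hθ1 : q / η < 1 := by rw [div_lt_one hη0]; exact hη
  set K1 : ℝ := (W + 1) / (ε * p) with hK1
  have hK1pos : 0 < K1 := by positivity
  intro n
  induction n with
  | zero =>
    intro X hX Y _ a b _ _ _ _ hf
    have : X = ∅ := by
      rw [← card_eq_zero]; omega
    rw [this] at hf
    simp [fx] at hf
  | succ n ih =>
    intro X hX Y hYY a b ha hab hbX hlY hf
    by_contra hcon
    push Not at hcon
    -- positivity of cards
    have hXne : 0 < X.card := by
      rcases X.eq_empty_or_nonempty with h | h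
      · rw [h] at hf; simp [fx] at hf
      · exact card_pos.mpr h
    have hYne : 0 < Y.card := by
      rcases Y.eq_empty_or_nonempty with h | h
      · rw [h] at hf; rw [fx_eq] at hf
        simp [nb] at hf
      · exact card_pos.mpr h
    set N : ℝ := (X.card : ℝ) with hN
    set y : ℝ := (Y.card : ℝ) with hy
    have hNpos : 0 < N := Nat.cast_pos.mpr hXne
    have hN1 : 1 ≤ N := by rw [hN]; exact_mod_cast hXne
    have hypos : 0 < y := Nat.cast_pos.mpr hYne
    set f : ℝ := fx G p X Y with hfdef
    have hfle : f ≤ N * y := fx_le G hp0.le X Y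
    -- a, b positive
    obtain ⟨a', rfl⟩ : ∃ a', a = a' + 1 := by
      rcases a with _ | a'
      · exact absurd hab (not_noCl_zero _ _)
      · exact ⟨a', rfl⟩
    obtain ⟨b', rfl⟩ : ∃ b', b = b' + 1 := by
      rcases b with _ | b'
      · exact absurd hbX (not_noCl_zero _ _)
      · exact ⟨b', rfl⟩
    -- regularity
    have hreg : ∀ v ∈ X, (1 - q / η) * f / N ≤ ((nb G v Y).card : ℝ) - p * y := by
      intro v hv
      by_contra hlt
      push Not at hlt
      have hcard : (X.erase v).card = X.card - 1 := card_erase_of_mem hv
      have hfe : fx G p (X.erase v) Y = f - (((nb G v Y).card : ℝ) - p * y) := by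
        rw [hfdef]; unfold fx
        rw [← Finset.add_sum_erase X _ hv]; ring
      have hNgt : 1 < N := by
        by_contra hle
        push Not at hle
        have hNe : N = 1 := le_antisymm hle hN1
        have hX1 : X.card = 1 := by
          have : (X.card : ℝ) = 1 := hNe
          exact_mod_cast this
        have hXe : X.erase v = ∅ := by
          rw [← card_eq_zero]; omega
        rw [hXe] at hfe
        have : fx G p ∅ Y = 0 := by simp [fx]
        rw [this] at hfe
        have h2 : ((nb G v Y).card : ℝ) - p * y = f := by linarith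
        rw [h2, hNe] at hlt
        nlinarith
      have hle := log_erase hθ0 hθ1 hNgt hf hlt
      have hfpos : 0 < fx G p (X.erase v) Y := by
        rw [hfe]
        have : (1 - q / η) * f / N ≤ (1 - q / η) * f := by
          rw [div_le_iff₀ hNpos]
          have : 0 ≤ (1 - q / η) * f := mul_nonneg (by linarith) hf.le
          nlinarith
        nlinarith
      have hihe := ih (X.erase v) (by omega) Y hYY (a' + 1) (b' + 1) ha
        (hab.mono (union_subset_union (erase_subset _ _) subset_rfl))
        (hbX.mono (erase_subset _ _)) hlY hfpos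
      have hcardR : ((X.erase v).card : ℝ) = N - 1 := by
        rw [hcard, Nat.cast_sub (by omega)]; simp [hN]
      rw [hcardR, hfe] at hihe
      have : LP η q f N y ≤ LP η q (f - (((nb G v Y).card : ℝ) - p * y)) (N - 1) y := by
        unfold LP
        have h3 : η * (Real.log f + (1 - q / η) * (Real.log (N - 1) - Real.log N))
            ≤ η * Real.log (f - (((nb G v Y).card : ℝ) - p * y)) :=
          mul_le_mul_of_nonneg_left hle hη0.le
        have h4 : η * (Real.log f + (1 - q / η) * (Real.log (N - 1) - Real.log N))
            = η * Real.log f + (η - q) * (Real.log (N - 1) - Real.log N) := by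
          field_simp
        rw [h4] at h3
        linarith
      linarith
    -- f is large
    have hlarge : K1 * y < f := by
      by_contra hle
      push Not at hle
      have hZ := hY (a' + 1) ha Y hYY (hab.mono subset_union_right) hlY
      have hlogy : Real.log y ≤ LM + A * ((a' + 1 : ℕ) : ℝ) := by
        have := Real.log_le_log hypos hZ
        rwa [Real.log_exp] at this
      have h1 : Real.log (f / y) ≤ Real.log K1 := by
        apply Real.log_le_log (by positivity)
        rw [div_le_iff₀ hypos]; exact hle
      have h2 : Real.log (f / (N * y)) ≤ 0 := by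
        apply Real.log_nonpos (by positivity)
        rw [div_le_one (by positivity)]; exact hfle
      rw [Real.log_div hf.ne' hypos.ne'] at h1
      rw [Real.log_div hf.ne' (by positivity), Real.log_mul hNpos.ne' hypos.ne'] at h2
      have h3 : q * (Real.log f - Real.log y) ≤ q * Real.log K1 :=
        mul_le_mul_of_nonneg_left h1 hq.le
      have h4 : (η - q) * (Real.log f - (Real.log N + Real.log y)) ≤ 0 :=
        mul_nonpos_of_nonneg_of_nonpos (by linarith) h2
      have h5 : 0 ≤ B * ((b' + 1 : ℕ) : ℝ) := by positivity
      unfold LP at hcon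
      linarith
    -- high blue degree vertices
    classical
    set T : Finset V := X.filter (fun v => μ * N < ((nb Gᶜ v X).card : ℝ)) with hT
    by_cases hTb : NoCl Gᶜ m T
    · -- density step
      have hTW : (T.card : ℝ) ≤ W := hWb (a' + 1) ha T
        (hab.mono ((filter_subset _ _).trans subset_union_left)) hTb
      set E : ℝ := ∑ v ∈ X, ((nb G v Y).card : ℝ) with hE
      have hEf : E = f + p * N * y := by
        rw [hfdef, fx_eq, ← hE]; ring
      have hEle : E ≤ N * y := by
        have h1 : E ≤ ∑ _x ∈ X, (Y.card : ℝ) :=
          sum_le_sum (fun x _ => by exact_mod_cast card_le_card (nb_subset G x Y))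
        rw [sum_const, nsmul_eq_mul] at h1
        exact h1
      have hEge : p * N * y ≤ E := by linarith
      -- lower bound on sum
      have hlow : E * f / y ≤ ∑ v ∈ X, fx G p X (nb G v Y) := by
        have h1 : ∀ v ∈ X, fx G p X (nb G v Y) = ∑ z ∈ nb G v Y, (((nb G z X).card : ℝ) - p * N) := by
          intro v _
          rw [fx_comm]; rfl
        rw [sum_congr rfl h1, sum_nb_sum G X Y (fun z => ((nb G z X).card : ℝ) - p * N)]
        have h2 : ∑ z ∈ Y, ((nb G z X).card : ℝ) * (((nb G z X).card : ℝ) - p * N)
            = ∑ z ∈ Y, ((nb G z X).card : ℝ) ^ 2 - p * N * E := by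
          have : E = ∑ z ∈ Y, ((nb G z X).card : ℝ) := by rw [hE, sum_nb_comm]
          rw [this, mul_sum, ← sum_sub_distrib]
          refine sum_congr rfl (fun z _ => by ring)
        rw [h2]
        have h3 : (∑ z ∈ Y, ((nb G z X).card : ℝ)) ^ 2 ≤ Y.card * ∑ z ∈ Y, ((nb G z X).card : ℝ) ^ 2 :=
          sq_sum_le_card_mul_sum_sq
        have h4 : E = ∑ z ∈ Y, ((nb G z X).card : ℝ) := by rw [hE, sum_nb_comm]
        rw [← h4] at h3
        have h5 : E ^ 2 / y ≤ ∑ z ∈ Y, ((nb G z X).card : ℝ) ^ 2 := by
          rw [div_le_iff₀ hypos]; linarith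
        have h6 : E * f / y = E ^ 2 / y - p * N * E := by
          have : f = E - p * N * y := by linarith
          rw [this]; field_simp
        rw [h6]; linarith
      -- upper bound for each v
      have hup : ∀ v ∈ X, fx G p X (nb G v Y)
          ≤ (1 - ε) * f / y * ((nb G v Y).card : ℝ) + ((nb G v Y).card : ℝ)
            + (if v ∈ T then N * y else 0) := by
        intro v hv
        have hyR : ((nb G v Y).card : ℝ) ≤ y := Nat.cast_le.mpr (card_le_card (nb_subset G v Y))
        have hyR0 : (0 : ℝ) ≤ ((nb G v Y).card : ℝ) := Nat.cast_nonneg _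
        by_cases hvT : v ∈ T
        · rw [if_pos hvT]
          have h1 := fx_le G hp0.le X (nb G v Y)
          have h2 : N * ((nb G v Y).card : ℝ) ≤ N * y := mul_le_mul_of_nonneg_left hyR hNpos.le
          have h3 : 0 ≤ (1 - ε) * f / y * ((nb G v Y).card : ℝ) := by
            apply mul_nonneg _ hyR0
            apply div_nonneg _ hypos.le
            exact mul_nonneg (by linarith) hf.le
          linarith
        · rw [if_neg hvT, add_zero]
          have hβ : ((nb Gᶜ v X).card : ℝ) ≤ μ * N := by
            by_contra hlt
            push Not at hlt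
            exact hvT (mem_filter.mpr ⟨hv, hlt⟩)
          have hregv := hreg v hv
          have hfv : 0 < (1 - q / η) * f / N := by
            apply div_pos _ hNpos
            exact mul_pos (by linarith) hf
          have hpy : p * y ≤ ((nb G v Y).card : ℝ) := by linarith
          have hyRpos : 0 < ((nb G v Y).card : ℝ) := lt_of_lt_of_le (by positivity) hpy
          rw [fx_split G p hv]
          set yR : ℝ := ((nb G v Y).card : ℝ) with hyRdef
          set nR : ℝ := ((nb G v X).card : ℝ) with hnR
          set nB : ℝ := ((nb Gᶜ v X).card : ℝ) with hnB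
          have hsum : nR + nB + 1 = N := by
            have := card_nb_add G hv
            rw [hN, ← this]; push_cast; ring
          have hnR0 : 0 ≤ nR := Nat.cast_nonneg _
          have hnB0 : 0 ≤ nB := Nat.cast_nonneg _
          set c : ℝ := f * (yR / y) * Real.exp (-(Real.log p / η)) with hc
          have hcpos : 0 < c := by positivity
          have hcR : nb G v X ⊂ X := nb_ssubset G hv
          have hcB : nb Gᶜ v X ⊂ X := nb_ssubset Gᶜ hv
          have hR : fx G p (nb G v X) (nb G v Y) ≤ c * (Real.exp (-A / η) * (nR / N) ^ (1 - q / η)) := by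
            by_cases hpos : 0 < fx G p (nb G v X) (nb G v Y)
            · have hih := ih (nb G v X) (by have := card_lt_card hcR; omega) (nb G v Y)
                ((nb_subset _ _ _).trans hYY) a' (b' + 1) (by omega)
                (hab.step (mem_union_left _ hv)
                  (union_subset_union (nb_subset _ _ _) (nb_subset _ _ _))
                  (fun w hw => by
                    rcases mem_union.mp hw with h | h
                    · exact (mem_nb.mp h).2
                    · exact (mem_nb.mp h).2))
                (hbX.mono (nb_subset _ _ _)) (hlY.mono (nb_subset _ _ _)) hpos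
              have hnRpos : 0 < nR := by
                rcases (nb G v X).eq_empty_or_nonempty with h | h
                · rw [h] at hpos; simp [fx] at hpos
                · exact Nat.cast_pos.mpr (card_pos.mpr h)
              apply step_bound hf hpos hNpos hnRpos hypos hyRpos hp0 hη0 _ hpy
              unfold LP at hih hcon
              push_cast at hih hcon
              linarith
            · push Not at hpos
              refine hpos.trans ?_
              apply mul_nonneg hcpos.le
              apply mul_nonneg (Real.exp_pos _).le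
              exact Real.rpow_nonneg (div_nonneg hnR0 hNpos.le) _
          have hBl : fx G p (nb Gᶜ v X) (nb G v Y) ≤ c * (Real.exp (-B / η) * (nB / N) ^ (1 - q / η)) := by
            by_cases hpos : 0 < fx G p (nb Gᶜ v X) (nb G v Y)
            · have hih := ih (nb Gᶜ v X) (by have := card_lt_card hcB; omega) (nb G v Y)
                ((nb_subset _ _ _).trans hYY) (a' + 1) b' ha
                (hab.mono (union_subset_union (nb_subset _ _ _) (nb_subset _ _ _)))
                (hbX.step hv (nb_subset _ _ _) (fun w hw => (mem_nb.mp hw).2))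
                (hlY.mono (nb_subset _ _ _)) hpos
              have hnBpos : 0 < nB := by
                rcases (nb Gᶜ v X).eq_empty_or_nonempty with h | h
                · rw [h] at hpos; simp [fx] at hpos
                · exact Nat.cast_pos.mpr (card_pos.mpr h)
              apply step_bound hf hpos hNpos hnBpos hypos hyRpos hp0 hη0 _ hpy
              unfold LP at hih hcon
              push_cast at hih hcon
              linarith
            · push Not at hpos
              refine hpos.trans ?_
              apply mul_nonneg hcpos.le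
              apply mul_nonneg (Real.exp_pos _).le
              exact Real.rpow_nonneg (div_nonneg hnB0 hNpos.le) _
          have hgβ := hg (nB / N) (div_nonneg hnB0 hNpos.le) (by rw [div_le_iff₀ hNpos]; exact hβ)
          have hmono : (nR / N) ^ (1 - q / η) ≤ (1 - nB / N) ^ (1 - q / η) := by
            apply Real.rpow_le_rpow (div_nonneg hnR0 hNpos.le) _ (by linarith)
            rw [div_le_iff₀ hNpos, sub_mul, div_mul_cancel₀ _ hNpos.ne']
            linarith
          have hfin : fx G p (nb G v X) (nb G v Y) + fx G p (nb Gᶜ v X) (nb G v Y)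
              ≤ c * ((1 - ε) * Real.exp (Real.log p / η)) := by
            calc fx G p (nb G v X) (nb G v Y) + fx G p (nb Gᶜ v X) (nb G v Y)
                ≤ c * (Real.exp (-A / η) * (nR / N) ^ (1 - q / η))
                  + c * (Real.exp (-B / η) * (nB / N) ^ (1 - q / η)) := add_le_add hR hBl
              _ = c * (Real.exp (-A / η) * (nR / N) ^ (1 - q / η)
                  + Real.exp (-B / η) * (nB / N) ^ (1 - q / η)) := by ring
              _ ≤ c * (Real.exp (-A / η) * (1 - nB / N) ^ (1 - q / η)
                  + Real.exp (-B / η) * (nB / N) ^ (1 - q / η)) := by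
                  apply mul_le_mul_of_nonneg_left _ hcpos.le
                  have := mul_le_mul_of_nonneg_left hmono (Real.exp_pos (-A / η)).le
                  linarith
              _ ≤ c * ((1 - ε) * Real.exp (Real.log p / η)) :=
                  mul_le_mul_of_nonneg_left hgβ hcpos.le
          have hce : c * ((1 - ε) * Real.exp (Real.log p / η)) = (1 - ε) * f / y * yR := by
            rw [hc]
            have : Real.exp (-(Real.log p / η)) * Real.exp (Real.log p / η) = 1 := by
              rw [← Real.exp_add]; simp
            calc f * (yR / y) * Real.exp (-(Real.log p / η)) * ((1 - ε) * Real.exp (Real.log p / η))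
                = f * (yR / y) * (1 - ε) * (Real.exp (-(Real.log p / η)) * Real.exp (Real.log p / η)) := by ring
              _ = (1 - ε) * f / y * yR := by rw [this]; ring
          rw [hce] at hfin
          have : (1 - p) * yR ≤ yR := by nlinarith
          linarith
      have hupsum : ∑ v ∈ X, fx G p X (nb G v Y) ≤ (1 - ε) * f / y * E + E + W * (N * y) := by
        refine (sum_le_sum hup).trans ?_
        rw [sum_add_distrib, sum_add_distrib, ← mul_sum, ← hE]
        have : ∑ v ∈ X, (if v ∈ T then N * y else 0) = T.card * (N * y) := by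
          rw [← Finset.sum_filter]
          have : X.filter (fun v => v ∈ T) = T := by
            ext w
            simp only [mem_filter]
            constructor
            · exact fun h => h.2
            · exact fun h => ⟨(mem_filter.mp h).1, h⟩
          rw [this, sum_const, nsmul_eq_mul]
        rw [this]
        have h2 : (T.card : ℝ) * (N * y) ≤ W * (N * y) :=
          mul_le_mul_of_nonneg_right hTW (by positivity)
        linarith
      -- conclude
      have h1 : E * f / y ≤ (1 - ε) * f / y * E + E + W * (N * y) := hlow.trans hupsum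
      have h2 : ε * (E * f / y) ≤ E + W * (N * y) := by
        have : (1 - ε) * f / y * E = E * f / y - ε * (E * f / y) := by ring
        rw [this] at h1
        linarith
      have h3 : p * N * f ≤ E * f / y := by
        rw [le_div_iff₀ hypos]
        have := mul_le_mul_of_nonneg_right hEge hf.le
        nlinarith
      have h4 : ε * (p * N * f) ≤ (W + 1) * (N * y) := by
        have := mul_le_mul_of_nonneg_left h3 hε0.le
        nlinarith
      have h5 : N * (ε * p * f) ≤ N * ((W + 1) * y) := by nlinarith
      have h6 : ε * p * f ≤ (W + 1) * y := le_of_mul_le_mul_left h5 hNpos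
      have h7 : f ≤ K1 * y := by
        rw [hK1, div_mul_eq_mul_div, le_div_iff₀ (by positivity)]
        linarith
      linarith
    · -- big blue step
      unfold NoCl at hTb
      push Not at hTb
      obtain ⟨U, hUT, hUc⟩ := hTb
      have hdeg : ∀ u ∈ U, μ * X.card ≤ ((nb Gᶜ u X).card : ℝ) :=
        fun u hu => (mem_filter.mp (hUT hu)).2.le
      obtain ⟨S, hSU, hScard, X', hX'X, hadj, hX'card⟩ :=
        exists_book Gᶜ U X m b0 μ hUc.card_eq hdeg hb0 hm hμ2 hXne
      have hSX : S ⊆ X := hSU.trans (hUT.trans (filter_subset _ _))
      have hSc : Gᶜ.IsNClique b0 S := by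
        rw [SimpleGraph.isNClique_iff]
        exact ⟨hUc.isClique.subset (by exact_mod_cast hSU), hScard⟩
      by_cases hbb : b' + 1 ≤ b0
      · exact (hbX.of_le hbb) S hSX hSc
      · push Not at hbb
        obtain ⟨b'', hb''⟩ : ∃ b'', b' + 1 = b0 + b'' := ⟨b' + 1 - b0, by omega⟩
        rw [hb''] at hbX
        have hX'b := hbX.stepSet hSX hX'X hSc hadj
        have hX'pos : 0 < (X'.card : ℝ) := lt_of_lt_of_le (by positivity) hX'card
        have hfx' : (X'.card : ℝ) * ((1 - q / η) * f / N) ≤ fx G p X' Y := by
          unfold fx
          have := Finset.sum_le_sum (fun x hx => hreg x (hX'X hx) : ∀ x ∈ X', _)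
          rw [sum_const, nsmul_eq_mul] at this
          exact this
        have hfpos' : 0 < fx G p X' Y := by
          refine lt_of_lt_of_le ?_ hfx'
          apply mul_pos hX'pos
          apply div_pos _ hNpos
          exact mul_pos (by linarith) hf
        have hlt : X'.card < X.card := by
          apply card_lt_card
          refine (Finset.ssubset_iff_of_subset hX'X).mpr ?_
          have hSne : S.Nonempty := by
            rw [← card_pos, hScard]; omega
          obtain ⟨s, hs⟩ := hSne
          exact ⟨s, hSX hs, fun hs' => (Gᶜ.loopless.irrefl s) (hadj s hs' s hs)⟩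
        have hih := ih X' (by omega) Y hYY (a' + 1) b'' ha
          (hab.mono (union_subset_union hX'X subset_rfl)) hX'b hlY hfpos'
        have hlogf : Real.log (X'.card) + Real.log (1 - q / η) + Real.log f - Real.log N
            ≤ Real.log (fx G p X' Y) := by
          have h1 : Real.log ((X'.card : ℝ) * ((1 - q / η) * f / N)) ≤ Real.log (fx G p X' Y) := by
            apply Real.log_le_log _ hfx'
            apply mul_pos hX'pos
            apply div_pos _ hNpos
            exact mul_pos (by linarith) hf
          rw [Real.log_mul hX'pos.ne' (by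
              apply ne_of_gt
              apply div_pos _ hNpos
              exact mul_pos (by linarith) hf),
            Real.log_div (by
              apply ne_of_gt
              exact mul_pos (by linarith) hf) hNpos.ne',
            Real.log_mul (by linarith) hf.ne'] at h1
          linarith
        have hlogX : Real.log N + b0 * Real.log (μ - b0 / m) ≤ Real.log (X'.card) := by
          have h1 := Real.log_le_log (by positivity) hX'card
          rw [Real.log_mul hNpos.ne' (by positivity), Real.log_pow] at h1
          exact h1
        have hcast : ((b' + 1 : ℕ) : ℝ) = b0 + b'' := by rw [hb'']; push_cast; ring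
        unfold LP at hih hcon
        rw [hcast] at hcon
        have hh1 : η * (Real.log (X'.card) + Real.log (1 - q / η) + Real.log f - Real.log N)
            ≤ η * Real.log (fx G p X' Y) := mul_le_mul_of_nonneg_left hlogf hη0.le
        have hh2 : q * (Real.log N + b0 * Real.log (μ - b0 / m)) ≤ q * Real.log (X'.card) :=
          mul_le_mul_of_nonneg_left hlogX hq.le
        linarith

end H110R2
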