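import Pool.Agent.H110R2.BookAux

open Finset

namespace H110R2

/-- choice of parameters -/
lemma params (p μ q A s : ℝ) (hp0 : 0 < p) (hp1 : p < 1) (hμ0 : 0 < μ) (hμ1 : μ < 1)
    (hq : 0 < q) (hs : 0 < s)
    (hA : q * Real.log (1 / (1 - μ)) + Real.log (1 / p) / (1 - μ) < A)
    (hsα : s ≤ A - q * Real.log (1 / (1 - μ))) :
    ∃ η ε : ℝ, q < η ∧ 0 < ε ∧ ε ≤ 1 ∧
      ∀ β : ℝ, 0 ≤ β → β ≤ μ →
      Real.exp (-A / η) * (1 - β) ^ (1 - q / η)
        + Real.exp (-(q * Real.log (1 / μ) + s) / η) * β ^ (1 - q / η)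
        ≤ (1 - ε) * Real.exp (Real.log p / η) := by
  set π : ℝ := Real.log (1 / p) with hπ
  set α : ℝ := A - q * Real.log (1 / (1 - μ)) with hα
  have h1μ : 0 < 1 - μ := by linarith
  have hπ0 : 0 < π := by
    apply Real.log_pos
    rw [lt_div_iff₀ hp0]; linarith
  have hαπ : π / (1 - μ) < α := by linarith
  have hα0 : 0 < α := lt_trans (div_pos hπ0 h1μ) hαπ
  have hD : 0 < (1 - μ) * α - π := by
    rw [div_lt_iff₀ h1μ] at hαπ; nlinarith
  set u : ℝ := min (((1 - μ) * α - π) / (2 * (α * π))) (1 / (2 * q)) with hu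
  have hu0 : 0 < u := by
    apply lt_min
    · exact div_pos hD (by positivity)
    · positivity
  have hu1 : u * (α * π) < (1 - μ) * α - π := by
    have : u ≤ ((1 - μ) * α - π) / (2 * (α * π)) := min_le_left _ _
    have h2 : u * (α * π) ≤ ((1 - μ) * α - π) / (2 * (α * π)) * (α * π) :=
      mul_le_mul_of_nonneg_right this (by positivity)
    have h3 : ((1 - μ) * α - π) / (2 * (α * π)) * (α * π) = ((1 - μ) * α - π) / 2 := by
      field_simp
    rw [h3] at h2
    linarith
  have hu2 : u * q ≤ 1 / 2 := by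
    have : u ≤ 1 / (2 * q) := min_le_right _ _
    calc u * q ≤ 1 / (2 * q) * q := mul_le_mul_of_nonneg_right this hq.le
      _ = 1 / 2 := by field_simp
  have hη : (1 / u : ℝ) ≠ 0 := by positivity
  set wR : ℝ := Real.exp (-(u * α)) with hwR
  set wB : ℝ := Real.exp (-(u * s)) with hwB
  have hwRB : wR ≤ wB := by
    apply Real.exp_le_exp.mpr
    have := mul_le_mul_of_nonneg_left hsα hu0.le
    linarith
  have hwR1 : wR ≤ 1 / (1 + u * α) := by
    rw [hwR, Real.exp_neg, ← one_div]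
    apply one_div_le_one_div_of_le (by positivity)
    have := Real.add_one_le_exp (u * α)
    linarith
  have hwB1 : wB ≤ 1 := by
    rw [hwB]; apply Real.exp_le_one_iff.mpr
    have : 0 < u * s := by positivity
    linarith
  have hpe : 1 - u * π ≤ Real.exp (-(u * π)) := by
    have := Real.add_one_le_exp (-(u * π))
    linarith
  have hmain : (1 - μ) * wR + μ * wB < Real.exp (-(u * π)) := by
    have h1 : (1 - μ) * wR + μ * wB ≤ (1 - μ) * (1 / (1 + u * α)) + μ := by
      have h2 := mul_le_mul_of_nonneg_left hwR1 h1μ.le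
      have h3 := mul_le_mul_of_nonneg_left hwB1 hμ0.le
      linarith
    have h4 : (1 - μ) * (1 / (1 + u * α)) + μ < 1 - u * π := by
      have hpos : 0 < 1 + u * α := by positivity
      rw [← sub_pos]
      have e : 1 - u * π - ((1 - μ) * (1 / (1 + u * α)) + μ)
          = u * ((1 - μ) * α - π - u * (α * π)) / (1 + u * α) := by
        field_simp
        ring
      rw [e]
      apply div_pos _ hpos
      apply mul_pos hu0
      linarith
    linarith
  have hexpu : 0 < Real.exp (u * π) := Real.exp_pos _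
  have hprod : Real.exp (-(u * π)) * Real.exp (u * π) = 1 := by
    rw [← Real.exp_add]; simp
  refine ⟨1 / u, 1 - ((1 - μ) * wR + μ * wB) * Real.exp (u * π), ?_, ?_, ?_, ?_⟩
  · rw [lt_div_iff₀ hu0]; linarith
  · have := mul_lt_mul_of_pos_right hmain hexpu
    rw [hprod] at this
    linarith
  · have : 0 < ((1 - μ) * wR + μ * wB) * Real.exp (u * π) := by positivity
    linarith
  · intro β hβ0 hβμ
    have hθ : q / (1 / u) = u * q := by field_simp
    rw [hθ]
    have e1 : -A / (1 / u) = -(u * A) := by field_simp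
    have e2 : -(q * Real.log (1 / μ) + s) / (1 / u) = -(u * (q * Real.log (1 / μ) + s)) := by
      field_simp
    have e3 : Real.log p / (1 / u) = -(u * π) := by
      have : Real.log (1 / p) = -Real.log p := by rw [one_div, Real.log_inv]
      rw [hπ, this]; field_simp
    rw [e1, e2, e3]
    have e4 : (1 - (1 - ((1 - μ) * wR + μ * wB) * Real.exp (u * π))) * Real.exp (-(u * π))
        = (1 - μ) * wR + μ * wB := by
      have : (1 - (1 - ((1 - μ) * wR + μ * wB) * Real.exp (u * π))) * Real.exp (-(u * π))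
        = ((1 - μ) * wR + μ * wB) * (Real.exp (-(u * π)) * Real.exp (u * π)) := by ring
      rw [this, hprod, mul_one]
    rw [e4]
    set θ : ℝ := u * q with hθdef
    have hθ0 : 0 < θ := by positivity
    have hθ1 : θ ≤ 1 / 2 := hu2
    -- red
    have hR := Real.geom_mean_le_arith_mean2_weighted (w₁ := 1 - θ) (w₂ := θ) (p₁ := 1 - β)
      (p₂ := 1 - μ) (by linarith) hθ0.le (by linarith) h1μ.le (by ring)
    have hQ : (1 - μ) ^ θ = Real.exp (θ * Real.log (1 - μ)) := by
      rw [Real.rpow_def_of_pos h1μ, mul_comm]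
    have hRe : Real.exp (-(u * A)) = wR * (1 - μ) ^ θ := by
      rw [hQ, hwR, ← Real.exp_add, hα, one_div, Real.log_inv, hθdef]
      congr 1; ring
    have hR2 : Real.exp (-(u * A)) * (1 - β) ^ (1 - θ) ≤ wR * ((1 - θ) * (1 - β) + θ * (1 - μ)) := by
      rw [hRe]
      calc wR * (1 - μ) ^ θ * (1 - β) ^ (1 - θ) = wR * ((1 - β) ^ (1 - θ) * (1 - μ) ^ θ) := by ring
        _ ≤ wR * ((1 - θ) * (1 - β) + θ * (1 - μ)) :=
            mul_le_mul_of_nonneg_left hR (Real.exp_pos _).le
    have hB := Real.geom_mean_le_arith_mean2_weighted (w₁ := 1 - θ) (w₂ := θ) (p₁ := β)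
      (p₂ := μ) (by linarith) hθ0.le hβ0 hμ0.le (by ring)
    have hQB : μ ^ θ = Real.exp (θ * Real.log μ) := by
      rw [Real.rpow_def_of_pos hμ0, mul_comm]
    have hBe : Real.exp (-(u * (q * Real.log (1 / μ) + s))) = wB * μ ^ θ := by
      rw [hQB, hwB, ← Real.exp_add, one_div, Real.log_inv, hθdef]
      congr 1; ring
    have hB2 : Real.exp (-(u * (q * Real.log (1 / μ) + s))) * β ^ (1 - θ)
        ≤ wB * ((1 - θ) * β + θ * μ) := by
      rw [hBe]
      calc wB * μ ^ θ * β ^ (1 - θ) = wB * (β ^ (1 - θ) * μ ^ θ) := by ring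
        _ ≤ wB * ((1 - θ) * β + θ * μ) :=
            mul_le_mul_of_nonneg_left hB (Real.exp_pos _).le
    have hfin : wR * ((1 - θ) * (1 - β) + θ * (1 - μ)) + wB * ((1 - θ) * β + θ * μ)
        = (1 - μ) * wR + μ * wB - (wB - wR) * ((1 - θ) * (μ - β)) := by ring
    have hnn : 0 ≤ (wB - wR) * ((1 - θ) * (μ - β)) :=
      mul_nonneg (by linarith) (mul_nonneg (by linarith) (by linarith))
    linarith

/-- The book theorem. -/
theorem book (p μ q A s δ : ℝ) (hp0 : 0 < p) (hp1 : p < 1) (hμ0 : 0 < μ) (hμ1 : μ < 1)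
    (hq : 0 < q) (hs : 0 < s) (hδ : 0 < δ)
    (hA : q * Real.log (1 / (1 - μ)) + Real.log (1 / p) / (1 - μ) < A) :
    ∃ c D : ℝ, 0 ≤ D ∧ ∀ (V : Type) [DecidableEq V] (G : SimpleGraph V) (k l b : ℕ) (LM : ℝ)
      (X Y : Finset V), 1 ≤ k → X.Nonempty → Y.Nonempty → NoCl G k (X ∪ Y) → NoCl Gᶜ b X →
      NoCl Gᶜ l Y →
      (∀ a ≤ k, ∀ Z ⊆ Y, NoCl G a Z → NoCl Gᶜ l Z → (Z.card : ℝ) ≤ Real.exp (LM + A * a)) →
      (p + δ) * X.card * Y.card ≤ ∑ x ∈ X, ((nb G x Y).card : ℝ) →
      q * Real.log X.card + Real.log Y.card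
        ≤ LM + c + D * Real.log (k + 1) + A * k + (q * Real.log (1 / μ) + s) * b := by
  have h1μ : 0 < 1 - μ := by linarith
  have hlogμ : 0 < Real.log (1 / μ) := by
    apply Real.log_pos; rw [lt_div_iff₀ hμ0]; linarith
  have hlog1μ : 0 < Real.log (1 / (1 - μ)) := by
    apply Real.log_pos; rw [lt_div_iff₀ h1μ]; linarith
  have hπ0 : 0 < Real.log (1 / p) := by
    apply Real.log_pos; rw [lt_div_iff₀ hp0]; linarith
  have hA0 : 0 < A := by
    have : 0 < q * Real.log (1 / (1 - μ)) + Real.log (1 / p) / (1 - μ) := by positivity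
    linarith
  have hα0 : 0 < A - q * Real.log (1 / (1 - μ)) := by
    have : 0 < Real.log (1 / p) / (1 - μ) := by positivity
    linarith
  set s' : ℝ := min s (A - q * Real.log (1 / (1 - μ))) with hs'
  have hs'0 : 0 < s' := lt_min hs hα0
  obtain ⟨η, ε, hη, hε0, hε1, hg⟩ := params p μ q A s' hp0 hp1 hμ0 hμ1 hq hs'0 hA (min_le_right _ _)
  have hη0 : 0 < η := lt_trans hq hη
  -- choose b0
  obtain ⟨b0, hb0⟩ := exists_nat_ge (max 1 (-(η * Real.log (1 - q / η)) / (s' / 2)))
  have hb01 : 1 ≤ b0 := by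
    have : (1 : ℝ) ≤ b0 := le_trans (le_max_left _ _) hb0
    exact_mod_cast this
  have hb02 : -(η * Real.log (1 - q / η)) ≤ s' / 2 * b0 := by
    have : -(η * Real.log (1 - q / η)) / (s' / 2) ≤ b0 := le_trans (le_max_right _ _) hb0
    rw [div_le_iff₀ (by positivity)] at this
    linarith
  -- choose m
  have hrho : 0 < 1 - Real.exp (-(s' / (2 * q))) := by
    have : Real.exp (-(s' / (2 * q))) < 1 := by
      rw [Real.exp_lt_one_iff]
      have : 0 < s' / (2 * q) := by positivity
      linarith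
    linarith
  obtain ⟨m, hm⟩ := exists_nat_ge (max (b0 : ℝ) (b0 / (μ * (1 - Real.exp (-(s' / (2 * q)))))))
  have hmb : b0 ≤ m := by
    have : (b0 : ℝ) ≤ m := le_trans (le_max_left _ _) hm
    exact_mod_cast this
  have hmpos : (0 : ℝ) < m := by
    have : 0 < m := by omega
    exact_mod_cast this
  have hbm : (b0 : ℝ) / m ≤ μ * (1 - Real.exp (-(s' / (2 * q)))) := by
    have : (b0 : ℝ) / (μ * (1 - Real.exp (-(s' / (2 * q))))) ≤ m := le_trans (le_max_right _ _) hm
    rw [div_le_iff₀ (by positivity)] at this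
    rw [div_le_iff₀ hmpos]
    linarith
  have hμ2 : μ * Real.exp (-(s' / (2 * q))) ≤ μ - b0 / m := by nlinarith
  have hμ2pos : 0 < μ - b0 / m := lt_of_lt_of_le (by positivity) hμ2
  have hP1 : -(q * b0 * Real.log (μ - b0 / m)) - η * Real.log (1 - q / η)
      ≤ (q * Real.log (1 / μ) + s') * b0 := by
    have h1 := Real.log_le_log (by positivity) hμ2
    rw [Real.log_mul hμ0.ne' (Real.exp_pos _).ne', Real.log_exp] at h1
    have h2 : q * b0 * (Real.log μ + -(s' / (2 * q))) ≤ q * b0 * Real.log (μ - b0 / m) :=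
      mul_le_mul_of_nonneg_left h1 (by positivity)
    have h3 : q * b0 * (Real.log μ + -(s' / (2 * q))) = -(q * Real.log (1 / μ) * b0) - s' / 2 * b0 := by
      rw [one_div, Real.log_inv]; field_simp; ring
    rw [h3] at h2
    linarith
  refine ⟨q * Real.log (4 / (ε * p)) - η * Real.log δ, q * m, by positivity, ?_⟩
  intro V _ G k l b LM X Y hk hX hY hkX hbX hlY hZ hdens
  have hkpos : (0 : ℝ) < k := by exact_mod_cast hk
  have hXpos : (0 : ℝ) < X.card := by exact_mod_cast hX.card_pos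
  have hYpos : (0 : ℝ) < Y.card := by exact_mod_cast hY.card_pos
  have hfge : δ * X.card * Y.card ≤ fx G p X Y := by
    rw [fx_eq]; nlinarith
  have hfpos : 0 < fx G p X Y := lt_of_lt_of_le (by positivity) hfge
  have hB0 : 0 ≤ q * Real.log (1 / μ) + s' := by positivity
  have key := book_aux G p μ q η A (q * Real.log (1 / μ) + s') ε (3 * (k + 1) ^ m) LM k l m b0 Y
    hp0 hp1 hμ0 hμ1 hq hη hA0.le hB0 hε0 hε1 (by positivity) hg hb01 hmb hμ2pos hP1
    (fun a ha T h1 h2 => es_poly G k m a hk ha T h1 h2) hZ X.card X le_rfl Y subset_rfl k b le_rfl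
    hkX hbX hlY hfpos
  unfold LP at key
  have hlogf : Real.log δ + Real.log X.card + Real.log Y.card ≤ Real.log (fx G p X Y) := by
    rw [← Real.log_mul hδ.ne' hXpos.ne', ← Real.log_mul (by positivity) hYpos.ne']
    exact Real.log_le_log (by positivity) hfge
  have h1 : η * (Real.log δ + Real.log X.card + Real.log Y.card) ≤ η * Real.log (fx G p X Y) :=
    mul_le_mul_of_nonneg_left hlogf hη0.le
  have h2 : Real.log ((3 * ((k : ℝ) + 1) ^ m + 1) / (ε * p)) ≤ Real.log (4 / (ε * p)) + m * Real.log (k + 1) := by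
    rw [← Real.log_pow, ← Real.log_mul (by positivity) (by positivity)]
    apply Real.log_le_log (by positivity)
    rw [div_mul_eq_mul_div]
    apply div_le_div_of_nonneg_right _ (by positivity)
    have : (1 : ℝ) ≤ (k + 1) ^ m := one_le_pow₀ (by linarith)
    linarith
  have h3 : q * Real.log ((3 * ((k : ℝ) + 1) ^ m + 1) / (ε * p))
      ≤ q * (Real.log (4 / (ε * p)) + m * Real.log (k + 1)) := mul_le_mul_of_nonneg_left h2 hq.le
  have h4 : (q * Real.log (1 / μ) + s') * b ≤ (q * Real.log (1 / μ) + s) * b := by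
    apply mul_le_mul_of_nonneg_right _ (Nat.cast_nonneg _)
    have := min_le_left s (A - q * Real.log (1 / (1 - μ)))
    linarith
  linarith

end H110R2
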