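import Pool.Agent.H110R2.ExpLB

namespace H110R2

/-- real line from integers -/
noncomputable def rl (N : ℕ) (L : ℕ × ℕ) : ℝ × ℝ := ((L.1 : ℝ) / N, (L.2 : ℝ) / N)

/-- a data row for an Erdős–Szekeres line -/
structure ERow where
  L : ℕ × ℕ
  x : ℕ

/-- a data row for a direct step -/
structure DRow where
  L : ℕ × ℕ
  ilo : ℕ
  lo : ℕ × ℕ
  ihi : ℕ
  hi : ℕ × ℕ
  top : Bool
  i1 : ℕ
  L1 : ℕ × ℕ
  b1 : Bool
  i2 : ℕ
  L2 : ℕ × ℕ
  b2 : Bool
  t : ℕ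
  A : ℕ
  B : ℕ
  q : ℕ
  μ : ℕ
  p : ℕ
  lm : ℕ
  l1 : ℕ
  lp : ℕ

def echk (N : ℕ) (r : ERow) : Bool :=
  decide (r.L.1 ≤ r.L.2) && decide (0 < r.x) && decide (r.x < N) && expChk N r.L.1 r.x &&
    expChk N r.L.2 (N - r.x)

def nsw (b : Bool) (L : ℕ × ℕ) : ℕ × ℕ := if b then L.swap else L

def look (Ls : List (ℕ × ℕ)) (i : ℕ) (L : ℕ × ℕ) : Bool :=
  match Ls[i]? with
  | none => false
  | some L' => decide (L'.1 = L.1) && decide (L'.2 = L.2)

lemma look_sound {Ls : List (ℕ × ℕ)} {i : ℕ} {L : ℕ × ℕ} (h : look Ls i L = true) : L ∈ Ls := by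
  unfold look at h
  split at h
  · exact absurd h (by simp)
  · rename_i L' hL'
    simp only [Bool.and_eq_true, decide_eq_true_eq] at h
    have : L' = L := Prod.ext h.1 h.2
    rw [← this]
    exact List.mem_of_getElem? hL'

def slackChk (N : ℕ) (L lo hi : ℕ × ℕ) (top : Bool) (a1 b1 : ℤ) : Bool :=
  decide (lo.1 ≤ L.1) && decide (L.2 < lo.2) &&
  decide (0 ≤ a1 * ((lo.2 : ℤ) - L.2) + b1 * ((L.1 : ℤ) - lo.1)) &&
  (if top then decide (0 ≤ a1 + b1) else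
    (decide (L.1 ≤ hi.1) && decide (hi.2 < L.2) &&
      decide (0 ≤ a1 * ((L.2 : ℤ) - hi.2) + b1 * ((hi.1 : ℤ) - L.1))))

lemma cone_aux {a1 b1 k l x y : ℝ} (hx : 0 < x) (hk : 0 ≤ k)
    (h : 0 ≤ a1 * x + b1 * y) (hb : 0 ≤ b1 * (x * l - y * k)) : 0 ≤ a1 * k + b1 * l := by
  have h1 : 0 ≤ (a1 * x + b1 * y) * k := mul_nonneg h hk
  have h2 : 0 ≤ (a1 * k + b1 * l) * x := by nlinarith
  exact nonneg_of_mul_nonneg_left h2 hx

lemma slackChk_sound {N : ℕ} {L lo hi : ℕ × ℕ} {top : Bool} {a1 b1 : ℤ} (hN : 0 < N)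
    (h : slackChk N L lo hi top a1 b1 = true) (k l : ℕ) (hlk : l ≤ k)
    (hlo : lv (rl N L) k l ≤ lv (rl N lo) k l)
    (hhi : top = false → lv (rl N L) k l ≤ lv (rl N hi) k l) :
    (0 : ℝ) ≤ a1 * k + b1 * l := by
  have hN' : (0 : ℝ) < N := by exact_mod_cast hN
  have hk' : (0 : ℝ) ≤ k := Nat.cast_nonneg _
  have hl' : (0 : ℝ) ≤ l := Nat.cast_nonneg _
  have hlk' : (l : ℝ) ≤ k := by exact_mod_cast hlk
  unfold slackChk at h
  simp only [Bool.and_eq_true, decide_eq_true_eq] at h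
  obtain ⟨⟨⟨h1, h2⟩, h3⟩, h4⟩ := h
  have h2' : (L.2 : ℝ) < lo.2 := by exact_mod_cast h2
  have h3' : (0 : ℝ) ≤ a1 * ((lo.2 : ℝ) - L.2) + b1 * ((L.1 : ℝ) - lo.1) := by exact_mod_cast h3
  have clr : ∀ L' : ℕ × ℕ, lv (rl N L) k l ≤ lv (rl N L') k l →
      (L.1 : ℝ) * k + L.2 * l ≤ L'.1 * k + L'.2 * l := by
    intro L' hL'
    unfold lv rl at hL'
    simp only at hL'
    have e1 : (L.1 : ℝ) / N * k + L.2 / N * l = (L.1 * k + L.2 * l) / N := by ring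
    have e2 : (L'.1 : ℝ) / N * k + L'.2 / N * l = (L'.1 * k + L'.2 * l) / N := by ring
    rw [e1, e2, div_le_div_iff_of_pos_right hN'] at hL'
    exact hL'
  have hlo' := clr lo hlo
  by_cases hb : (0 : ℝ) ≤ b1
  · apply cone_aux (x := (lo.2 : ℝ) - L.2) (y := (L.1 : ℝ) - lo.1) (by linarith) hk' h3'
    apply mul_nonneg hb
    linarith
  · push Not at hb
    cases top with
    | true =>
      simp only [if_true, decide_eq_true_eq] at h4
      have h4' : (0 : ℝ) ≤ a1 + b1 := by exact_mod_cast h4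
      apply cone_aux (x := 1) (y := 1) (by norm_num) hk' (by linarith)
      nlinarith
    | false =>
      simp only [Bool.false_eq_true, if_false, Bool.and_eq_true, decide_eq_true_eq] at h4
      obtain ⟨⟨h5, h6⟩, h7⟩ := h4
      have h6' : (hi.2 : ℝ) < L.2 := by exact_mod_cast h6
      have h7' : (0 : ℝ) ≤ a1 * ((L.2 : ℝ) - hi.2) + b1 * ((hi.1 : ℝ) - L.1) := by
        exact_mod_cast h7
      have hhi' := clr hi (hhi rfl)
      apply cone_aux (x := (L.2 : ℝ) - hi.2) (y := (hi.1 : ℝ) - L.1) (by linarith) hk' h7'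
      nlinarith

def dchk (N : ℕ) (Ls : List (ℕ × ℕ)) (r : DRow) : Bool :=
  decide (0 < r.L.1) && decide (r.L.1 ≤ r.L.2) &&
  look Ls r.ilo r.lo && (r.top || look Ls r.ihi r.hi) && look Ls r.i1 r.L1 && look Ls r.i2 r.L2 &&
  decide (r.t ≤ N) &&
  decide (r.t * (nsw r.b1 r.L1).1 + (N - r.t) * (nsw r.b2 r.L2).1 ≤ r.A * N) &&
  decide (r.t * (nsw r.b1 r.L1).2 + (N - r.t) * (nsw r.b2 r.L2).2 ≤ r.B * N) &&
  decide (0 < r.p) && decide (r.p + 1 < N) && expChk N r.L.2 (N - r.p - 1) &&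
  decide (0 < r.μ) && decide (r.μ < N) && decide (0 < r.q) &&
  expChk N r.lm r.μ && expChk N r.l1 (N - r.μ) && expChk N r.lp r.p &&
  decide (r.q * r.l1 * (N - r.μ) + r.lp * N * N < r.A * N * (N - r.μ)) &&
  slackChk N r.L r.lo r.hi r.top (((N : ℤ) + r.q) * r.L.1 - (r.A + 1) * N)
    (((N : ℤ) + r.q) * r.L.2 - (r.B + 1) * N - r.q * r.lm)

lemma nsw_rl (N : ℕ) (b : Bool) (L : ℕ × ℕ) : rl N (nsw b L) = sw b (rl N L) := by
  cases b <;> simp [nsw, sw, rl, Prod.swap]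

theorem dchk_sound {N : ℕ} {Ls : List (ℕ × ℕ)} (hN : 0 < N) {r : DRow}
    (hLs : ∀ L ∈ Ls, L.1 ≤ L.2) (hr : r.L ∈ Ls) (h : dchk N Ls r = true) :
    StepOK (Ls.map (rl N)) (rl N r.L) := by
  have hN' : (0 : ℝ) < N := by exact_mod_cast hN
  unfold dchk at h
  simp only [Bool.and_eq_true, decide_eq_true_eq] at h
  obtain ⟨⟨⟨⟨⟨⟨⟨⟨⟨⟨⟨⟨⟨⟨⟨⟨⟨⟨⟨h1, h2⟩, h3⟩, h4⟩, h5⟩, h6⟩, h7⟩, h8⟩, h9⟩, h10⟩, h11⟩, h12⟩, h13⟩, h14⟩,
    h15⟩, h16⟩, h17⟩, h18⟩, h19⟩, h20⟩ := h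
  have mem : ∀ {L : ℕ × ℕ}, L ∈ Ls → rl N L ∈ Ls.map (rl N) := fun hL => List.mem_map_of_mem hL
  have hle : ∀ L' ∈ Ls.map (rl N), L'.1 ≤ L'.2 := by
    intro L' hL'
    obtain ⟨L, hL, rfl⟩ := List.mem_map.mp hL'
    unfold rl
    simp only
    rw [div_le_div_iff_of_pos_right hN']
    exact_mod_cast hLs L hL
  have hμN : (r.μ : ℝ) < N := by exact_mod_cast h14
  have hμ0 : (0 : ℝ) < r.μ := by exact_mod_cast h13
  have hp0 : (0 : ℝ) < r.p := by exact_mod_cast h10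
  have hq0 : (0 : ℝ) < r.q := by exact_mod_cast h15
  have ht0 : (0 : ℝ) ≤ r.t := Nat.cast_nonneg _
  have htN : (r.t : ℝ) ≤ N := by exact_mod_cast h7
  have hlm := log_le_of_expChk hN h13 h16
  have hl1 := log_le_of_expChk hN (by omega) h17
  have hlp := log_le_of_expChk hN h10 h18
  have hcast1 : ((N - r.μ : ℕ) : ℝ) = N - r.μ := by
    rw [Nat.cast_sub h14.le]
  have hcastt : ((N - r.t : ℕ) : ℝ) = N - r.t := by
    rw [Nat.cast_sub h7]
  have h1μ : 1 - (r.μ : ℝ) / N = ((N - r.μ : ℕ) : ℝ) / N := by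
    rw [hcast1]; field_simp
  refine step_direct (Ls.map (rl N)) hle (rl N r.L) (rl N r.L1) (rl N r.L2) (mem hr)
    (mem (look_sound h5)) (mem (look_sound h6)) r.b1 r.b2 ((r.t : ℝ) / N) ((r.A : ℝ) / N) ((r.B : ℝ) / N)
    ((r.q : ℝ) / N) ((r.μ : ℝ) / N) ((r.p : ℝ) / N) (1 / N) (1 / N) ?_ ?_ (by positivity) ?_ ?_ ?_
    (by positivity) ?_ (by positivity) ?_ (by positivity) (by positivity) (by positivity) ?_ ?_
  · unfold rl; simp only
    have : (0 : ℝ) < r.L.1 := by exact_mod_cast h1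
    positivity
  · unfold rl; simp only
    have : (0 : ℝ) < r.L.1 := by exact_mod_cast h1
    have : (r.L.1 : ℝ) ≤ r.L.2 := by exact_mod_cast h2
    have : (0 : ℝ) < r.L.2 := by linarith
    positivity
  · rw [div_le_one hN']; exact htN
  · rw [← nsw_rl, ← nsw_rl]; unfold rl; simp only
    have h8' : (r.t : ℝ) * (nsw r.b1 r.L1).1 + ((N - r.t : ℕ) : ℝ) * (nsw r.b2 r.L2).1 ≤ r.A * N := by
      exact_mod_cast h8
    rw [hcastt] at h8'
    have e : (r.t : ℝ) / N * ((nsw r.b1 r.L1).1 / N) + (1 - (r.t : ℝ) / N) * ((nsw r.b2 r.L2).1 / N)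
        = ((r.t : ℝ) * (nsw r.b1 r.L1).1 + (N - r.t) * (nsw r.b2 r.L2).1) / (N * N) := by
      field_simp
    rw [e, div_le_div_iff₀ (by positivity) hN']
    nlinarith
  · rw [← nsw_rl, ← nsw_rl]; unfold rl; simp only
    have h9' : (r.t : ℝ) * (nsw r.b1 r.L1).2 + ((N - r.t : ℕ) : ℝ) * (nsw r.b2 r.L2).2 ≤ r.B * N := by
      exact_mod_cast h9
    rw [hcastt] at h9'
    have e : (r.t : ℝ) / N * ((nsw r.b1 r.L1).2 / N) + (1 - (r.t : ℝ) / N) * ((nsw r.b2 r.L2).2 / N)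
        = ((r.t : ℝ) * (nsw r.b1 r.L1).2 + (N - r.t) * (nsw r.b2 r.L2).2) / (N * N) := by
      field_simp
    rw [e, div_le_div_iff₀ (by positivity) hN']
    nlinarith
  · -- p < 1 - exp (-Q)
    unfold rl; simp only
    have h12' := expChk_sound hN h12
    have hc : ((N - r.p - 1 : ℕ) : ℝ) = N - r.p - 1 := by
      rw [Nat.cast_sub (by omega), Nat.cast_sub (by omega)]; simp
    rw [hc] at h12'
    have hE : 0 < Real.exp ((r.L.2 : ℝ) / N) := Real.exp_pos _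
    have hE2 : Real.exp (-((r.L.2 : ℝ) / N)) * Real.exp ((r.L.2 : ℝ) / N) = 1 := by
      rw [← Real.exp_add]; simp
    have hE3 : 0 < Real.exp (-((r.L.2 : ℝ) / N)) := Real.exp_pos _
    have h12b : N * Real.exp (-((r.L.2 : ℝ) / N)) ≤ N - r.p - 1 := by
      have := mul_le_mul_of_nonneg_right h12' hE3.le
      have e : ((N : ℝ) - r.p - 1) * Real.exp ((r.L.2 : ℝ) / N) * Real.exp (-((r.L.2 : ℝ) / N))
          = N - r.p - 1 := by
        rw [mul_assoc, mul_comm (Real.exp ((r.L.2 : ℝ) / N)), hE2, mul_one]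
      rw [e] at this
      exact this
    rw [div_lt_iff₀ hN']
    nlinarith
  · rw [div_lt_one hN']; exact hμN
  · -- book
    rw [h1μ]
    have hb : (r.q : ℝ) * r.l1 * ((N - r.μ : ℕ) : ℝ) + r.lp * N * N < r.A * N * ((N - r.μ : ℕ) : ℝ) := by
      exact_mod_cast h19
    have hM : (0 : ℝ) < ((N - r.μ : ℕ) : ℝ) := by rw [hcast1]; linarith
    have e1 : (r.q : ℝ) / N * Real.log (1 / (((N - r.μ : ℕ) : ℝ) / N)) ≤ (r.q : ℝ) / N * ((r.l1 : ℝ) / N) :=
      mul_le_mul_of_nonneg_left hl1 (by positivity)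
    have e2 : Real.log (1 / ((r.p : ℝ) / N)) / (((N - r.μ : ℕ) : ℝ) / N)
        ≤ ((r.lp : ℝ) / N) / (((N - r.μ : ℕ) : ℝ) / N) :=
      div_le_div_of_nonneg_right hlp (by positivity)
    refine lt_of_le_of_lt (add_le_add e1 e2) ?_
    rw [div_div_div_cancel_right₀ hN'.ne', div_mul_div_comm, div_add_div _ _ (by positivity) hM.ne',
      div_lt_div_iff₀ (by positivity) hN']
    nlinarith
  · -- slack
    intro k l hlk hact
    have hs := slackChk_sound hN h20 k l hlk (hact _ (mem (look_sound h3))) (by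
      intro htop
      rw [htop] at h4
      simp only [Bool.false_or] at h4
      exact hact _ (mem (look_sound h4)))
    have hl' : (0 : ℝ) ≤ l := Nat.cast_nonneg _
    have hk' : (0 : ℝ) ≤ k := Nat.cast_nonneg _
    push_cast at hs
    have e1 : (r.q : ℝ) / N * Real.log (1 / ((r.μ : ℝ) / N)) ≤ (r.q : ℝ) / N * ((r.lm : ℝ) / N) :=
      mul_le_mul_of_nonneg_left hlm (by positivity)
    have e2 : ((r.B : ℝ) / N + (r.q : ℝ) / N * Real.log (1 / ((r.μ : ℝ) / N)) + 1 / N) * l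
        ≤ ((r.B : ℝ) / N + (r.q : ℝ) / N * ((r.lm : ℝ) / N) + 1 / N) * l :=
      mul_le_mul_of_nonneg_right (by linarith) hl'
    unfold rl lv
    simp only
    have e3 : (1 + (r.q : ℝ) / N) * ((r.L.1 : ℝ) / N * k + (r.L.2 : ℝ) / N * l)
        - ((r.A : ℝ) / N * k + ((r.B : ℝ) / N + (r.q : ℝ) / N * ((r.lm : ℝ) / N) + 1 / N) * l
          + 1 / N * k)
        = ((((N : ℝ) + r.q) * r.L.1 - (r.A + 1) * N) * k
          + (((N : ℝ) + r.q) * r.L.2 - (r.B + 1) * N - r.q * r.lm) * l) / (N * N) := by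
      field_simp
      ring
    have e4 : 0 ≤ ((((N : ℝ) + r.q) * r.L.1 - (r.A + 1) * N) * k
          + (((N : ℝ) + r.q) * r.L.2 - (r.B + 1) * N - r.q * r.lm) * l) / (N * N) :=
      div_nonneg hs (by positivity)
    linarith

theorem echk_sound {N : ℕ} (hN : 0 < N) {Ls : List (ℝ × ℝ)} {r : ERow} (h : echk N r = true) :
    StepOK Ls (rl N r.L) := by
  have hN' : (0 : ℝ) < N := by exact_mod_cast hN
  unfold echk at h
  simp only [Bool.and_eq_true, decide_eq_true_eq] at h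
  obtain ⟨⟨⟨⟨h1, h2⟩, h3⟩, h4⟩, h5⟩ := h
  have inv : ∀ y m : ℕ, (N : ℝ) ≤ m * Real.exp ((y : ℝ) / N) → Real.exp (-((y : ℝ) / N)) ≤ m / N := by
    intro y m hy
    have hE3 : 0 < Real.exp (-((y : ℝ) / N)) := Real.exp_pos _
    have hE2 : Real.exp ((y : ℝ) / N) * Real.exp (-((y : ℝ) / N)) = 1 := by
      rw [← Real.exp_add]; simp
    have := mul_le_mul_of_nonneg_right hy hE3.le
    rw [mul_assoc, hE2, mul_one] at this
    rw [le_div_iff₀ hN']
    linarith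
  apply step_es
  unfold rl
  simp only
  have e1 := inv _ _ (expChk_sound hN h4)
  have e2 := inv _ _ (expChk_sound hN h5)
  have hc : ((N - r.x : ℕ) : ℝ) = N - r.x := by rw [Nat.cast_sub h3.le]
  rw [hc] at e2
  have e3 : (r.x : ℝ) / N + (N - r.x) / N = 1 := by field_simp; ring
  linarith

end H110R2
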