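import Mathlib

namespace H110R2

/-- Every red/blue colouring of the edges of `K_n` (red = edges of `G`, blue = edges of `Gᶜ`)
contains a monochromatic `K_k`. -/
def MonoProp (k n : ℕ) : Prop :=
  ∀ G : SimpleGraph (Fin n),
    (∃ T : Finset (Fin n), G.IsNClique k T) ∨ (∃ T : Finset (Fin n), Gᶜ.IsNClique k T)

/-- The diagonal Ramsey number: the least positive `n` such that every two-colouring of the edges
of `K_n` contains a monochromatic `K_k`. -/
noncomputable def diagRamsey (k : ℕ) : ℕ := sInf {n : ℕ | 1 ≤ n ∧ MonoProp k n}

end H110R2
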