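import Pool.Agent.H110R2.Check
import Pool.Agent.H110R2.Defs

open Finset

namespace H110R2

theorem cert_bound {N : ℕ} (hN : 0 < N) (es : List ERow) (ds : List DRow) (Ls : List (ℕ × ℕ))
    (hLs : Ls = es.map ERow.L ++ ds.map DRow.L) (hne : ds ≠ [])
    (hes : es.all (echk N) = true) (hds : ds.all (dchk N Ls) = true) :
    ∃ C : ℝ, 1 ≤ C ∧ ∀ a b : ℕ, BdAt (Ls.map (rl N)) C a b := by
  have hN' : (0 : ℝ) < N := by exact_mod_cast hN
  have hle : ∀ L ∈ Ls, L.1 ≤ L.2 := by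
    intro L hL
    rw [hLs, List.mem_append] at hL
    rcases hL with hL | hL
    · obtain ⟨r, hr, rfl⟩ := List.mem_map.mp hL
      have h := List.all_eq_true.mp hes r hr
      unfold echk at h
      simp only [Bool.and_eq_true, decide_eq_true_eq] at h
      exact h.1.1.1.1
    · obtain ⟨r, hr, rfl⟩ := List.mem_map.mp hL
      have h := List.all_eq_true.mp hds r hr
      unfold dchk at h
      simp only [Bool.and_eq_true, decide_eq_true_eq] at h
      exact h.1.1.1.1.1.1.1.1.1.1.1.1.1.1.1.1.1.1.2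
  apply main_induction
  · rw [hLs]
    cases ds with
    | nil => exact absurd rfl hne
    | cons r ds => simp
  · intro L hL
    obtain ⟨L', hL', rfl⟩ := List.mem_map.mp hL
    unfold rl
    simp only
    refine ⟨by positivity, ?_⟩
    rw [div_le_div_iff_of_pos_right hN']
    exact_mod_cast hle L' hL'
  · intro L hL
    obtain ⟨L', hL', rfl⟩ := List.mem_map.mp hL
    have hL2 := hL'
    rw [hLs, List.mem_append] at hL2
    rcases hL2 with h | h
    · obtain ⟨r, hr, rfl⟩ := List.mem_map.mp h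
      exact echk_sound hN (List.all_eq_true.mp hes r hr)
    · obtain ⟨r, hr, rfl⟩ := List.mem_map.mp h
      exact dchk_sound hN hle hL' (List.all_eq_true.mp hds r hr)

theorem exists_mono (Ls : List (ℝ × ℝ)) (C : ℝ) (hC : 1 ≤ C) (h : ∀ a b : ℕ, BdAt Ls C a b)
    (L : ℝ × ℝ) (hL : L ∈ Ls) (hL0 : 0 ≤ L.1 + L.2) (k : ℕ) :
    ∃ n : ℕ, 1 ≤ n ∧ (n : ℝ) ≤ 2 * C * Real.exp ((L.1 + L.2) * k) ∧ MonoProp k n := by
  have hE : 1 ≤ Real.exp ((L.1 + L.2) * k) := Real.one_le_exp (by positivity)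
  refine ⟨⌊C * Real.exp ((L.1 + L.2) * k)⌋₊ + 1, by omega, ?_, ?_⟩
  · push_cast
    have := Nat.floor_le (show 0 ≤ C * Real.exp ((L.1 + L.2) * k) by positivity)
    nlinarith
  · intro G
    by_contra hcon
    push Not at hcon
    have hb := (h k k (Fin (⌊C * Real.exp ((L.1 + L.2) * k)⌋₊ + 1)) G univ
      (fun T _ hT => hcon.1 T hT) (fun T _ hT => hcon.2 T hT) L hL).1
    rw [card_univ, Fintype.card_fin] at hb
    have e : lv L k k = (L.1 + L.2) * k := by unfold lv; ring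
    rw [e] at hb
    have := Nat.lt_floor_add_one (C * Real.exp ((L.1 + L.2) * k))
    push_cast at hb
    linarith

theorem ramsey_isLeast (k : ℕ) (h : ∃ n : ℕ, 1 ≤ n ∧ MonoProp k n) :
    IsLeast {n : ℕ | 1 ≤ n ∧ MonoProp k n} (diagRamsey k) := by
  refine ⟨Nat.sInf_mem h, fun n hn => Nat.sInf_le hn⟩

theorem finish (Ls : List (ℝ × ℝ)) (h : ∃ C : ℝ, 1 ≤ C ∧ ∀ a b : ℕ, BdAt Ls C a b)
    (L : ℝ × ℝ) (hL : L ∈ Ls) (hL0 : 0 ≤ L.1 + L.2) (c : ℝ) (hc : Real.exp (L.1 + L.2) < c) :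
    (∀ k : ℕ, IsLeast {n : ℕ | 1 ≤ n ∧ MonoProp k n} (diagRamsey k)) ∧
    (∃ K : ℕ, ∀ k : ℕ, K ≤ k → (diagRamsey k : ℝ) ≤ c ^ k) ∧
    Filter.limsup (fun k : ℕ => (diagRamsey k : ℝ) ^ ((1 : ℝ) / k)) Filter.atTop ≤ c := by
  obtain ⟨C, hC, hB⟩ := h
  have hex := exists_mono Ls C hC hB L hL hL0
  have hleast : ∀ k : ℕ, IsLeast {n : ℕ | 1 ≤ n ∧ MonoProp k n} (diagRamsey k) := by
    intro k
    obtain ⟨n, h1, _, h3⟩ := hex k
    exact ramsey_isLeast k ⟨n, h1, h3⟩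
  have hc0 : 0 < c := lt_trans (Real.exp_pos _) hc
  have hev : ∃ K : ℕ, ∀ k : ℕ, K ≤ k → (diagRamsey k : ℝ) ≤ c ^ k := by
    have hr : 1 < c / Real.exp (L.1 + L.2) := by
      rw [lt_div_iff₀ (Real.exp_pos _), one_mul]; exact hc
    obtain ⟨K, hK⟩ := Filter.eventually_atTop.mp
      ((tendsto_pow_atTop_atTop_of_one_lt hr).eventually (Filter.eventually_ge_atTop (2 * C)))
    refine ⟨K, fun k hk => ?_⟩
    obtain ⟨n, h1, h2, h3⟩ := hex k
    have h4 : (diagRamsey k : ℝ) ≤ n := by exact_mod_cast (hleast k).2 ⟨h1, h3⟩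
    have h5 := hK k hk
    rw [div_pow] at h5
    have h6 : Real.exp (L.1 + L.2) ^ k = Real.exp ((L.1 + L.2) * k) := by
      rw [← Real.exp_nat_mul]; congr 1; ring
    rw [h6, le_div_iff₀ (Real.exp_pos _)] at h5
    linarith
  refine ⟨hleast, hev, ?_⟩
  obtain ⟨K, hK⟩ := hev
  apply Filter.limsup_le_of_le
  · refine ⟨0, ?_⟩
    intro b hb
    have hb' := Filter.eventually_atTop.mp (Filter.eventually_map.mp hb)
    obtain ⟨M, hM⟩ := hb'
    exact le_trans (by positivity) (hM M le_rfl)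
  · rw [Filter.eventually_atTop]
    refine ⟨max K 1, fun k hk => ?_⟩
    have hk1 : 1 ≤ k := le_trans (le_max_right _ _) hk
    have hk0 : (0 : ℝ) < k := by exact_mod_cast hk1
    have h7 := hK k (le_trans (le_max_left _ _) hk)
    calc (diagRamsey k : ℝ) ^ ((1 : ℝ) / k) ≤ (c ^ k) ^ ((1 : ℝ) / k) :=
          Real.rpow_le_rpow (Nat.cast_nonneg _) h7 (by positivity)
      _ = c := by
          rw [← Real.rpow_natCast, ← Real.rpow_mul hc0.le]
          rw [mul_one_div_cancel hk0.ne', Real.rpow_one]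

end H110R2
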