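import Pool.Agent.H110R2.StepJ
import Pool.Agent.H110R2.Finish

open Finset

namespace H110R2

/-- upper polynomial for `exp` -/
def polU (D y : ℕ) : ℕ := 96 * D ^ 4 + 96 * y * D ^ 3 + 48 * y ^ 2 * D ^ 2 + 16 * y ^ 3 * D + 5 * y ^ 4

lemma le_polU (D y : ℕ) (hD : 0 < D) (hy : y ≤ D) :
    Real.exp ((y : ℝ) / D) ≤ (polU D y : ℝ) / (96 * (D : ℝ) ^ 4) := by
  have hD' : (0 : ℝ) < D := by exact_mod_cast hD
  have hy' : (y : ℝ) ≤ D := by exact_mod_cast hy
  have h := Real.exp_bound' (x := (y : ℝ) / D) (by positivity) (by rw [div_le_one hD']; exact hy')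
    (n := 4) (by norm_num)
  refine le_trans h (le_of_eq ?_)
  simp only [Finset.sum_range_succ, Finset.sum_range_zero, polU]
  push_cast
  simp only [Nat.factorial]
  field_simp
  push_cast
  ring

/-- `exp (y / N) ≤ a / b` -/
def expU (N y a b : ℕ) : Bool :=
  decide (y ≤ 256 * N) && decide (0 < b) &&
    decide ((polU (256 * N) y) ^ 256 * b ≤ a * (96 * (256 * N) ^ 4) ^ 256)

lemma expU_sound {N y a b : ℕ} (hN : 0 < N) (h : expU N y a b = true) :
    Real.exp ((y : ℝ) / N) ≤ (a : ℝ) / b := by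
  unfold expU at h
  simp only [Bool.and_eq_true, decide_eq_true_eq] at h
  obtain ⟨⟨h0, hb⟩, h1⟩ := h
  have hN' : (0 : ℝ) < N := by exact_mod_cast hN
  have hb' : (0 : ℝ) < b := by exact_mod_cast hb
  have h2 : (polU (256 * N) y : ℝ) ^ 256 * b ≤ a * (96 * (256 * (N : ℝ)) ^ 4) ^ 256 := by
    exact_mod_cast h1
  have h3 := le_polU (256 * N) y (by omega) h0
  have h4 : (0 : ℝ) < 96 * (256 * (N : ℝ)) ^ 4 := by positivity
  have h5 : Real.exp ((y : ℝ) / (256 * N)) ≤ (polU (256 * N) y : ℝ) / (96 * (256 * (N : ℝ)) ^ 4) := by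
    push_cast at h3
    exact h3
  have h7 := pow_le_pow_left₀ (Real.exp_pos _).le h5 256
  have h8 : Real.exp ((y : ℝ) / (256 * N)) ^ 256 = Real.exp ((y : ℝ) / N) := by
    rw [← Real.exp_nat_mul]; congr 1; field_simp; push_cast; ring
  rw [h8, div_pow] at h7
  refine h7.trans ?_
  rw [div_le_div_iff₀ (by positivity) hb']
  exact h2

/-- `a / b ≤ exp (y / N)` -/
def expL (N y a b : ℕ) : Bool :=
  decide (a * (24 * (256 * N) ^ 4) ^ 256 ≤ b * (pol (256 * N) y) ^ 256)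

lemma expL_sound {N y a b : ℕ} (hN : 0 < N) (hb : 0 < b) (h : expL N y a b = true) :
    (a : ℝ) / b ≤ Real.exp ((y : ℝ) / N) := by
  unfold expL at h
  have h1 := of_decide_eq_true h
  have hN' : (0 : ℝ) < N := by exact_mod_cast hN
  have hb' : (0 : ℝ) < b := by exact_mod_cast hb
  have h2 : (a : ℝ) * (24 * (256 * (N : ℝ)) ^ 4) ^ 256 ≤ b * (pol (256 * N) y : ℝ) ^ 256 := by
    exact_mod_cast h1
  have h3 := pol_le (256 * N) y (by omega)
  have h4 : (0 : ℝ) < 24 * (256 * (N : ℝ)) ^ 4 := by positivity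
  have h5 : (pol (256 * N) y : ℝ) / (24 * (256 * (N : ℝ)) ^ 4) ≤ Real.exp ((y : ℝ) / (256 * N)) := by
    push_cast at h3
    exact h3
  have h7 := pow_le_pow_left₀ (by positivity) h5 256
  have h8 : Real.exp ((y : ℝ) / (256 * N)) ^ 256 = Real.exp ((y : ℝ) / N) := by
    rw [← Real.exp_nat_mul]; congr 1; field_simp; push_cast; ring
  rw [h8, div_pow] at h7
  refine le_trans ?_ h7
  rw [div_le_div_iff₀ hb' (by positivity)]
  linarith

/-- data of one application of the norm book theorem -/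
structure NP where
  i1 : ℕ
  L1 : ℕ × ℕ
  b1 : Bool
  i2 : ℕ
  L2 : ℕ × ℕ
  b2 : Bool
  t : ℕ
  A : ℕ
  B : ℕ
  W : ℕ
  q : ℕ
  β : ℕ
  T : ℕ
  p : ℕ
  lp : ℕ
  lb1 : ℕ
  lb0 : ℕ
  lth : ℕ
  l1T : ℕ

def npchk (N : ℕ) (Ls : List (ℕ × ℕ)) (r : NP) : Bool :=
  look Ls r.i1 r.L1 && look Ls r.i2 r.L2 && decide (r.t ≤ N) &&
  decide (r.t * (nsw r.b1 r.L1).1 + (N - r.t) * (nsw r.b2 r.L2).1 ≤ r.A * N) &&
  decide (r.t * (nsw r.b1 r.L1).2 + (N - r.t) * (nsw r.b2 r.L2).2 ≤ r.B * N) &&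
  decide (0 < r.p) && decide (r.p < N) && decide (0 < r.q) && decide (0 < r.β) &&
  decide (r.β < N) && decide (0 < r.T) && decide (r.T < N) &&
  expL N r.lp N r.p && expL N r.lb1 N (N - r.β) && expL N r.lb0 N r.β &&
  expL N r.lth (r.p * N + (N - r.p) * r.T) (r.p * N) && expU N r.l1T N (N - r.T) &&
  decide (r.lp * N * r.T + r.q * r.lb1 * r.T + r.q * r.β * (N - r.T) < r.A * N * r.T) &&
  decide (r.q * r.lb0 * N + (r.p * N + (N - r.p) * r.T) * r.lth
    < r.W * N * N + (N - r.p) * (N - r.T) * r.l1T + r.q * (N - r.β) * (N - r.T))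

lemma sub_cast_div {N a : ℕ} (hN : 0 < N) (h : a < N) :
    1 - (a : ℝ) / N = ((N - a : ℕ) : ℝ) / N := by
  have hN' : (0 : ℝ) < N := by exact_mod_cast hN
  rw [Nat.cast_sub h.le]; field_simp

lemma log_le_of_le_exp {x y : ℝ} (hx : 0 < x) (h : x ≤ Real.exp y) : Real.log x ≤ y := by
  rw [Real.log_le_iff_le_exp hx]; exact h

structure NPOK (N : ℕ) (Ls : List (ℕ × ℕ)) (r : NP) : Prop where
  h1 : rl N r.L1 ∈ Ls.map (rl N)
  h2 : rl N r.L2 ∈ Ls.map (rl N)
  ht0 : 0 ≤ (r.t : ℝ) / N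
  ht1 : (r.t : ℝ) / N ≤ 1
  hA : (r.t : ℝ) / N * (sw r.b1 (rl N r.L1)).1 + (1 - (r.t : ℝ) / N) * (sw r.b2 (rl N r.L2)).1
    ≤ (r.A : ℝ) / N
  hB : (r.t : ℝ) / N * (sw r.b1 (rl N r.L1)).2 + (1 - (r.t : ℝ) / N) * (sw r.b2 (rl N r.L2)).2
    ≤ (r.B : ℝ) / N
  hn : NOK ((r.p : ℝ) / N) ((r.q : ℝ) / N) ((r.A : ℝ) / N) ((r.W : ℝ) / N) ((r.β : ℝ) / N)
    ((r.T : ℝ) / N)

theorem npchk_sound {N : ℕ} {Ls : List (ℕ × ℕ)} (hN : 0 < N) {r : NP}
    (h : npchk N Ls r = true) : NPOK N Ls r := by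
  have hN' : (0 : ℝ) < N := by exact_mod_cast hN
  unfold npchk at h
  simp only [Bool.and_eq_true, decide_eq_true_eq] at h
  obtain ⟨⟨⟨⟨⟨⟨⟨⟨⟨⟨⟨⟨⟨⟨⟨⟨⟨⟨h1, h2⟩, h3⟩, h4⟩, h5⟩, h6⟩, h7⟩, h8⟩, h9⟩, h10⟩, h11⟩, h12⟩, h13⟩, h14⟩,
    h15⟩, h16⟩, h17⟩, h18⟩, h19⟩ := h
  have mem : ∀ {L : ℕ × ℕ}, L ∈ Ls → rl N L ∈ Ls.map (rl N) := fun hL => List.mem_map_of_mem hL
  have htN : (r.t : ℝ) ≤ N := by exact_mod_cast h3
  have hcastt : ((N - r.t : ℕ) : ℝ) = N - r.t := by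
    rw [Nat.cast_sub h3]
  have hp0 : (0 : ℝ) < r.p := by exact_mod_cast h6
  have hpN : (r.p : ℝ) < N := by exact_mod_cast h7
  have hq0 : (0 : ℝ) < r.q := by exact_mod_cast h8
  have hβ0 : (0 : ℝ) < r.β := by exact_mod_cast h9
  have hβN : (r.β : ℝ) < N := by exact_mod_cast h10
  have hT0 : (0 : ℝ) < r.T := by exact_mod_cast h11
  have hTN : (r.T : ℝ) < N := by exact_mod_cast h12
  have hcp : ((N - r.p : ℕ) : ℝ) = N - r.p := Nat.cast_sub h7.le
  have hcT : ((N - r.T : ℕ) : ℝ) = N - r.T := Nat.cast_sub h12.le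
  have hcβ : ((N - r.β : ℕ) : ℝ) = N - r.β := Nat.cast_sub h10.le
  refine ⟨mem (look_sound h1), mem (look_sound h2), by positivity, ?_, ?_, ?_, ?_⟩
  · rw [div_le_one hN']; exact htN
  · rw [← nsw_rl, ← nsw_rl]; unfold rl; simp only
    have h8' : (r.t : ℝ) * (nsw r.b1 r.L1).1 + ((N - r.t : ℕ) : ℝ) * (nsw r.b2 r.L2).1 ≤ r.A * N := by
      exact_mod_cast h4
    rw [hcastt] at h8'
    have e : (r.t : ℝ) / N * ((nsw r.b1 r.L1).1 / N) + (1 - (r.t : ℝ) / N) * ((nsw r.b2 r.L2).1 / N)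
        = ((r.t : ℝ) * (nsw r.b1 r.L1).1 + (N - r.t) * (nsw r.b2 r.L2).1) / (N * N) := by
      field_simp
    rw [e, div_le_div_iff₀ (by positivity) hN']
    nlinarith
  · rw [← nsw_rl, ← nsw_rl]; unfold rl; simp only
    have h9' : (r.t : ℝ) * (nsw r.b1 r.L1).2 + ((N - r.t : ℕ) : ℝ) * (nsw r.b2 r.L2).2 ≤ r.B * N := by
      exact_mod_cast h5
    rw [hcastt] at h9'
    have e : (r.t : ℝ) / N * ((nsw r.b1 r.L1).2 / N) + (1 - (r.t : ℝ) / N) * ((nsw r.b2 r.L2).2 / N)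
        = ((r.t : ℝ) * (nsw r.b1 r.L1).2 + (N - r.t) * (nsw r.b2 r.L2).2) / (N * N) := by
      field_simp
    rw [e, div_le_div_iff₀ (by positivity) hN']
    nlinarith
  · have l1 : Real.log (1 / ((r.p : ℝ) / N)) ≤ (r.lp : ℝ) / N := by
      rw [one_div_div]
      exact log_le_of_le_exp (by positivity) (expL_sound hN h6 h13)
    have l2 : Real.log (1 / (1 - (r.β : ℝ) / N)) ≤ (r.lb1 : ℝ) / N := by
      rw [sub_cast_div hN h10, one_div_div]
      have : (0 : ℝ) < ((N - r.β : ℕ) : ℝ) := by rw [hcβ]; linarith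
      exact log_le_of_le_exp (by positivity) (expL_sound hN (by omega) h14)
    have l3 : Real.log (1 / ((r.β : ℝ) / N)) ≤ (r.lb0 : ℝ) / N := by
      rw [one_div_div]
      exact log_le_of_le_exp (by positivity) (expL_sound hN h9 h15)
    have l4 : Real.log (((r.p : ℝ) / N + (1 - (r.p : ℝ) / N) * ((r.T : ℝ) / N)) / ((r.p : ℝ) / N))
        ≤ (r.lth : ℝ) / N := by
      have e : ((r.p : ℝ) / N + (1 - (r.p : ℝ) / N) * ((r.T : ℝ) / N)) / ((r.p : ℝ) / N)
          = ((r.p * N + (N - r.p) * r.T : ℕ) : ℝ) / ((r.p * N : ℕ) : ℝ) := by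
        push_cast
        rw [hcp]
        field_simp
      rw [e]
      have h16' := expL_sound hN (Nat.mul_pos h6 hN) h16
      refine log_le_of_le_exp ?_ h16'
      have : (0 : ℝ) < ((r.p * N + (N - r.p) * r.T : ℕ) : ℝ) := by
        have : 0 < r.p * N := Nat.mul_pos h6 hN
        exact_mod_cast (by omega : 0 < r.p * N + (N - r.p) * r.T)
      have : (0 : ℝ) < ((r.p * N : ℕ) : ℝ) := by exact_mod_cast Nat.mul_pos h6 hN
      positivity
    have l5 : Real.log (1 - (r.T : ℝ) / N) ≤ -((r.l1T : ℝ) / N) := by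
      have h17' := expU_sound hN h17
      have hNT : (0 : ℝ) < ((N - r.T : ℕ) : ℝ) := by rw [hcT]; linarith
      have h18' : (r.l1T : ℝ) / N ≤ Real.log ((N : ℝ) / ((N - r.T : ℕ) : ℝ)) := by
        rw [Real.le_log_iff_exp_le (by positivity)]; exact h17'
      rw [sub_cast_div hN h12]
      have e : Real.log (((N - r.T : ℕ) : ℝ) / N) = -Real.log ((N : ℝ) / ((N - r.T : ℕ) : ℝ)) := by
        rw [← Real.log_inv, inv_div]
      rw [e]; linarith
    have a1 : (r.lp : ℝ) * N * r.T + r.q * r.lb1 * r.T + r.q * r.β * ((N - r.T : ℕ) : ℝ)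
        < r.A * N * r.T := by exact_mod_cast h18
    have a2 : (r.q : ℝ) * r.lb0 * N + (r.p * N + ((N - r.p : ℕ) : ℝ) * r.T) * r.lth
        < r.W * N * N + ((N - r.p : ℕ) : ℝ) * ((N - r.T : ℕ) : ℝ) * r.l1T
          + r.q * ((N - r.β : ℕ) : ℝ) * ((N - r.T : ℕ) : ℝ) := by exact_mod_cast h19
    rw [hcT] at a1
    rw [hcp, hcT, hcβ] at a2
    refine ⟨by positivity, by rw [div_lt_one hN']; exact hpN, by positivity, by positivity,
      by rw [div_lt_one hN']; exact hβN, by positivity, by rw [div_lt_one hN']; exact hTN,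
      by positivity, ?_, ?_⟩
    · have e1 : (r.q : ℝ) / N * Real.log (1 / (1 - (r.β : ℝ) / N)) ≤ (r.q : ℝ) / N * ((r.lb1 : ℝ) / N) :=
        mul_le_mul_of_nonneg_left l2 (by positivity)
      have e2 : (r.lp : ℝ) / N + (r.q : ℝ) / N * ((r.lb1 : ℝ) / N)
          + (r.q : ℝ) / N * ((r.β : ℝ) / N) * (1 - (r.T : ℝ) / N) / ((r.T : ℝ) / N)
          = ((r.lp : ℝ) * N * r.T + r.q * r.lb1 * r.T + r.q * r.β * (N - r.T)) / (N * N * r.T) := by
        field_simp
      have e3 : (r.A : ℝ) / N = (r.A * N * r.T) / (N * N * r.T) := by field_simp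
      have e4 : ((r.lp : ℝ) * N * r.T + r.q * r.lb1 * r.T + r.q * r.β * (N - r.T)) / (N * N * r.T)
          < (r.A * N * r.T) / (N * N * r.T) := by
        apply div_lt_div_of_pos_right a1 (by positivity)
      linarith
    · have e1 : (r.q : ℝ) / N * Real.log (1 / ((r.β : ℝ) / N)) ≤ (r.q : ℝ) / N * ((r.lb0 : ℝ) / N) :=
        mul_le_mul_of_nonneg_left l3 (by positivity)
      have hθ : 0 ≤ (r.p : ℝ) / N + (1 - (r.p : ℝ) / N) * ((r.T : ℝ) / N) := by
        have : 0 ≤ 1 - (r.p : ℝ) / N := by rw [sub_nonneg, div_le_one hN']; exact hpN.le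
        positivity
      have e2 := mul_le_mul_of_nonneg_left l4 hθ
      have hpT : 0 ≤ (1 - (r.p : ℝ) / N) * (1 - (r.T : ℝ) / N) := by
        have h1 : 0 ≤ 1 - (r.p : ℝ) / N := by rw [sub_nonneg, div_le_one hN']; exact hpN.le
        have h2 : 0 ≤ 1 - (r.T : ℝ) / N := by rw [sub_nonneg, div_le_one hN']; exact hTN.le
        positivity
      have e3 := mul_le_mul_of_nonneg_left l5 hpT
      unfold KK
      have e4 : (r.q : ℝ) / N * ((r.lb0 : ℝ) / N)
          + (((r.p : ℝ) / N + (1 - (r.p : ℝ) / N) * ((r.T : ℝ) / N)) * ((r.lth : ℝ) / N)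
            + (1 - (r.p : ℝ) / N) * (1 - (r.T : ℝ) / N) * -((r.l1T : ℝ) / N))
          - (r.q : ℝ) / N * (1 - (r.β : ℝ) / N) * (1 - (r.T : ℝ) / N)
          = ((r.q : ℝ) * r.lb0 * N + (r.p * N + (N - r.p) * r.T) * r.lth
            - ((N - r.p) * (N - r.T) * r.l1T + r.q * (N - r.β) * (N - r.T))) / (N * N * N) := by
        field_simp
        ring
      have e5 : (r.W : ℝ) / N = (r.W * N * N) / (N * N * N) := by field_simp
      have e6 : ((r.q : ℝ) * r.lb0 * N + (r.p * N + (N - r.p) * r.T) * r.lth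
            - ((N - r.p) * (N - r.T) * r.l1T + r.q * (N - r.β) * (N - r.T))) / (N * N * N)
          < (r.W * N * N) / (N * N * N) := by
        apply div_lt_div_of_pos_right _ (by positivity)
        linarith
      rw [e5]
      refine lt_of_le_of_lt ?_ e6
      rw [← e4]
      linarith

/-- a row: direct (`jt = false`) or joint (`jt = true`) -/
structure Row2 where
  L : ℕ × ℕ
  ilo : ℕ
  lo : ℕ × ℕ
  ihi : ℕ
  hi : ℕ × ℕ
  top : Bool
  jt : Bool
  P : NP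
  P' : NP

def r2chk (N : ℕ) (Ls : List (ℕ × ℕ)) (r : Row2) : Bool :=
  decide (0 < r.L.1) && decide (r.L.1 ≤ r.L.2) &&
  look Ls r.ilo r.lo && (r.top || look Ls r.ihi r.hi) && npchk N Ls r.P &&
  slackChk N r.L r.lo r.hi r.top (((N : ℤ) + r.P.q) * r.L.1 - (r.P.A + 1) * N)
    (((N : ℤ) + r.P.q) * r.L.2 - (r.P.B + r.P.W) * N) &&
  (if r.jt then (npchk N Ls r.P' && decide (r.P.p + r.P'.p < N) &&
    slackChk N r.L r.lo r.hi r.top (((N : ℤ) + r.P'.q) * r.L.1 - (r.P'.B + r.P'.W + 1) * N)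
      (((N : ℤ) + r.P'.q) * r.L.2 - r.P'.A * N))
   else (decide (r.P.p + 1 < N) && expL N r.L.2 N (N - r.P.p - 1)))

theorem r2chk_sound {N : ℕ} {Ls : List (ℕ × ℕ)} (hN : 0 < N) {r : Row2}
    (hLs : ∀ L ∈ Ls, L.1 ≤ L.2) (hr : r.L ∈ Ls) (h : r2chk N Ls r = true) :
    StepOK (Ls.map (rl N)) (rl N r.L) := by
  have hN' : (0 : ℝ) < N := by exact_mod_cast hN
  unfold r2chk at h
  simp only [Bool.and_eq_true, decide_eq_true_eq] at h
  obtain ⟨⟨⟨⟨⟨⟨h1, h2⟩, h3⟩, h4⟩, h5⟩, h6⟩, h7⟩ := h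
  have mem : ∀ {L : ℕ × ℕ}, L ∈ Ls → rl N L ∈ Ls.map (rl N) := fun hL => List.mem_map_of_mem hL
  have hle : ∀ L' ∈ Ls.map (rl N), L'.1 ≤ L'.2 := by
    intro L' hL'
    obtain ⟨L, hL, rfl⟩ := List.mem_map.mp hL'
    unfold rl
    simp only
    rw [div_le_div_iff_of_pos_right hN']
    exact_mod_cast hLs L hL
  have hP := npchk_sound hN h5
  have hL1 : 0 < (rl N r.L).1 := by
    unfold rl; simp only
    have : (0 : ℝ) < r.L.1 := by exact_mod_cast h1
    positivity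
  have hL2 : 0 < (rl N r.L).2 := by
    unfold rl; simp only
    have h0 : (0 : ℝ) < r.L.1 := by exact_mod_cast h1
    have : (r.L.1 : ℝ) ≤ r.L.2 := by exact_mod_cast h2
    have : (0 : ℝ) < r.L.2 := by linarith
    positivity
  have hsl : ∀ k l : ℕ, l ≤ k → (∀ L' ∈ Ls.map (rl N), lv (rl N r.L) k l ≤ lv L' k l) →
      (r.P.A : ℝ) / N * k + ((r.P.B : ℝ) / N + (r.P.W : ℝ) / N) * l + 1 / N * k
        ≤ (1 + (r.P.q : ℝ) / N) * lv (rl N r.L) k l := by
    intro k l hlk hact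
    have hs := slackChk_sound hN h6 k l hlk (hact _ (mem (look_sound h3))) (by
      intro htop
      rw [htop] at h4
      simp only [Bool.false_or] at h4
      exact hact _ (mem (look_sound h4)))
    push_cast at hs
    unfold rl lv
    simp only
    have e3 : (1 + (r.P.q : ℝ) / N) * ((r.L.1 : ℝ) / N * k + (r.L.2 : ℝ) / N * l)
        - ((r.P.A : ℝ) / N * k + ((r.P.B : ℝ) / N + (r.P.W : ℝ) / N) * l + 1 / N * k)
        = ((((N : ℝ) + r.P.q) * r.L.1 - (r.P.A + 1) * N) * k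
          + (((N : ℝ) + r.P.q) * r.L.2 - (r.P.B + r.P.W) * N) * l) / (N * N) := by
      field_simp
      ring
    have e4 : 0 ≤ ((((N : ℝ) + r.P.q) * r.L.1 - (r.P.A + 1) * N) * k
          + (((N : ℝ) + r.P.q) * r.L.2 - (r.P.B + r.P.W) * N) * l) / (N * N) :=
      div_nonneg hs (by positivity)
    linarith
  cases hj : r.jt with
  | true =>
    rw [hj] at h7
    simp only [if_true, Bool.and_eq_true, decide_eq_true_eq] at h7
    obtain ⟨⟨h8, h9⟩, h10⟩ := h7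
    have hP' := npchk_sound hN h8
    refine step_joint (Ls.map (rl N)) hle (rl N r.L) (rl N r.P.L1) (rl N r.P.L2) hP.h1 hP.h2
      r.P.b1 r.P.b2 _ _ _ _ _ _ _ _ (rl N r.P'.L1) (rl N r.P'.L2) hP'.h1 hP'.h2
      r.P'.b1 r.P'.b2 _ _ _ _ _ _ _ _ (1 / N) hL1 hL2 hP.ht0 hP.ht1 hP.hA hP.hB hP.hn
      hP'.ht0 hP'.ht1 hP'.hA hP'.hB hP'.hn ?_ (by positivity) hsl ?_
    · rw [← add_div, div_lt_one hN']
      exact_mod_cast h9
    · intro k l hlk hact
      have hs := slackChk_sound hN h10 k l hlk (hact _ (mem (look_sound h3))) (by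
        intro htop
        rw [htop] at h4
        simp only [Bool.false_or] at h4
        exact hact _ (mem (look_sound h4)))
      push_cast at hs
      unfold rl lv
      simp only
      have e3 : (1 + (r.P'.q : ℝ) / N) * ((r.L.1 : ℝ) / N * k + (r.L.2 : ℝ) / N * l)
          - ((r.P'.A : ℝ) / N * l + ((r.P'.B : ℝ) / N + (r.P'.W : ℝ) / N) * k + 1 / N * k)
          = ((((N : ℝ) + r.P'.q) * r.L.1 - (r.P'.B + r.P'.W + 1) * N) * k
            + (((N : ℝ) + r.P'.q) * r.L.2 - r.P'.A * N) * l) / (N * N) := by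
        field_simp
        ring
      have e4 : 0 ≤ ((((N : ℝ) + r.P'.q) * r.L.1 - (r.P'.B + r.P'.W + 1) * N) * k
            + (((N : ℝ) + r.P'.q) * r.L.2 - r.P'.A * N) * l) / (N * N) :=
        div_nonneg hs (by positivity)
      linarith
  | false =>
    rw [hj] at h7
    simp only [Bool.false_eq_true, if_false, Bool.and_eq_true, decide_eq_true_eq] at h7
    obtain ⟨h8, h9⟩ := h7
    refine step_direct2 (Ls.map (rl N)) hle (rl N r.L) (rl N r.P.L1) (rl N r.P.L2) (mem hr) hP.h1 hP.h2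
      r.P.b1 r.P.b2 _ _ _ _ _ _ _ _ (1 / N) hL1 hL2 hP.ht0 hP.ht1 hP.hA hP.hB ?_ hP.hn
      (by positivity) hsl
    unfold rl; simp only
    have h12' := expL_sound hN (by omega : 0 < N - r.P.p - 1) h9
    have hc : ((N - r.P.p - 1 : ℕ) : ℝ) = N - r.P.p - 1 := by
      rw [Nat.cast_sub (by omega), Nat.cast_sub (by omega)]; simp
    have hpos : (0 : ℝ) < ((N - r.P.p - 1 : ℕ) : ℝ) := by exact_mod_cast (by omega : 0 < N - r.P.p - 1)
    have hE3 : 0 < Real.exp (-((r.L.2 : ℝ) / N)) := Real.exp_pos _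
    have hE2 : Real.exp ((r.L.2 : ℝ) / N) * Real.exp (-((r.L.2 : ℝ) / N)) = 1 := by
      rw [← Real.exp_add]; simp
    rw [div_le_iff₀ hpos] at h12'
    have h12b : N * Real.exp (-((r.L.2 : ℝ) / N)) ≤ ((N - r.P.p - 1 : ℕ) : ℝ) := by
      have := mul_le_mul_of_nonneg_right h12' hE3.le
      have e : Real.exp ((r.L.2 : ℝ) / N) * ((N - r.P.p - 1 : ℕ) : ℝ) * Real.exp (-((r.L.2 : ℝ) / N))
          = ((N - r.P.p - 1 : ℕ) : ℝ) := by
        rw [mul_right_comm, hE2, one_mul]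
      rw [e] at this
      exact this
    rw [hc] at h12b
    rw [div_lt_iff₀ hN']
    nlinarith

theorem cert_bound2 {N : ℕ} (hN : 0 < N) (es : List ERow) (ds : List Row2) (Ls : List (ℕ × ℕ))
    (hLs : Ls = es.map ERow.L ++ ds.map Row2.L) (hne : ds ≠ [])
    (hes : es.all (echk N) = true) (hds : ds.all (r2chk N Ls) = true) :
    ∃ C : ℝ, 1 ≤ C ∧ ∀ a b : ℕ, BdAt (Ls.map (rl N)) C a b := by
  have hN' : (0 : ℝ) < N := by exact_mod_cast hN
  have hle : ∀ L ∈ Ls, L.1 ≤ L.2 := by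
    intro L hL
    rw [hLs, List.mem_append] at hL
    rcases hL with hL | hL
    · obtain ⟨r, hr, rfl⟩ := List.mem_map.mp hL
      have h := List.all_eq_true.mp hes r hr
      unfold echk at h
      simp only [Bool.and_eq_true, decide_eq_true_eq] at h
      exact h.1.1.1.1
    · obtain ⟨r, hr, rfl⟩ := List.mem_map.mp hL
      have h := List.all_eq_true.mp hds r hr
      unfold r2chk at h
      simp only [Bool.and_eq_true, decide_eq_true_eq] at h
      exact h.1.1.1.1.1.2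
  apply main_induction
  · rw [hLs]
    cases ds with
    | nil => exact absurd rfl hne
    | cons r ds => simp
  · intro L hL
    obtain ⟨L', hL', rfl⟩ := List.mem_map.mp hL
    unfold rl
    simp only
    refine ⟨by positivity, ?_⟩
    rw [div_le_div_iff_of_pos_right hN']
    exact_mod_cast hle L' hL'
  · intro L hL
    obtain ⟨L', hL', rfl⟩ := List.mem_map.mp hL
    have hL2 := hL'
    rw [hLs, List.mem_append] at hL2
    rcases hL2 with h | h
    · obtain ⟨r, hr, rfl⟩ := List.mem_map.mp h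
      exact echk_sound hN (List.all_eq_true.mp hes r hr)
    · obtain ⟨r, hr, rfl⟩ := List.mem_map.mp h
      exact r2chk_sound hN hle hL' (List.all_eq_true.mp hds r hr)

end H110R2
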