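import Pool.Agent.H110R2.Basic

open Finset

namespace H110R2

variable {V : Type*} [DecidableEq V]

lemma sum_nb_comm (G : SimpleGraph V) (X Y : Finset V) :
    ∑ x ∈ X, ((nb G x Y).card : ℝ) = ∑ y ∈ Y, ((nb G y X).card : ℝ) := by
  classical
  have h1 : ∀ x ∈ X, ((nb G x Y).card : ℝ) = ∑ y ∈ Y, (if G.Adj x y then (1 : ℝ) else 0) := by
    intro x _
    have : nb G x Y = Y.filter (fun w => G.Adj x w) := by
      ext w; simp [mem_nb]
    rw [this, Finset.card_filter]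
    push_cast
    rfl
  have h2 : ∀ y ∈ Y, ((nb G y X).card : ℝ) = ∑ x ∈ X, (if G.Adj x y then (1 : ℝ) else 0) := by
    intro y _
    have : nb G y X = X.filter (fun w => G.Adj w y) := by
      ext w; simp [mem_nb, G.adj_comm]
    rw [this, Finset.card_filter]
    push_cast
    rfl
  rw [sum_congr rfl h1, sum_congr rfl h2, sum_comm]

/-- excess -/
noncomputable def fx (G : SimpleGraph V) (p : ℝ) (X Y : Finset V) : ℝ :=
  ∑ x ∈ X, (((nb G x Y).card : ℝ) - p * Y.card)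

lemma fx_eq (G : SimpleGraph V) (p : ℝ) (X Y : Finset V) :
    fx G p X Y = ∑ x ∈ X, ((nb G x Y).card : ℝ) - p * X.card * Y.card := by
  unfold fx
  rw [sum_sub_distrib, sum_const, nsmul_eq_mul]
  ring

lemma fx_comm (G : SimpleGraph V) (p : ℝ) (X Y : Finset V) : fx G p X Y = fx G p Y X := by
  rw [fx_eq, fx_eq, sum_nb_comm]; ring

lemma exists_book (H : SimpleGraph V) (U X : Finset V) (m b0 : ℕ) (μ : ℝ)
    (hU : U.card = m) (hdeg : ∀ u ∈ U, μ * X.card ≤ ((nb H u X).card : ℝ))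
    (hb0 : 1 ≤ b0) (hm : b0 ≤ m) (hμ : 0 < μ - b0 / m) (hX : 0 < X.card) :
    ∃ S ⊆ U, S.card = b0 ∧ ∃ X' ⊆ X, (∀ x ∈ X', ∀ s ∈ S, H.Adj s x) ∧
      (X.card : ℝ) * (μ - b0 / m) ^ b0 ≤ X'.card := by
  classical
  by_contra hcon
  push Not at hcon
  set c : ℝ := μ - b0 / m with hc
  have hN : (0 : ℝ) < X.card := by exact_mod_cast hX
  have hmpos : (0 : ℝ) < m := by
    have : 0 < m := by omega
    exact_mod_cast this
  -- each S
  have hS : ∀ S ∈ powersetCard b0 U,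
      ((X.filter (fun x => ∀ s ∈ S, H.Adj s x)).card : ℝ) < X.card * c ^ b0 := by
    intro S hS
    rw [mem_powersetCard] at hS
    exact hcon S hS.1 hS.2 _ (filter_subset _ _) (fun x hx => (mem_filter.mp hx).2)
  have hsum : ∑ S ∈ powersetCard b0 U, ((X.filter (fun x => ∀ s ∈ S, H.Adj s x)).card : ℝ)
      < (m.choose b0 : ℝ) * (X.card * c ^ b0) := by
    have hne : (powersetCard b0 U).Nonempty := by
      rw [powersetCard_nonempty, hU]; exact hm
    have := Finset.sum_lt_sum_of_nonempty hne hS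
    rw [sum_const, card_powersetCard, hU, nsmul_eq_mul] at this
    exact this
  -- double count
  have hdc : ∑ S ∈ powersetCard b0 U, ((X.filter (fun x => ∀ s ∈ S, H.Adj s x)).card : ℝ)
      = ∑ x ∈ X, (((nb H x U).card.choose b0 : ℕ) : ℝ) := by
    have e1 : ∀ S ∈ powersetCard b0 U, ((X.filter (fun x => ∀ s ∈ S, H.Adj s x)).card : ℝ)
        = ∑ x ∈ X, (if ∀ s ∈ S, H.Adj s x then (1 : ℝ) else 0) := by
      intro S _
      rw [Finset.card_filter]; push_cast; rfl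
    rw [sum_congr rfl e1, sum_comm]
    refine sum_congr rfl (fun x _ => ?_)
    have e2 : (powersetCard b0 U).filter (fun S => ∀ s ∈ S, H.Adj s x)
        = powersetCard b0 (nb H x U) := by
      ext S
      simp only [mem_filter, mem_powersetCard]
      constructor
      · rintro ⟨⟨h1, h2⟩, h3⟩
        exact ⟨fun s hs => mem_nb.mpr ⟨h1 hs, (h3 s hs).symm⟩, h2⟩
      · rintro ⟨h1, h2⟩
        exact ⟨⟨fun s hs => (mem_nb.mp (h1 hs)).1, h2⟩, fun s hs => (mem_nb.mp (h1 hs)).2.symm⟩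
    rw [← card_powersetCard, ← e2, Finset.card_filter]
    push_cast
    rfl
  -- lower bound
  set d : V → ℝ := fun x => max (((nb H x U).card : ℝ) - b0) 0 with hd
  have hd0 : ∀ x ∈ X, 0 ≤ d x := fun x _ => le_max_right _ _
  have hchoose : ∀ x ∈ X, (d x) ^ b0 ≤ (b0.factorial : ℝ) * (((nb H x U).card.choose b0 : ℕ) : ℝ) := by
    intro x _
    have h1 : (b0.factorial : ℝ) * (((nb H x U).card.choose b0 : ℕ) : ℝ)
        = (((nb H x U).card.descFactorial b0 : ℕ) : ℝ) := by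
      rw [Nat.descFactorial_eq_factorial_mul_choose]; push_cast; ring
    rw [h1]
    have h2 := Nat.pow_sub_le_descFactorial (nb H x U).card b0
    have h3 : ((((nb H x U).card + 1 - b0) ^ b0 : ℕ) : ℝ) ≤ (((nb H x U).card.descFactorial b0 : ℕ) : ℝ) := by
      exact_mod_cast h2
    refine le_trans ?_ h3
    push_cast
    refine pow_le_pow_left₀ (le_max_right _ _) ?_ b0
    refine max_le ?_ (Nat.cast_nonneg _)
    by_cases hle : b0 ≤ (nb H x U).card + 1
    · rw [Nat.cast_sub hle]; push_cast; linarith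
    · have : ((nb H x U).card : ℝ) + 1 < b0 := by
        have : (nb H x U).card + 1 < b0 := by omega
        exact_mod_cast this
      have h5 : (0:ℝ) ≤ (((nb H x U).card + 1 - b0 : ℕ) : ℝ) := Nat.cast_nonneg _
      linarith
  have hsumd : (X.card : ℝ) * m * c ≤ ∑ x ∈ X, d x := by
    have h1 : ∑ x ∈ X, (((nb H x U).card : ℝ) - b0) ≤ ∑ x ∈ X, d x :=
      sum_le_sum (fun x _ => le_max_left _ _)
    have h2 : ∑ x ∈ X, (((nb H x U).card : ℝ) - b0) = ∑ u ∈ U, ((nb H u X).card : ℝ) - X.card * b0 := by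
      rw [sum_sub_distrib, sum_const, nsmul_eq_mul, sum_nb_comm]
    have h3 : (m : ℝ) * (μ * X.card) ≤ ∑ u ∈ U, ((nb H u X).card : ℝ) := by
      have := Finset.sum_le_sum hdeg
      rw [sum_const, hU, nsmul_eq_mul] at this
      exact this
    have h4 : (X.card : ℝ) * m * c = m * (μ * X.card) - X.card * b0 := by
      rw [hc]; field_simp
    linarith
  have hpow : (∑ x ∈ X, d x) ^ b0 ≤ (X.card : ℝ) ^ (b0 - 1) * ∑ x ∈ X, (d x) ^ b0 := by
    obtain ⟨n, rfl⟩ : ∃ n, b0 = n + 1 := ⟨b0 - 1, by omega⟩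
    have := pow_sum_div_card_le_sum_pow hd0 n
    rw [div_le_iff₀ (by positivity)] at this
    simp only [Nat.add_sub_cancel]
    linarith
  have hfin : (b0.factorial : ℝ) * ∑ x ∈ X, (((nb H x U).card.choose b0 : ℕ) : ℝ)
      ≥ (m : ℝ) ^ b0 * (X.card * c ^ b0) := by
    have h1 : ∑ x ∈ X, (d x) ^ b0 ≤ (b0.factorial : ℝ) * ∑ x ∈ X, (((nb H x U).card.choose b0 : ℕ) : ℝ) := by
      rw [mul_sum]; exact sum_le_sum hchoose
    have h2 : ((X.card : ℝ) * m * c) ^ b0 ≤ (∑ x ∈ X, d x) ^ b0 :=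
      pow_le_pow_left₀ (by positivity) hsumd b0
    have h3 : ((X.card : ℝ) * m * c) ^ b0 = (X.card : ℝ) ^ (b0 - 1) * ((m : ℝ) ^ b0 * (X.card * c ^ b0)) := by
      have : (X.card : ℝ) ^ b0 = (X.card : ℝ) ^ (b0 - 1) * X.card := by
        rw [← pow_succ]; congr 1; omega
      rw [mul_pow, mul_pow, this]; ring
    have hp : (0 : ℝ) < (X.card : ℝ) ^ (b0 - 1) := by positivity
    have h4 : (X.card : ℝ) ^ (b0 - 1) * ((m : ℝ) ^ b0 * (X.card * c ^ b0))
        ≤ (X.card : ℝ) ^ (b0 - 1) * ∑ x ∈ X, (d x) ^ b0 := by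
      rw [← h3]; exact h2.trans hpow
    have h5 := le_of_mul_le_mul_left h4 hp
    linarith
  have hch : (b0.factorial : ℝ) * (m.choose b0 : ℝ) ≤ (m : ℝ) ^ b0 := by
    have h1 : (b0.factorial : ℝ) * (m.choose b0 : ℝ) = ((m.descFactorial b0 : ℕ) : ℝ) := by
      rw [Nat.descFactorial_eq_factorial_mul_choose]; push_cast; ring
    rw [h1]
    exact_mod_cast Nat.descFactorial_le_pow m b0
  have hfac : (0 : ℝ) < b0.factorial := by exact_mod_cast Nat.factorial_pos b0
  rw [hdc] at hsum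
  have h6 : (b0.factorial : ℝ) * ∑ x ∈ X, (((nb H x U).card.choose b0 : ℕ) : ℝ)
      < (b0.factorial : ℝ) * ((m.choose b0 : ℝ) * (X.card * c ^ b0)) :=
    mul_lt_mul_of_pos_left hsum hfac
  have h7 : (b0.factorial : ℝ) * ((m.choose b0 : ℝ) * (X.card * c ^ b0)) ≤ (m : ℝ) ^ b0 * (X.card * c ^ b0) := by
    rw [← mul_assoc]
    exact mul_le_mul_of_nonneg_right hch (by positivity)
  linarith

end H110R2
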