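import Pool.Agent.H110R2.StepDirect

namespace H110R2

/-- numerator of the degree four Taylor polynomial of `exp` at `y / D`, over `24 D^4` -/
def pol (D y : ℕ) : ℕ := 24 * D ^ 4 + 24 * y * D ^ 3 + 12 * y ^ 2 * D ^ 2 + 4 * y ^ 3 * D + y ^ 4

lemma pol_le (D y : ℕ) (hD : 0 < D) : (pol D y : ℝ) / (24 * (D : ℝ) ^ 4) ≤ Real.exp ((y : ℝ) / D) := by
  have hD' : (0 : ℝ) < D := by exact_mod_cast hD
  have h := Real.sum_le_exp_of_nonneg (x := (y : ℝ) / D) (by positivity) 5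
  refine le_trans (le_of_eq ?_) h
  simp only [Finset.sum_range_succ, Finset.sum_range_zero, pol]
  push_cast
  simp only [Nat.factorial]
  field_simp
  push_cast
  ring

/-- `N / m ≤ exp (y / N)` -/
def expChk (N y m : ℕ) : Bool :=
  decide (N * (24 * (256 * N) ^ 4) ^ 256 ≤ m * (pol (256 * N) y) ^ 256)

lemma expChk_sound {N y m : ℕ} (hN : 0 < N) (h : expChk N y m = true) :
    (N : ℝ) ≤ m * Real.exp ((y : ℝ) / N) := by
  unfold expChk at h
  have h1 := of_decide_eq_true h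
  have hN' : (0 : ℝ) < N := by exact_mod_cast hN
  have h2 : (N : ℝ) * (24 * (256 * (N : ℝ)) ^ 4) ^ 256 ≤ m * (pol (256 * N) y : ℝ) ^ 256 := by
    exact_mod_cast h1
  have h3 := pol_le (256 * N) y (by omega)
  have h4 : (0 : ℝ) < 24 * (256 * (N : ℝ)) ^ 4 := by positivity
  have h5 : ((pol (256 * N) y : ℝ)) ≤ (24 * (256 * (N : ℝ)) ^ 4) * Real.exp ((y : ℝ) / (256 * N)) := by
    push_cast at h3
    rw [div_le_iff₀ h4] at h3
    linarith
  have h6 : ((pol (256 * N) y : ℝ)) ^ 256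
      ≤ (24 * (256 * (N : ℝ)) ^ 4) ^ 256 * Real.exp ((y : ℝ) / N) := by
    have h7 := pow_le_pow_left₀ (Nat.cast_nonneg _) h5 256
    rw [mul_pow] at h7
    have h8 : Real.exp ((y : ℝ) / (256 * N)) ^ 256 = Real.exp ((y : ℝ) / N) := by
      rw [← Real.exp_nat_mul]; congr 1; field_simp; push_cast; ring
    rw [h8] at h7
    exact h7
  have h9 : (0 : ℝ) < (24 * (256 * (N : ℝ)) ^ 4) ^ 256 := by positivity
  have h10 : (N : ℝ) * (24 * (256 * (N : ℝ)) ^ 4) ^ 256
      ≤ (m * Real.exp ((y : ℝ) / N)) * (24 * (256 * (N : ℝ)) ^ 4) ^ 256 := by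
    have := mul_le_mul_of_nonneg_left h6 (Nat.cast_nonneg (α := ℝ) m)
    nlinarith
  exact le_of_mul_le_mul_right h10 h9

/-- upper bound for `log (1 / (m / N))` -/
lemma log_le_of_expChk {N y m : ℕ} (hN : 0 < N) (hm : 0 < m) (h : expChk N y m = true) :
    Real.log (1 / ((m : ℝ) / N)) ≤ (y : ℝ) / N := by
  have h1 := expChk_sound hN h
  have hm' : (0 : ℝ) < m := by exact_mod_cast hm
  have hN' : (0 : ℝ) < N := by exact_mod_cast hN
  rw [Real.log_le_iff_le_exp (by positivity), one_div_div, div_le_iff₀ hm']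
  linarith

end H110R2
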