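import Pool.Agent.H110R2.Data0
import Pool.Agent.H110R2.Finish

namespace H110R2

def d0_Ls : List (ℕ × ℕ) := d0_es.map ERow.L ++ d0_ds.map DRow.L

set_option maxRecDepth 100000 in
theorem d0_es_ok : d0_es.all (echk 10000000) = true := by decide +kernel

set_option maxRecDepth 100000 in
theorem d0_ds_ok : d0_ds.all (dchk 10000000 d0_Ls) = true := by decide +kernel

set_option maxRecDepth 100000 in
theorem d0_last : look d0_Ls 197 (5571454, 7682565) = true := by decide +kernel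

theorem d0_bound : ∃ C : ℝ, 1 ≤ C ∧ ∀ a b : ℕ, BdAt (d0_Ls.map (rl 10000000)) C a b :=
  cert_bound (by norm_num) d0_es d0_ds d0_Ls rfl (by simp [d0_ds]) d0_es_ok d0_ds_ok

lemma d0_exp : Real.exp ((5571454 : ℝ) / 10000000 + (7682565 : ℝ) / 10000000) < 3.764 := by
  have h := Real.exp_bound' (x := ((5571454 : ℝ) / 10000000 + (7682565 : ℝ) / 10000000) / 2) (by norm_num)
    (by norm_num) (n := 14) (by norm_num)
  have e : Real.exp ((5571454 : ℝ) / 10000000 + (7682565 : ℝ) / 10000000)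
      = Real.exp (((5571454 : ℝ) / 10000000 + (7682565 : ℝ) / 10000000) / 2) ^ 2 := by
    rw [← Real.exp_nat_mul]; congr 1; push_cast; ring
  rw [e]
  refine lt_of_le_of_lt (pow_le_pow_left₀ (Real.exp_pos _).le h 2) ?_
  norm_num [Finset.sum_range_succ, Nat.factorial]

theorem final0 :
    (∀ k : ℕ, IsLeast {n : ℕ | 1 ≤ n ∧ MonoProp k n} (diagRamsey k)) ∧
    (∃ K : ℕ, ∀ k : ℕ, K ≤ k → (diagRamsey k : ℝ) ≤ 3.764 ^ k) ∧
    Filter.limsup (fun k : ℕ => (diagRamsey k : ℝ) ^ ((1 : ℝ) / k)) Filter.atTop ≤ 3.764 := by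
  refine finish _ d0_bound (rl 10000000 (5571454, 7682565)) (List.mem_map_of_mem (look_sound d0_last)) ?_ _ ?_
  · unfold rl; norm_num
  · unfold rl; simp only; push_cast; exact d0_exp

end H110R2
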