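import Pool.Agent.H110R2.Data3
import Pool.Agent.H110R2.Finish

namespace H110R2

def d3_Ls : List (ℕ × ℕ) := d3_es.map ERow.L ++ d3_ds.map Row2.L

set_option maxRecDepth 100000 in
theorem d3_es_ok : d3_es.all (echk 1000000000) = true := by decide +kernel

set_option maxRecDepth 100000 in
theorem d3_ds_ok0 : d3_ds0.all (r2chk 1000000000 d3_Ls) = true := by decide +kernel

set_option maxRecDepth 100000 in
theorem d3_ds_ok1 : d3_ds1.all (r2chk 1000000000 d3_Ls) = true := by decide +kernel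

set_option maxRecDepth 100000 in
theorem d3_ds_ok2 : d3_ds2.all (r2chk 1000000000 d3_Ls) = true := by decide +kernel

set_option maxRecDepth 100000 in
theorem d3_ds_ok3 : d3_ds3.all (r2chk 1000000000 d3_Ls) = true := by decide +kernel

set_option maxRecDepth 100000 in
theorem d3_ds_ok4 : d3_ds4.all (r2chk 1000000000 d3_Ls) = true := by decide +kernel

set_option maxRecDepth 100000 in
theorem d3_ds_ok5 : d3_ds5.all (r2chk 1000000000 d3_Ls) = true := by decide +kernel

set_option maxRecDepth 100000 in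
theorem d3_ds_ok6 : d3_ds6.all (r2chk 1000000000 d3_Ls) = true := by decide +kernel

set_option maxRecDepth 100000 in
theorem d3_ds_ok7 : d3_ds7.all (r2chk 1000000000 d3_Ls) = true := by decide +kernel

set_option maxRecDepth 100000 in
theorem d3_ds_ok8 : d3_ds8.all (r2chk 1000000000 d3_Ls) = true := by decide +kernel

set_option maxRecDepth 100000 in
theorem d3_ds_ok9 : d3_ds9.all (r2chk 1000000000 d3_Ls) = true := by decide +kernel

set_option maxRecDepth 100000 in
theorem d3_ds_ok10 : d3_ds10.all (r2chk 1000000000 d3_Ls) = true := by decide +kernel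

set_option maxRecDepth 100000 in
theorem d3_ds_ok11 : d3_ds11.all (r2chk 1000000000 d3_Ls) = true := by decide +kernel

theorem d3_ds_ok : d3_ds.all (r2chk 1000000000 d3_Ls) = true := by
  unfold d3_ds
  simp only [List.all_append, Bool.and_eq_true]
  exact ⟨⟨⟨⟨⟨⟨⟨⟨⟨⟨⟨d3_ds_ok0, d3_ds_ok1⟩, d3_ds_ok2⟩, d3_ds_ok3⟩, d3_ds_ok4⟩, d3_ds_ok5⟩, d3_ds_ok6⟩, d3_ds_ok7⟩, d3_ds_ok8⟩, d3_ds_ok9⟩, d3_ds_ok10⟩, d3_ds_ok11⟩

theorem d3_ne : d3_ds ≠ [] := by
  unfold d3_ds d3_ds0
  simp

set_option maxRecDepth 100000 in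
theorem d3_last : look d3_Ls 629 (618725183, 619295420) = true := by decide +kernel

theorem d3_bound : ∃ C : ℝ, 1 ≤ C ∧ ∀ a b : ℕ, BdAt (d3_Ls.map (rl 1000000000)) C a b :=
  cert_bound2 (by norm_num) d3_es d3_ds d3_Ls rfl d3_ne d3_es_ok d3_ds_ok

lemma d3_exp : Real.exp ((618725183 : ℝ) / 1000000000 + (619295420 : ℝ) / 1000000000) < 3.449 := by
  have h := Real.exp_bound' (x := ((618725183 : ℝ) / 1000000000 + (619295420 : ℝ) / 1000000000) / 2) (by norm_num)
    (by norm_num) (n := 14) (by norm_num)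
  have e : Real.exp ((618725183 : ℝ) / 1000000000 + (619295420 : ℝ) / 1000000000)
      = Real.exp (((618725183 : ℝ) / 1000000000 + (619295420 : ℝ) / 1000000000) / 2) ^ 2 := by
    rw [← Real.exp_nat_mul]; congr 1; push_cast; ring
  rw [e]
  refine lt_of_le_of_lt (pow_le_pow_left₀ (Real.exp_pos _).le h 2) ?_
  norm_num [Finset.sum_range_succ, Nat.factorial]

theorem final_d3 :
    (∀ k : ℕ, IsLeast {n : ℕ | 1 ≤ n ∧ MonoProp k n} (diagRamsey k)) ∧
    (∃ K : ℕ, ∀ k : ℕ, K ≤ k → (diagRamsey k : ℝ) ≤ 3.449 ^ k) ∧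
    Filter.limsup (fun k : ℕ => (diagRamsey k : ℝ) ^ ((1 : ℝ) / k)) Filter.atTop ≤ 3.449 := by
  refine finish _ d3_bound (rl 1000000000 (618725183, 619295420)) (List.mem_map_of_mem (look_sound d3_last)) ?_ _ ?_
  · unfold rl; norm_num
  · unfold rl; simp only; push_cast; exact d3_exp

end H110R2
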