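import Pool.Agent.H110R2.BookThm

open Finset

namespace H110R2

/-- value of a line at `(k,l)` -/
def lv (L : ℝ × ℝ) (k l : ℝ) : ℝ := L.1 * k + L.2 * l

lemma lv_swap (L : ℝ × ℝ) (k l : ℝ) : lv L.swap k l = lv L l k := by
  unfold lv; simp [Prod.swap]; ring

/-- bound for all sets, both orientations of all lines, for pairs `(a,b)` in a region -/
def BdAt (Ls : List (ℝ × ℝ)) (C : ℝ) (a b : ℕ) : Prop :=
  ∀ (V : Type) [DecidableEq V] (G : SimpleGraph V) (Z : Finset V),
    NoCl G a Z → NoCl Gᶜ b Z → ∀ L ∈ Ls,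
      (Z.card : ℝ) ≤ C * Real.exp (lv L a b) ∧ (Z.card : ℝ) ≤ C * Real.exp (lv L b a)

/-- One induction step for a line `L`. -/
def StepOK (Ls : List (ℝ × ℝ)) (L : ℝ × ℝ) : Prop :=
  ∃ k0 : ℕ, ∀ C : ℝ, 1 ≤ C → ∀ k l : ℕ, k0 ≤ k → l ≤ k →
    (∀ L' ∈ Ls, lv L k l ≤ lv L' k l) →
    (∀ a b : ℕ, a + b < k + l → BdAt Ls C a b) →
    ∀ (V : Type) [DecidableEq V] (G : SimpleGraph V) (S : Finset V),
      NoCl G k S → NoCl Gᶜ l S → (S.card : ℝ) ≤ C * Real.exp (lv L k l)

lemma compl_compl' {V : Type} (G : SimpleGraph V) : Gᶜᶜ = G := compl_compl G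

lemma es_four {V : Type} [DecidableEq V] (G : SimpleGraph V) (a b : ℕ) (S : Finset V)
    (h1 : NoCl G a S) (h2 : NoCl Gᶜ b S) : (S.card : ℝ) ≤ 2 ^ (a + b) := by
  have h := es_bound G (x := 1 / 2) (y := 1 / 2) (by norm_num) (by norm_num) (by norm_num)
    S.card S le_rfl a b h1 h2
  have e : ((S.card : ℝ) + 1) * (1 / 2) ^ a * (1 / 2) ^ b = ((S.card : ℝ) + 1) * (1 / 2) ^ (a + b) := by
    rw [pow_add]; ring
  rw [e] at h
  have h3 : ((1 : ℝ) / 2) ^ (a + b) * 2 ^ (a + b) = 1 := by
    rw [← mul_pow]; norm_num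
  have h4 : (0 : ℝ) < 2 ^ (a + b) := by positivity
  have h5 : ((S.card : ℝ) + 1) * ((1 / 2) ^ (a + b) * 2 ^ (a + b)) ≤ 1 * 2 ^ (a + b) := by
    rw [← mul_assoc]; exact mul_le_mul_of_nonneg_right h h4.le
  rw [h3] at h5
  linarith

theorem main_induction (Ls : List (ℝ × ℝ)) (hne : Ls ≠ [])
    (hpos : ∀ L ∈ Ls, 0 ≤ L.1 ∧ L.1 ≤ L.2) (hstep : ∀ L ∈ Ls, StepOK Ls L) :
    ∃ C : ℝ, 1 ≤ C ∧ ∀ a b : ℕ, BdAt Ls C a b := by
  -- common threshold
  have hk0 : ∃ K : ℕ, ∀ L ∈ Ls, ∀ C : ℝ, 1 ≤ C → ∀ k l : ℕ, K ≤ k → l ≤ k →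
    (∀ L' ∈ Ls, lv L k l ≤ lv L' k l) →
    (∀ a b : ℕ, a + b < k + l → BdAt Ls C a b) →
    ∀ (V : Type) [DecidableEq V] (G : SimpleGraph V) (S : Finset V),
      NoCl G k S → NoCl Gᶜ l S → (S.card : ℝ) ≤ C * Real.exp (lv L k l) := by
    clear hne hpos
    have gen : ∀ (M : List (ℝ × ℝ)), (∀ L ∈ M, StepOK Ls L) →
      ∃ K : ℕ, ∀ L ∈ M, ∀ C : ℝ, 1 ≤ C → ∀ k l : ℕ, K ≤ k → l ≤ k →
      (∀ L' ∈ Ls, lv L k l ≤ lv L' k l) →
      (∀ a b : ℕ, a + b < k + l → BdAt Ls C a b) →
      ∀ (V : Type) [DecidableEq V] (G : SimpleGraph V) (S : Finset V),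
        NoCl G k S → NoCl Gᶜ l S → (S.card : ℝ) ≤ C * Real.exp (lv L k l) := by
      intro M
      induction M with
      | nil => intro _; exact ⟨0, fun L hL => absurd hL (List.not_mem_nil)⟩
      | cons L0 M ih =>
        intro hM
        obtain ⟨K1, hK1⟩ := ih (fun L hL => hM L (List.mem_cons_of_mem _ hL))
        obtain ⟨K2, hK2⟩ := hM L0 List.mem_cons_self
        refine ⟨max K1 K2, fun L hL => ?_⟩
        rcases List.mem_cons.mp hL with rfl | hL'
        · intro C hC k l hk
          exact hK2 C hC k l (le_trans (le_max_right _ _) hk)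
        · intro C hC k l hk
          exact hK1 L hL' C hC k l (le_trans (le_max_left _ _) hk)
    exact gen Ls hstep
  obtain ⟨K, hK⟩ := hk0
  refine ⟨4 ^ K, one_le_pow₀ (by norm_num), ?_⟩
  set C : ℝ := 4 ^ K with hC
  have hC1 : (1 : ℝ) ≤ C := one_le_pow₀ (by norm_num)
  have main : ∀ n : ℕ, ∀ a b : ℕ, a + b = n → BdAt Ls C a b := by
    intro n
    induction n using Nat.strong_induction_on with
    | _ n IH =>
      -- first the case b ≤ a
      have half : ∀ k l : ℕ, k + l = n → l ≤ k → BdAt Ls C k l := by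
        intro k l hkl hlk V _ G Z hZk hZl
        -- minimiser
        obtain ⟨L0, hL0, hmin⟩ : ∃ L0 ∈ Ls, ∀ L' ∈ Ls, lv L0 k l ≤ lv L' k l := by
          have : ∀ M : List (ℝ × ℝ), M ≠ [] → ∃ L0 ∈ M, ∀ L' ∈ M, lv L0 k l ≤ lv L' k l := by
            intro M
            induction M with
            | nil => intro h; exact absurd rfl h
            | cons L1 M ih =>
              intro _
              by_cases hM : M = []
              · subst hM
                exact ⟨L1, List.mem_cons_self, fun L' hL' => by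
                  rw [List.mem_singleton] at hL'; rw [hL']⟩
              · obtain ⟨L2, hL2, hmin2⟩ := ih hM
                by_cases hc : lv L1 k l ≤ lv L2 k l
                · refine ⟨L1, List.mem_cons_self, fun L' hL' => ?_⟩
                  rcases List.mem_cons.mp hL' with rfl | hL''
                  · exact le_rfl
                  · exact hc.trans (hmin2 L' hL'')
                · refine ⟨L2, List.mem_cons_of_mem _ hL2, fun L' hL' => ?_⟩
                  rcases List.mem_cons.mp hL' with rfl | hL''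
                  · exact (not_le.mp hc).le
                  · exact hmin2 L' hL''
          exact this Ls hne
        have hmainb : (Z.card : ℝ) ≤ C * Real.exp (lv L0 k l) := by
          by_cases hkK : K ≤ k
          · exact hK L0 hL0 C hC1 k l hkK hlk hmin
              (fun a b hab => IH (a + b) (by omega) a b rfl) V G Z hZk hZl
          · have h1 := es_four G k l Z hZk hZl
            have h2 : (2 : ℝ) ^ (k + l) ≤ C := by
              rw [hC]
              have : (4 : ℝ) ^ K = 2 ^ (2 * K) := by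
                rw [pow_mul]; norm_num
              rw [this]
              exact pow_le_pow_right₀ (by norm_num) (by omega)
            have h3 : (1 : ℝ) ≤ Real.exp (lv L0 k l) := by
              apply Real.one_le_exp
              have := hpos L0 hL0
              unfold lv
              have : 0 ≤ L0.2 := this.1.trans this.2
              have h0 := (hpos L0 hL0).1
              positivity
            nlinarith
        intro L hL
        have e1 : C * Real.exp (lv L0 k l) ≤ C * Real.exp (lv L k l) :=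
          mul_le_mul_of_nonneg_left (Real.exp_le_exp.mpr (hmin L hL)) (by linarith)
        have e2 : C * Real.exp (lv L k l) ≤ C * Real.exp (lv L l k) := by
          apply mul_le_mul_of_nonneg_left _ (by linarith)
          apply Real.exp_le_exp.mpr
          unfold lv
          have := (hpos L hL).2
          have hlk' : (l : ℝ) ≤ k := by exact_mod_cast hlk
          nlinarith
        exact ⟨hmainb.trans e1, (hmainb.trans e1).trans e2⟩
      intro a b hab
      by_cases hba : b ≤ a
      · exact half a b hab hba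
      · intro V _ G Z hZa hZb L hL
        have h := half b a (by omega) (by omega) V Gᶜ Z hZb (by rw [compl_compl']; exact hZa) L hL
        exact ⟨h.2, h.1⟩
  intro a b
  exact main (a + b) a b rfl

/-- eventual domination of logs -/
lemma eventually_lin (σ c D : ℝ) (hσ : 0 < σ) :
    ∃ k0 : ℕ, ∀ k : ℕ, k0 ≤ k → c + D * Real.log (k + 1) < σ * k := by
  have h1 : Filter.Tendsto (fun x : ℝ => Real.log x / x) Filter.atTop (nhds 0) := by
    have := Real.isLittleO_log_id_atTop.tendsto_div_nhds_zero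
    simpa using this
  have h2 : Filter.Tendsto (fun k : ℕ => ((k : ℝ) + 1)) Filter.atTop Filter.atTop :=
    Filter.tendsto_atTop_add_const_right _ _ tendsto_natCast_atTop_atTop
  have h3 := h1.comp h2
  have h4 : ∀ᶠ k : ℕ in Filter.atTop, |D| * |Real.log ((k : ℝ) + 1) / ((k : ℝ) + 1)| < σ / 4 := by
    have : Filter.Tendsto (fun k : ℕ => |D| * |Real.log ((k : ℝ) + 1) / ((k : ℝ) + 1)|)
        Filter.atTop (nhds (|D| * |(0 : ℝ)|)) := (h3.abs).const_mul _
    rw [abs_zero, mul_zero] at this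
    exact this.eventually (gt_mem_nhds (by positivity))
  have h5 : ∀ᶠ k : ℕ in Filter.atTop, |c| < σ / 4 * k := by
    have : Filter.Tendsto (fun k : ℕ => σ / 4 * (k : ℝ)) Filter.atTop Filter.atTop :=
      tendsto_natCast_atTop_atTop.const_mul_atTop (by positivity)
    exact this.eventually (Filter.eventually_gt_atTop _)
  obtain ⟨k0, hk0⟩ := Filter.eventually_atTop.mp ((h4.and h5).and (Filter.eventually_ge_atTop 1))
  refine ⟨k0, fun k hk => ?_⟩
  obtain ⟨⟨ha, hb⟩, hk1⟩ := hk0 k hk
  have hkp : (0 : ℝ) < (k : ℝ) + 1 := by positivity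
  have hk1' : (1 : ℝ) ≤ k := by exact_mod_cast hk1
  have h6 : D * Real.log (k + 1) ≤ |D| * |Real.log ((k : ℝ) + 1) / ((k : ℝ) + 1)| * (k + 1) := by
    have : D * Real.log (k + 1) = D * (Real.log ((k : ℝ) + 1) / ((k : ℝ) + 1)) * (k + 1) := by
      field_simp
    rw [this]
    apply mul_le_mul_of_nonneg_right _ hkp.le
    rw [← abs_mul]
    exact le_abs_self _
  have h7 : |D| * |Real.log ((k : ℝ) + 1) / ((k : ℝ) + 1)| * (k + 1) ≤ σ / 4 * (k + 1) :=
    mul_le_mul_of_nonneg_right ha.le hkp.le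
  have h8 := le_abs_self c
  nlinarith

end H110R2
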