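import Pool.Agent.H110R2.Basic

open Finset

namespace H110R2

variable {V : Type} [DecidableEq V]

open Classical in
/-- centred adjacency -/
noncomputable def ee (G : SimpleGraph V) (p : ℝ) (x y : V) : ℝ := (if G.Adj x y then 1 else 0) - p

omit [DecidableEq V] in
lemma ee_comm (G : SimpleGraph V) (p : ℝ) (x y : V) : ee G p x y = ee G p y x := by
  unfold ee
  by_cases h : G.Adj x y
  · have h' := h.symm
    simp [h, h']
  · have h' : ¬ G.Adj y x := fun h2 => h h2.symm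
    simp [h, h']

/-- the bilinear-type functional -/
noncomputable def BB (G : SimpleGraph V) (p γ δ : ℝ) (X Y : Finset V) (ρ σ : V → ℝ) : ℝ :=
  ∑ x ∈ X, ∑ y ∈ Y, ρ x ^ γ * σ y ^ δ * ee G p x y

omit [DecidableEq V] in
lemma BB_comm (G : SimpleGraph V) (p γ δ : ℝ) (X Y : Finset V) (ρ σ : V → ℝ) :
    BB G p γ δ X Y ρ σ = BB G p δ γ Y X σ ρ := by
  unfold BB
  rw [Finset.sum_comm]
  refine Finset.sum_congr rfl fun y _ => Finset.sum_congr rfl fun x _ => ?_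
  rw [ee_comm]; ring

omit [DecidableEq V] in
lemma BB_scale (G : SimpleGraph V) (p γ δ : ℝ) (X Y : Finset V) (ρ σ : V → ℝ)
    (hρ : ∀ x ∈ X, 0 ≤ ρ x) (hσ : ∀ y ∈ Y, 0 ≤ σ y) {a b : ℝ} (ha : 0 ≤ a) (hb : 0 ≤ b) :
    BB G p γ δ X Y (fun x => a * ρ x) (fun y => b * σ y) = a ^ γ * b ^ δ * BB G p γ δ X Y ρ σ := by
  unfold BB
  rw [Finset.mul_sum]
  refine Finset.sum_congr rfl fun x hx => ?_
  rw [Finset.mul_sum]
  refine Finset.sum_congr rfl fun y hy => ?_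
  rw [Real.mul_rpow ha (hρ x hx), Real.mul_rpow hb (hσ y hy)]
  ring

/-- compact simplex -/
def simp (X : Finset V) : Set (V → ℝ) :=
  (Set.univ.pi fun x => Set.Icc (0 : ℝ) (if x ∈ X then 1 else 0)) ∩ {f | ∑ x ∈ X, f x = 1}

lemma simp_compact (X : Finset V) : IsCompact (simp X) := by
  unfold simp
  apply (isCompact_univ_pi fun x => isCompact_Icc).inter_right
  have : Continuous fun f : V → ℝ => ∑ x ∈ X, f x := by fun_prop
  exact isClosed_eq this continuous_const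

lemma simp_nonempty {X : Finset V} (hX : X.Nonempty) : (simp X).Nonempty := by
  obtain ⟨x0, hx0⟩ := hX
  refine ⟨fun x => if x = x0 then 1 else 0, ?_, ?_⟩
  · intro x _
    by_cases h : x = x0
    · subst h; simp [hx0]
    · simp only [h, if_false, Set.mem_Icc, le_refl, true_and]
      split <;> norm_num
  · simp [hx0]

lemma simp_nonneg {X : Finset V} {f : V → ℝ} (hf : f ∈ simp X) (x : V) : 0 ≤ f x :=
  (hf.1 x (Set.mem_univ x)).1

lemma simp_sum {X : Finset V} {f : V → ℝ} (hf : f ∈ simp X) : ∑ x ∈ X, f x = 1 := hf.2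

/-- normalising a nonnegative function -/
lemma simp_normalise {X : Finset V} {f : V → ℝ} (hf : ∀ x ∈ X, 0 ≤ f x) (hs : 0 < ∑ x ∈ X, f x) :
    (fun x => if x ∈ X then (∑ x ∈ X, f x)⁻¹ * f x else 0) ∈ simp X := by
  constructor
  · intro x _
    by_cases h : x ∈ X
    · simp only [h, if_true, Set.mem_Icc]
      refine ⟨mul_nonneg (inv_nonneg.mpr hs.le) (hf x h), ?_⟩
      have : f x ≤ ∑ x ∈ X, f x := Finset.single_le_sum hf h
      rw [inv_mul_le_iff₀ hs]; linarith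
    · simp [h]
  · show ∑ x ∈ X, (if x ∈ X then (∑ x ∈ X, f x)⁻¹ * f x else 0) = 1
    have : ∑ x ∈ X, (if x ∈ X then (∑ x ∈ X, f x)⁻¹ * f x else 0) = ∑ x ∈ X, (∑ x ∈ X, f x)⁻¹ * f x :=
      Finset.sum_congr rfl fun x hx => by simp [hx]
    rw [this, ← Finset.mul_sum, inv_mul_cancel₀ hs.ne']

lemma BB_congr (G : SimpleGraph V) (p γ δ : ℝ) (X Y : Finset V) {ρ ρ' σ σ' : V → ℝ}
    (h1 : ∀ x ∈ X, ρ x = ρ' x) (h2 : ∀ y ∈ Y, σ y = σ' y) :
    BB G p γ δ X Y ρ σ = BB G p γ δ X Y ρ' σ' := by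
  unfold BB
  refine Finset.sum_congr rfl fun x hx => Finset.sum_congr rfl fun y hy => ?_
  rw [h1 x hx, h2 y hy]

lemma BB_zero_left (G : SimpleGraph V) (p γ δ : ℝ) (hγ : γ ≠ 0) (X Y : Finset V) {ρ σ : V → ℝ}
    (h1 : ∀ x ∈ X, ρ x = 0) : BB G p γ δ X Y ρ σ = 0 := by
  unfold BB
  refine Finset.sum_eq_zero fun x hx => Finset.sum_eq_zero fun y hy => ?_
  rw [h1 x hx, Real.zero_rpow hγ]; ring

lemma exists_max (G : SimpleGraph V) (p γ δ : ℝ) (hγ : 0 < γ) (hδ : 0 < δ) {X Y : Finset V}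
    (hX : X.Nonempty) (hY : Y.Nonempty) :
    ∃ ρ σ : V → ℝ, (∀ x, 0 ≤ ρ x) ∧ (∀ y, 0 ≤ σ y) ∧ ∑ x ∈ X, ρ x = 1 ∧ ∑ y ∈ Y, σ y = 1 ∧
      ∀ ρ' σ' : V → ℝ, (∀ x ∈ X, 0 ≤ ρ' x) → (∀ y ∈ Y, 0 ≤ σ' y) →
        BB G p γ δ X Y ρ' σ' ≤ BB G p γ δ X Y ρ σ * (∑ x ∈ X, ρ' x) ^ γ * (∑ y ∈ Y, σ' y) ^ δ := by
  have hK : IsCompact (simp X ×ˢ simp Y) := (simp_compact X).prod (simp_compact Y)
  have hne : (simp X ×ˢ simp Y).Nonempty := (simp_nonempty hX).prod (simp_nonempty hY)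
  have hcont : Continuous fun z : (V → ℝ) × (V → ℝ) => BB G p γ δ X Y z.1 z.2 := by
    unfold BB
    refine continuous_finsetSum _ fun x _ => continuous_finsetSum _ fun y _ => ?_
    have h1 : Continuous fun z : (V → ℝ) × (V → ℝ) => z.1 x ^ γ :=
      (Real.continuous_rpow_const hγ.le).comp ((continuous_apply x).comp continuous_fst)
    have h2 : Continuous fun z : (V → ℝ) × (V → ℝ) => z.2 y ^ δ :=
      (Real.continuous_rpow_const hδ.le).comp ((continuous_apply y).comp continuous_snd)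
    exact (h1.mul h2).mul continuous_const
  obtain ⟨z, hz, hmax⟩ := hK.exists_isMaxOn hne hcont.continuousOn
  refine ⟨z.1, z.2, simp_nonneg hz.1, simp_nonneg hz.2, simp_sum hz.1, simp_sum hz.2, ?_⟩
  intro ρ' σ' hρ' hσ'
  rcases (Finset.sum_nonneg hρ').lt_or_eq with hs | hs
  · rcases (Finset.sum_nonneg hσ').lt_or_eq with ht | ht
    · set s := ∑ x ∈ X, ρ' x with hsdef
      set t := ∑ y ∈ Y, σ' y with htdef
      have hm := hmax (Set.mk_mem_prod (simp_normalise hρ' hs) (simp_normalise hσ' ht))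
      simp only [Set.mem_ofPred_eq] at hm
      rw [BB_congr G p γ δ X Y (ρ' := fun x => s⁻¹ * ρ' x) (σ' := fun y => t⁻¹ * σ' y)
        (fun x hx => by simp [hx, hsdef]) (fun y hy => by simp [hy, htdef]),
        BB_scale G p γ δ X Y ρ' σ' hρ' hσ' (inv_nonneg.mpr hs.le) (inv_nonneg.mpr ht.le),
        Real.inv_rpow hs.le, Real.inv_rpow ht.le] at hm
      have h1 : 0 < s ^ γ := Real.rpow_pos_of_pos hs _
      have h2 : 0 < t ^ δ := Real.rpow_pos_of_pos ht _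
      have h3 : (s ^ γ)⁻¹ * (t ^ δ)⁻¹ * BB G p γ δ X Y ρ' σ' = BB G p γ δ X Y ρ' σ' / (s ^ γ * t ^ δ) := by
        field_simp
      rw [h3, div_le_iff₀ (by positivity)] at hm
      linarith
    · have hz0 : ∀ y ∈ Y, σ' y = 0 := fun y hy =>
        (Finset.sum_eq_zero_iff_of_nonneg hσ').mp ht.symm y hy
      rw [BB_comm, BB_zero_left G p δ γ hδ.ne' Y X hz0, ← ht, Real.zero_rpow hδ.ne', mul_zero]
  · have hz0 : ∀ x ∈ X, ρ' x = 0 := fun x hx =>
      (Finset.sum_eq_zero_iff_of_nonneg hρ').mp hs.symm x hx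
    rw [BB_zero_left G p γ δ hγ.ne' X Y hz0, ← hs, Real.zero_rpow hγ.ne', mul_zero, zero_mul]

/-- first-order condition -/
lemma kkt_aux {N b s δ : ℝ} (hδ : 0 < δ)
    (h : ∀ t : ℝ, -1 < t → t < 1 → N + ((1 + t) ^ δ - 1) * b ≤ N * (1 + t * s) ^ δ) : b = N * s := by
  have hf : HasDerivAt (fun t : ℝ => N * (1 + t * s) ^ δ - (N + ((1 + t) ^ δ - 1) * b))
      (N * (s * δ * (1 + 0 * s) ^ (δ - 1)) - (1 * δ * (1 + 0) ^ (δ - 1)) * b) 0 := by
    have h1 : HasDerivAt (fun t : ℝ => 1 + t * s) s 0 := by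
      simpa using ((hasDerivAt_id (0 : ℝ)).mul_const s).const_add 1
    have h2 : HasDerivAt (fun t : ℝ => 1 + t) 1 0 := by
      simpa using (hasDerivAt_id (0 : ℝ)).const_add 1
    have h3 := (h1.rpow_const (p := δ) (Or.inl (by norm_num))).const_mul N
    have h4 := (((h2.rpow_const (p := δ) (Or.inl (by norm_num))).sub_const 1).mul_const b).const_add N
    exact h3.sub h4
  have hmin : IsLocalMin (fun t : ℝ => N * (1 + t * s) ^ δ - (N + ((1 + t) ^ δ - 1) * b)) 0 := by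
    have hU : Set.Ioo (-1 : ℝ) 1 ∈ nhds (0 : ℝ) := Ioo_mem_nhds (by norm_num) (by norm_num)
    filter_upwards [hU] with t ht
    have := h t ht.1 ht.2
    simp only [zero_mul, add_zero, Real.one_rpow, sub_self, mul_one]
    linarith
  have h0 := hmin.hasDerivAt_eq_zero hf
  simp only [zero_mul, add_zero, Real.one_rpow, mul_one, one_mul] at h0
  have : δ * (N * s - b) = 0 := by linarith
  rcases mul_eq_zero.mp this with h1 | h1
  · exact absurd h1 hδ.ne'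
  · linarith

/-- column condition at a maximiser -/
lemma kkt_col (G : SimpleGraph V) (p γ δ : ℝ) (hδ : 0 < δ) {X Y : Finset V} {ρ σ : V → ℝ}
    (hρ : ∀ x, 0 ≤ ρ x) (hσ : ∀ y, 0 ≤ σ y) (h1 : ∑ x ∈ X, ρ x = 1) (h2 : ∑ y ∈ Y, σ y = 1)
    (hmax : ∀ ρ' σ' : V → ℝ, (∀ x ∈ X, 0 ≤ ρ' x) → (∀ y ∈ Y, 0 ≤ σ' y) →
        BB G p γ δ X Y ρ' σ' ≤ BB G p γ δ X Y ρ σ * (∑ x ∈ X, ρ' x) ^ γ * (∑ y ∈ Y, σ' y) ^ δ)
    {y0 : V} (hy0 : y0 ∈ Y) :
    ∑ x ∈ X, ρ x ^ γ * σ y0 ^ δ * ee G p x y0 = BB G p γ δ X Y ρ σ * σ y0 := by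
  apply kkt_aux hδ
  intro t ht1 ht2
  have hm := hmax ρ (Function.update σ y0 ((1 + t) * σ y0)) (fun x _ => hρ x) (by
    intro y _
    by_cases h : y = y0
    · subst h; rw [Function.update_self]; exact mul_nonneg (by linarith) (hσ y)
    · rw [Function.update_of_ne h]; exact hσ y)
  have hs : ∑ y ∈ Y, Function.update σ y0 ((1 + t) * σ y0) y = 1 + t * σ y0 := by
    rw [Finset.sum_update_of_mem hy0]
    have : ∑ y ∈ Y, σ y = σ y0 + ∑ y ∈ Y \ {y0}, σ y := by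
      rw [Finset.sdiff_singleton_eq_erase, Finset.add_sum_erase Y σ hy0]
    rw [h2] at this
    linarith
  rw [h1, hs, Real.one_rpow, mul_one] at hm
  refine le_trans (le_of_eq ?_) hm
  unfold BB
  have hx : ∀ x ∈ X, ∑ y ∈ Y, ρ x ^ γ * Function.update σ y0 ((1 + t) * σ y0) y ^ δ * ee G p x y
      = ∑ y ∈ Y, ρ x ^ γ * σ y ^ δ * ee G p x y
        + ((1 + t) ^ δ - 1) * (ρ x ^ γ * σ y0 ^ δ * ee G p x y0) := by
    intro x _
    rw [← Finset.add_sum_erase Y _ hy0, ← Finset.add_sum_erase Y (fun y => ρ x ^ γ * σ y ^ δ * ee G p x y) hy0]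
    have : ∑ y ∈ Y.erase y0, ρ x ^ γ * Function.update σ y0 ((1 + t) * σ y0) y ^ δ * ee G p x y
        = ∑ y ∈ Y.erase y0, ρ x ^ γ * σ y ^ δ * ee G p x y :=
      Finset.sum_congr rfl fun y hy => by rw [Function.update_of_ne (Finset.ne_of_mem_erase hy)]
    rw [this, Function.update_self, Real.mul_rpow (by linarith) (hσ y0)]
    ring
  rw [Finset.sum_congr rfl hx, Finset.sum_add_distrib, ← Finset.mul_sum]

end H110R2
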