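import Mathlib

namespace H110R2

/-- scalar contradiction -/
lemma nb_scalar {p T κ τ ε1 PA PW D θ Dθ β0 ρR ρB uR uB uv : ℝ} (hp : 0 < p) (hpθ : p ≤ θ)
    (hT0 : 0 < T) (hκ0 : 0 < κ) (hκ1 : κ < 1) (hτ0 : 0 < τ) (hτ1 : τ < 1)
    (hβ0 : 0 < β0) (hβ1 : β0 < 1) (hε : 0 ≤ ε1) (hPA : 0 < PA) (hPW : 0 < PW)
    (hDθ : 0 ≤ Dθ) (hD : Dθ ≤ D)
    (hρR : 0 ≤ ρR) (hρB : 0 ≤ ρB) (hρ : ρR + ρB ≤ 1) (hu : uR + uB + uv = θ) (huv : uv ≤ ε1)
    (hR : uR ≤ PA * ρR ^ (1 - κ) * θ ^ (1 - τ))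
    (hB : (1 - T) * ρB + T / θ * uB ≤ PW * ρB ^ (1 - κ) * Dθ ^ (1 - τ))
    (E1 : 0 < T * (1 - ε1 / p) - T * (PA * p ^ (-τ) * (1 - β0) ^ (-κ)) * (1 - κ * β0)
      - (PW * D ^ (1 - τ) * β0 ^ (-κ)) * (κ * β0))
    (E2 : 0 < 1 - T * (ε1 / p) - T * (PA * p ^ (-τ) * (1 - β0) ^ (-κ)) * (κ * (1 - β0))
      - (PW * D ^ (1 - τ) * β0 ^ (-κ)) * (1 - κ * (1 - β0))) : False := by
  have hθ0 : 0 < θ := lt_of_lt_of_le hp hpθ
  have h1β : 0 < 1 - β0 := by linarith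
  set P1 := PA * p ^ (-τ) * (1 - β0) ^ (-κ) with hP1
  set P2 := PW * D ^ (1 - τ) * β0 ^ (-κ) with hP2
  have hP1pos : 0 < P1 := by
    rw [hP1]
    have h1 := Real.rpow_pos_of_pos hp (-τ)
    have h2 := Real.rpow_pos_of_pos h1β (-κ)
    positivity
  have hD0 : 0 ≤ D := hDθ.trans hD
  have hP2nn : 0 ≤ P2 := by
    rw [hP2]
    have h1 := Real.rpow_nonneg hD0 (1 - τ)
    have h2 := Real.rpow_pos_of_pos hβ0 (-κ)
    positivity
  -- AM-GM for the red part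
  have aR : ρR ^ (1 - κ) ≤ (1 - β0) ^ (-κ) * ((1 - ρB) + κ * (ρB - β0)) := by
    have h := Real.geom_mean_le_arith_mean2_weighted (w₁ := 1 - κ) (w₂ := κ) (p₁ := ρR)
      (p₂ := 1 - β0) (by linarith) hκ0.le hρR h1β.le (by ring)
    have h2 : (1 - β0) ^ κ * (1 - β0) ^ (-κ) = 1 := by
      rw [← Real.rpow_add h1β]; simp
    have h3 : 0 < (1 - β0) ^ (-κ) := Real.rpow_pos_of_pos h1β _
    have h4 : (1 - κ) * ρR + κ * (1 - β0) ≤ (1 - ρB) + κ * (ρB - β0) := by nlinarith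
    calc ρR ^ (1 - κ) = ρR ^ (1 - κ) * ((1 - β0) ^ κ * (1 - β0) ^ (-κ)) := by rw [h2, mul_one]
      _ = (1 - β0) ^ (-κ) * (ρR ^ (1 - κ) * (1 - β0) ^ κ) := by ring
      _ ≤ (1 - β0) ^ (-κ) * ((1 - ρB) + κ * (ρB - β0)) :=
          mul_le_mul_of_nonneg_left (h.trans h4) h3.le
  have aB : ρB ^ (1 - κ) ≤ β0 ^ (-κ) * (ρB + κ * (β0 - ρB)) := by
    have h := Real.geom_mean_le_arith_mean2_weighted (w₁ := 1 - κ) (w₂ := κ) (p₁ := ρB)
      (p₂ := β0) (by linarith) hκ0.le hρB hβ0.le (by ring)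
    have h2 : β0 ^ κ * β0 ^ (-κ) = 1 := by
      rw [← Real.rpow_add hβ0]; simp
    have h3 : 0 < β0 ^ (-κ) := Real.rpow_pos_of_pos hβ0 _
    have h4 : (1 - κ) * ρB + κ * β0 ≤ ρB + κ * (β0 - ρB) := by nlinarith
    calc ρB ^ (1 - κ) = ρB ^ (1 - κ) * (β0 ^ κ * β0 ^ (-κ)) := by rw [h2, mul_one]
      _ = β0 ^ (-κ) * (ρB ^ (1 - κ) * β0 ^ κ) := by ring
      _ ≤ β0 ^ (-κ) * (ρB + κ * (β0 - ρB)) := mul_le_mul_of_nonneg_left (h.trans h4) h3.le
  -- red bound divided by θ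
  have hθτ : θ ^ (1 - τ) / θ ≤ p ^ (-τ) := by
    rw [Real.rpow_sub hθ0, Real.rpow_one, div_div_cancel_left' hθ0.ne', ← Real.rpow_neg hθ0.le]
    exact Real.rpow_le_rpow_of_nonpos hp hpθ (by linarith)
  have hρRp : 0 ≤ ρR ^ (1 - κ) := Real.rpow_nonneg hρR _
  have hpτ : 0 < p ^ (-τ) := Real.rpow_pos_of_pos hp _
  have r1 : uR / θ ≤ P1 * ((1 - ρB) + κ * (ρB - β0)) := by
    have h1 : uR / θ ≤ PA * ρR ^ (1 - κ) * (θ ^ (1 - τ) / θ) := by
      rw [← mul_div_assoc]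
      exact div_le_div_of_nonneg_right hR hθ0.le
    calc uR / θ ≤ PA * ρR ^ (1 - κ) * (θ ^ (1 - τ) / θ) := h1
      _ ≤ PA * ρR ^ (1 - κ) * p ^ (-τ) := mul_le_mul_of_nonneg_left hθτ (by positivity)
      _ = (PA * p ^ (-τ)) * ρR ^ (1 - κ) := by ring
      _ ≤ (PA * p ^ (-τ)) * ((1 - β0) ^ (-κ) * ((1 - ρB) + κ * (ρB - β0))) :=
          mul_le_mul_of_nonneg_left aR (by positivity)
      _ = P1 * ((1 - ρB) + κ * (ρB - β0)) := by rw [hP1]; ring
  have r2 : uv / θ ≤ ε1 / p := by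
    calc uv / θ ≤ ε1 / θ := div_le_div_of_nonneg_right huv hθ0.le
      _ ≤ ε1 / p := div_le_div_of_nonneg_left hε hp hpθ
  have r3 : uR / θ + uB / θ + uv / θ = 1 := by
    rw [← add_div, ← add_div, hu, div_self hθ0.ne']
  have r4 : (1 - T) * ρB + T * (uB / θ) ≤ P2 * (ρB + κ * (β0 - ρB)) := by
    have e : T / θ * uB = T * (uB / θ) := by ring
    rw [e] at hB
    have hDm : Dθ ^ (1 - τ) ≤ D ^ (1 - τ) := Real.rpow_le_rpow hDθ hD (by linarith)
    have hDn : 0 ≤ D ^ (1 - τ) := Real.rpow_nonneg hD0 _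
    have hρBp : 0 ≤ ρB ^ (1 - κ) := Real.rpow_nonneg hρB _
    calc (1 - T) * ρB + T * (uB / θ) ≤ PW * ρB ^ (1 - κ) * Dθ ^ (1 - τ) := hB
      _ ≤ PW * ρB ^ (1 - κ) * D ^ (1 - τ) := mul_le_mul_of_nonneg_left hDm (by positivity)
      _ = (PW * D ^ (1 - τ)) * ρB ^ (1 - κ) := by ring
      _ ≤ (PW * D ^ (1 - τ)) * (β0 ^ (-κ) * (ρB + κ * (β0 - ρB))) :=
          mul_le_mul_of_nonneg_left aB (by positivity)
      _ = P2 * (ρB + κ * (β0 - ρB)) := by rw [hP2]; ring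
  have hβle : ρB ≤ 1 := by linarith
  have r5 : (1 - T) * ρB + T * (1 - ε1 / p - P1 * ((1 - ρB) + κ * (ρB - β0)))
      ≤ P2 * (ρB + κ * (β0 - ρB)) := by
    refine le_trans ?_ r4
    have : 1 - ε1 / p - P1 * ((1 - ρB) + κ * (ρB - β0)) ≤ uB / θ := by linarith
    have := mul_le_mul_of_nonneg_left this hT0.le
    linarith
  have key : 0 < (1 - ρB) * (T * (1 - ε1 / p) - T * P1 * (1 - κ * β0) - P2 * (κ * β0))
      + ρB * (1 - T * (ε1 / p) - T * P1 * (κ * (1 - β0)) - P2 * (1 - κ * (1 - β0))) := by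
    rcases hρB.lt_or_eq with h | h
    · have h1 : 0 ≤ (1 - ρB) * (T * (1 - ε1 / p) - T * P1 * (1 - κ * β0) - P2 * (κ * β0)) :=
        mul_nonneg (by linarith) E1.le
      have h2 := mul_pos h E2
      linarith
    · rw [← h]; simpa using E1
  nlinarith

/-- the Kullback–Leibler term -/
noncomputable def KK (p T : ℝ) : ℝ :=
  (p + (1 - p) * T) * Real.log ((p + (1 - p) * T) / p) + (1 - p) * (1 - T) * Real.log (1 - T)

lemma pos_right_of_deriv {f : ℝ → ℝ} {f' : ℝ} (h : HasDerivAt f f' 0) (h0 : f 0 = 0)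
    (hf' : 0 < f') : ∀ᶠ t in nhdsWithin (0 : ℝ) (Set.Ioi 0), 0 < f t := by
  have h1 := hasDerivAt_iff_tendsto_slope.mp h
  have h2 : ∀ᶠ t in nhdsWithin (0 : ℝ) {0}ᶜ, 0 < slope f 0 t := h1.eventually (lt_mem_nhds hf')
  have h3 : ∀ᶠ t in nhdsWithin (0 : ℝ) (Set.Ioi 0), 0 < slope f 0 t :=
    h2.filter_mono (nhdsWithin_mono _ (fun x hx => by
      simp only [Set.mem_compl_iff, Set.mem_singleton_iff]
      exact (ne_of_gt hx)))
  filter_upwards [h3, self_mem_nhdsWithin] with t ht ht0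
  rw [slope_def_field, h0, sub_zero, sub_zero] at ht
  have : (0 : ℝ) < t := ht0
  have := mul_pos ht this
  rwa [div_mul_cancel₀ _ (ne_of_gt ‹(0 : ℝ) < t›)] at this

lemma nparams (p q A W β0 T : ℝ) (hp0 : 0 < p) (hp1 : p < 1) (hq : 0 < q) (hβ0 : 0 < β0)
    (hβ1 : β0 < 1) (hT0 : 0 < T) (hT1 : T < 1)
    (hA : Real.log (1 / p) + q * Real.log (1 / (1 - β0)) + q * β0 * (1 - T) / T < A)
    (hW : q * Real.log (1 / β0) + KK p T - q * (1 - β0) * (1 - T) < W) :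
    ∃ τ ε1 : ℝ, 0 < τ ∧ τ < 1 ∧ q * τ < 1 ∧ 0 < ε1 ∧
      (0 < T * (1 - ε1 / p) - T * (Real.exp (-A * τ) * p ^ (-τ) * (1 - β0) ^ (-(q * τ))) * (1 - q * τ * β0)
      - (Real.exp (-W * τ) * (p * ((1 - T) + T / p) ^ (1 / (1 - τ)) + (1 - p) * (1 - T) ^ (1 / (1 - τ))) ^ (1 - τ)
        * β0 ^ (-(q * τ))) * (q * τ * β0)) ∧
      (0 < 1 - T * (ε1 / p) - T * (Real.exp (-A * τ) * p ^ (-τ) * (1 - β0) ^ (-(q * τ))) * (q * τ * (1 - β0))
      - (Real.exp (-W * τ) * (p * ((1 - T) + T / p) ^ (1 / (1 - τ)) + (1 - p) * (1 - T) ^ (1 / (1 - τ))) ^ (1 - τ)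
        * β0 ^ (-(q * τ))) * (1 - q * τ * (1 - β0))) := by
  have h1β : 0 < 1 - β0 := by linarith
  have h1T : 0 < 1 - T := by linarith
  have h1p : 0 < 1 - p := by linarith
  set c1 : ℝ := (1 - T) + T / p with hc1
  have hc1pos : 0 < c1 := by positivity
  set x0 : ℝ := A + Real.log p + q * Real.log (1 - β0) with hx0
  set D : ℝ → ℝ := fun t => p * Real.exp (Real.log c1 * (1 - t)⁻¹)
    + (1 - p) * Real.exp (Real.log (1 - T) * (1 - t)⁻¹) with hDdef
  set P1 : ℝ → ℝ := fun t => Real.exp (-x0 * t) with hP1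
  set P2 : ℝ → ℝ := fun t => Real.exp (-W * t + (1 - t) * Real.log (D t) - q * t * Real.log β0) with hP2
  have hD0 : D 0 = 1 := by
    simp only [hDdef]
    rw [sub_zero, inv_one, mul_one, mul_one, Real.exp_log hc1pos, Real.exp_log h1T, hc1]
    field_simp
    ring
  have hDpos : ∀ t, 0 < D t := fun t => by
    simp only [hDdef]
    have := Real.exp_pos (Real.log c1 * (1 - t)⁻¹)
    have := Real.exp_pos (Real.log (1 - T) * (1 - t)⁻¹)
    positivity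
  have hKK : KK p T = p * (Real.log c1 * c1) + (1 - p) * (Real.log (1 - T) * (1 - T)) := by
    unfold KK
    have e : (p + (1 - p) * T) / p = c1 := by rw [hc1]; field_simp; ring
    have e2 : p + (1 - p) * T = p * c1 := by rw [hc1]; field_simp; ring
    rw [e, e2]; ring
  -- derivatives
  have dinv : HasDerivAt (fun t : ℝ => (1 - t)⁻¹) 1 0 := by
    have h1 : HasDerivAt (fun t : ℝ => 1 - t) (-1) 0 := by
      simpa using (hasDerivAt_id (0 : ℝ)).const_sub 1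
    have h2 : HasDerivAt (fun t : ℝ => (1 - t)⁻¹) (-(-1) / (1 - 0) ^ 2) 0 := h1.inv (by norm_num)
    have e : -(-1 : ℝ) / (1 - 0) ^ 2 = 1 := by norm_num
    rwa [e] at h2
  have dD : HasDerivAt D (KK p T) 0 := by
    have h1 := ((dinv.const_mul (Real.log c1)).exp).const_mul p
    have h2 := ((dinv.const_mul (Real.log (1 - T))).exp).const_mul (1 - p)
    have h3 := h1.add h2
    have e : p * (Real.exp (Real.log c1 * (1 - 0)⁻¹) * (Real.log c1 * 1))
        + (1 - p) * (Real.exp (Real.log (1 - T) * (1 - 0)⁻¹) * (Real.log (1 - T) * 1)) = KK p T := by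
      simp only [sub_zero, inv_one, mul_one]
      rw [Real.exp_log hc1pos, Real.exp_log h1T, hKK]
      ring
    rw [e] at h3
    exact h3
  have dlogD : HasDerivAt (fun t => Real.log (D t)) (KK p T) 0 := by
    have := dD.log (by rw [hD0]; norm_num)
    rwa [hD0, div_one] at this
  have dP1 : HasDerivAt P1 (-x0) 0 := by
    have h1 : HasDerivAt (fun t : ℝ => -x0 * t) (-x0) 0 := by
      simpa using (hasDerivAt_id (0 : ℝ)).const_mul (-x0)
    have h2 : HasDerivAt P1 (Real.exp (-x0 * 0) * -x0) 0 := h1.exp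
    have e : Real.exp (-x0 * 0) * -x0 = -x0 := by simp
    rwa [e] at h2
  have dP2 : HasDerivAt P2 (-W + KK p T - q * Real.log β0) 0 := by
    have h1 : HasDerivAt (fun t : ℝ => -W * t) (-W) 0 := by
      simpa using (hasDerivAt_id (0 : ℝ)).const_mul (-W)
    have h2 : HasDerivAt (fun t : ℝ => 1 - t) (-1) 0 := by
      simpa using (hasDerivAt_id (0 : ℝ)).const_sub 1
    have h3 := h2.mul dlogD
    have h4 : HasDerivAt (fun t : ℝ => q * t * Real.log β0) (q * Real.log β0) 0 := by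
      have := ((hasDerivAt_id (0 : ℝ)).const_mul q).mul_const (Real.log β0)
      simpa using this
    have h5 := ((h1.add h3).sub h4).exp
    have e : Real.exp (-W * 0 + (1 - 0) * Real.log (D 0) - q * 0 * Real.log β0)
        * (-W + (-1 * Real.log (D 0) + (1 - 0) * KK p T) - q * Real.log β0)
        = -W + KK p T - q * Real.log β0 := by
      rw [hD0]; simp
    rw [← e]
    exact h5
  have hP10 : P1 0 = 1 := by simp [hP1]
  have hP20 : P2 0 = 1 := by simp only [hP2]; rw [hD0]; simp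
  have did : HasDerivAt (fun t : ℝ => q * t * β0) (q * β0) 0 := by
    have := ((hasDerivAt_id (0 : ℝ)).const_mul q).mul_const β0
    simpa using this
  have did2 : HasDerivAt (fun t : ℝ => q * t * (1 - β0)) (q * (1 - β0)) 0 := by
    have := ((hasDerivAt_id (0 : ℝ)).const_mul q).mul_const (1 - β0)
    simpa using this
  set F1 : ℝ → ℝ := fun t => T - T * P1 t * (1 - q * t * β0) - P2 t * (q * t * β0) with hF1
  set F2 : ℝ → ℝ := fun t => 1 - T * P1 t * (q * t * (1 - β0)) - P2 t * (1 - q * t * (1 - β0)) with hF2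
  have dF1 : HasDerivAt F1 (T * x0 + T * (q * β0) - q * β0) 0 := by
    have h1 := (dP1.const_mul T).mul (did.const_sub 1)
    have h2 := dP2.mul did
    have h3 := (h1.const_sub T).sub h2
    have e : -(T * -x0 * (1 - q * 0 * β0) + T * P1 0 * -(q * β0))
        - ((-W + KK p T - q * Real.log β0) * (q * 0 * β0) + P2 0 * (q * β0))
        = T * x0 + T * (q * β0) - q * β0 := by
      rw [hP10, hP20]; ring
    rw [← e]
    exact h3
  have dF2 : HasDerivAt F2 (-(T * (q * (1 - β0))) + q * (1 - β0) - (-W + KK p T - q * Real.log β0)) 0 := by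
    have h1 := (dP1.const_mul T).mul did2
    have h2 := dP2.mul (did2.const_sub 1)
    have h3 := (h1.const_sub 1).sub h2
    have e : -(T * -x0 * (q * 0 * (1 - β0)) + T * P1 0 * (q * (1 - β0)))
        - ((-W + KK p T - q * Real.log β0) * (1 - q * 0 * (1 - β0)) + P2 0 * -(q * (1 - β0)))
        = -(T * (q * (1 - β0))) + q * (1 - β0) - (-W + KK p T - q * Real.log β0) := by
      rw [hP10, hP20]; ring
    rw [← e]
    exact h3
  have hs1 : 0 < T * x0 + T * (q * β0) - q * β0 := by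
    have e1 : Real.log (1 / p) = -Real.log p := by rw [one_div, Real.log_inv]
    have e2 : Real.log (1 / (1 - β0)) = -Real.log (1 - β0) := by rw [one_div, Real.log_inv]
    rw [e1, e2] at hA
    have h3 : q * β0 * (1 - T) / T < x0 := by rw [hx0]; linarith
    rw [div_lt_iff₀ hT0] at h3
    nlinarith
  have hs2 : 0 < -(T * (q * (1 - β0))) + q * (1 - β0) - (-W + KK p T - q * Real.log β0) := by
    have e2 : Real.log (1 / β0) = -Real.log β0 := by rw [one_div, Real.log_inv]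
    rw [e2] at hW
    nlinarith
  have ev1 := pos_right_of_deriv dF1 (by simp only [hF1]; rw [hP10]; ring) hs1
  have ev2 := pos_right_of_deriv dF2 (by simp only [hF2]; rw [hP20]; ring) hs2
  have ev3 : ∀ᶠ t in nhdsWithin (0 : ℝ) (Set.Ioi 0), t < min 1 (1 / q) :=
    (nhdsWithin_le_nhds (s := Set.Ioi 0)) (gt_mem_nhds (by positivity))
  have ev4 : ∀ᶠ t in nhdsWithin (0 : ℝ) (Set.Ioi 0), 0 < t := self_mem_nhdsWithin
  obtain ⟨τ, ⟨⟨h1, h2⟩, h3⟩, h4⟩ := (((ev1.and ev2).and ev3).and ev4).exists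
  have hτ1 : τ < 1 := lt_of_lt_of_le h3 (min_le_left _ _)
  have hqτ : q * τ < 1 := by
    have : τ < 1 / q := lt_of_lt_of_le h3 (min_le_right _ _)
    rw [lt_div_iff₀ hq] at this
    linarith
  have hε : ∃ ε1 : ℝ, 0 < ε1 ∧ T * (ε1 / p) < F1 τ ∧ T * (ε1 / p) < F2 τ := by
    refine ⟨min (F1 τ) (F2 τ) * p / (2 * T), by have := lt_min h1 h2; positivity, ?_, ?_⟩
    · have e : T * (min (F1 τ) (F2 τ) * p / (2 * T) / p) = min (F1 τ) (F2 τ) / 2 := by field_simp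
      rw [e]; have := min_le_left (F1 τ) (F2 τ); linarith
    · have e : T * (min (F1 τ) (F2 τ) * p / (2 * T) / p) = min (F1 τ) (F2 τ) / 2 := by field_simp
      rw [e]; have := min_le_right (F1 τ) (F2 τ); linarith
  obtain ⟨ε1, hε0, hε1, hε2⟩ := hε
  have eP1 : Real.exp (-A * τ) * p ^ (-τ) * (1 - β0) ^ (-(q * τ)) = P1 τ := by
    simp only [hP1]
    rw [Real.rpow_def_of_pos hp0, Real.rpow_def_of_pos h1β, ← Real.exp_add, ← Real.exp_add, hx0]
    congr 1; ring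
  have eD : p * c1 ^ (1 / (1 - τ)) + (1 - p) * (1 - T) ^ (1 / (1 - τ)) = D τ := by
    simp only [hDdef]
    rw [Real.rpow_def_of_pos hc1pos, Real.rpow_def_of_pos h1T, one_div]
  have eP2 : Real.exp (-W * τ) * (D τ) ^ (1 - τ) * β0 ^ (-(q * τ)) = P2 τ := by
    simp only [hP2]
    rw [Real.rpow_def_of_pos (hDpos τ), Real.rpow_def_of_pos hβ0, ← Real.exp_add, ← Real.exp_add]
    congr 1; ring
  refine ⟨τ, ε1, h4, hτ1, hqτ, hε0, ?_, ?_⟩
  · rw [eD, eP2, eP1]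
    simp only [hF1] at hε1
    linarith
  · rw [eD, eP2, eP1]
    simp only [hF2] at hε2
    linarith

end H110R2
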