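import Pool.Agent.H110R2.NB1
import Pool.Agent.H110R2.NB2

open Finset

namespace H110R2

variable {V : Type} [DecidableEq V]

lemma kkt_row (G : SimpleGraph V) (p γ δ : ℝ) (hγ : 0 < γ) {X Y : Finset V} {ρ σ : V → ℝ}
    (hρ : ∀ x, 0 ≤ ρ x) (hσ : ∀ y, 0 ≤ σ y) (h1 : ∑ x ∈ X, ρ x = 1) (h2 : ∑ y ∈ Y, σ y = 1)
    (hmax : ∀ ρ' σ' : V → ℝ, (∀ x ∈ X, 0 ≤ ρ' x) → (∀ y ∈ Y, 0 ≤ σ' y) →
        BB G p γ δ X Y ρ' σ' ≤ BB G p γ δ X Y ρ σ * (∑ x ∈ X, ρ' x) ^ γ * (∑ y ∈ Y, σ' y) ^ δ)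
    {x0 : V} (hx0 : x0 ∈ X) :
    ∑ y ∈ Y, ρ x0 ^ γ * σ y ^ δ * ee G p x0 y = BB G p γ δ X Y ρ σ * ρ x0 := by
  have h := kkt_col G p δ γ hγ (X := Y) (Y := X) (ρ := σ) (σ := ρ) hσ hρ h2 h1 (by
    intro σ' ρ' hσ' hρ'
    have := hmax ρ' σ' hρ' hσ'
    rw [BB_comm, BB_comm G p γ δ X Y ρ σ] at this
    calc BB G p δ γ Y X σ' ρ' ≤ _ := this
      _ = _ := by ring) hx0
  rw [BB_comm G p γ δ X Y ρ σ, ← h]
  refine Finset.sum_congr rfl fun y _ => ?_
  rw [ee_comm]; ring

lemma split_sum (G : SimpleGraph V) {v : V} {X : Finset V} (hv : v ∈ X) (f : V → ℝ) :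
    ∑ x ∈ X, f x = ∑ x ∈ nb G v X, f x + ∑ x ∈ nb Gᶜ v X, f x + f v := by
  have h1 : X = insert v (nb G v X ∪ nb Gᶜ v X) := by
    ext w
    simp only [mem_insert, mem_union, mem_nb, SimpleGraph.compl_adj]
    constructor
    · intro hw
      by_cases hwv : w = v
      · exact Or.inl hwv
      · by_cases ha : G.Adj v w
        · exact Or.inr (Or.inl ⟨hw, ha⟩)
        · exact Or.inr (Or.inr ⟨hw, fun h => hwv h.symm, ha⟩)
    · rintro (rfl | h | h)
      · exact hv
      · exact h.1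
      · exact h.1
  have hdisj : Disjoint (nb G v X) (nb Gᶜ v X) := by
    rw [Finset.disjoint_left]
    intro w h1 h2
    exact (mem_nb.mp h2).2.2 (mem_nb.mp h1).2
  have hnot : v ∉ nb G v X ∪ nb Gᶜ v X := by
    simp [mem_nb]
  conv_lhs => rw [h1]
  rw [sum_insert hnot, sum_union hdisj]
  ring

lemma sum_rpow_le {ι : Type*} (Y : Finset ι) (s : ι → ℝ) (hs : ∀ y ∈ Y, 0 ≤ s y)
    (h1 : ∑ y ∈ Y, s y = 1) {τ : ℝ} (hτ0 : 0 ≤ τ) (hτ1 : τ ≤ 1) (hY : Y.Nonempty) :
    ∑ y ∈ Y, s y ^ (1 - τ) ≤ (Y.card : ℝ) ^ τ := by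
  have hc : (0 : ℝ) < Y.card := by exact_mod_cast hY.card_pos
  have hconc := Real.concaveOn_rpow (p := 1 - τ) (by linarith) (by linarith)
  have h := hconc.le_map_sum (t := Y) (w := fun _ => (Y.card : ℝ)⁻¹) (p := s)
    (fun _ _ => by positivity) (by rw [sum_const, nsmul_eq_mul, mul_inv_cancel₀ hc.ne'])
    (fun y hy => hs y hy)
  simp only [smul_eq_mul] at h
  rw [← mul_sum, ← mul_sum, h1, mul_one] at h
  rw [inv_mul_le_iff₀ hc] at h
  refine h.trans (le_of_eq ?_)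
  rw [Real.inv_rpow hc.le, Real.rpow_sub hc, Real.rpow_one]
  field_simp

lemma Dmono {p θ T e : ℝ} (hp : 0 < p) (hpθ : p ≤ θ) (hT0 : 0 ≤ T) (hT1 : T ≤ 1)
    (he : 1 ≤ e) :
    θ * ((1 - T) + T / θ) ^ e + (1 - θ) * (1 - T) ^ e
      ≤ p * ((1 - T) + T / p) ^ e + (1 - p) * (1 - T) ^ e := by
  have hθ0 : 0 < θ := lt_of_lt_of_le hp hpθ
  have hconv := convexOn_rpow he
  have h1T : 0 ≤ 1 - T := by linarith
  have hc1 : 0 ≤ (1 - T) + T / p := by positivity
  have h := hconv.2 (Set.mem_Ici.mpr hc1) (Set.mem_Ici.mpr h1T)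
    (show (0 : ℝ) ≤ p / θ by positivity)
    (show (0 : ℝ) ≤ 1 - p / θ by rw [sub_nonneg, div_le_one hθ0]; exact hpθ) (by ring)
  simp only [smul_eq_mul] at h
  have e1 : p / θ * (1 - T + T / p) + (1 - p / θ) * (1 - T) = (1 - T) + T / θ := by
    field_simp; ring
  rw [e1] at h
  have h2 := mul_le_mul_of_nonneg_left h hθ0.le
  have e2 : θ * (p / θ * (1 - T + T / p) ^ e + (1 - p / θ) * (1 - T) ^ e)
      = p * (1 - T + T / p) ^ e + (θ - p) * (1 - T) ^ e := by
    field_simp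
  rw [e2] at h2
  linarith

/-- main induction of the norm version of the book algorithm -/
theorem nb_induct (G : SimpleGraph V) (p q A W β0 T τ ε1 LM C : ℝ) (k l : ℕ) (Y0 : Finset V)
    (hp0 : 0 < p) (hp1 : p < 1) (hq : 0 < q) (hβ0 : 0 < β0) (hβ1 : β0 < 1) (hT0 : 0 < T)
    (hT1 : T < 1) (hW : 0 ≤ W) (hτ0 : 0 < τ) (hτ1 : τ < 1) (hqτ : q * τ < 1) (hε : 0 < ε1)
    (E1 : 0 < T * (1 - ε1 / p) - T * (Real.exp (-A * τ) * p ^ (-τ) * (1 - β0) ^ (-(q * τ))) * (1 - q * τ * β0)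
      - (Real.exp (-W * τ) * (p * ((1 - T) + T / p) ^ (1 / (1 - τ)) + (1 - p) * (1 - T) ^ (1 / (1 - τ))) ^ (1 - τ)
        * β0 ^ (-(q * τ))) * (q * τ * β0))
    (E2 : 0 < 1 - T * (ε1 / p) - T * (Real.exp (-A * τ) * p ^ (-τ) * (1 - β0) ^ (-(q * τ))) * (q * τ * (1 - β0))
      - (Real.exp (-W * τ) * (p * ((1 - T) + T / p) ^ (1 / (1 - τ)) + (1 - p) * (1 - T) ^ (1 / (1 - τ))) ^ (1 - τ)
        * β0 ^ (-(q * τ))) * (1 - q * τ * (1 - β0)))
    (hC : Real.exp (-(τ * C)) ≤ ε1)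
    (hl : NoCl Gᶜ l Y0)
    (hZ : ∀ a ≤ k, ∀ Z ⊆ Y0, NoCl G a Z → NoCl Gᶜ l Z → (Z.card : ℝ) ≤ Real.exp (LM + A * a)) :
    ∀ n a b : ℕ, a + b ≤ n → a ≤ k → ∀ X Y : Finset V, Y ⊆ Y0 → NoCl G a (X ∪ Y) → NoCl Gᶜ b X →
      ∀ ρ σ : V → ℝ, (∀ x ∈ X, 0 ≤ ρ x) → (∀ y ∈ Y, 0 ≤ σ y) →
      BB G p (1 - q * τ) (1 - τ) X Y ρ σ
        ≤ Real.exp (τ * (LM + C + A * a + W * b)) * (∑ x ∈ X, ρ x) ^ (1 - q * τ)
          * (∑ y ∈ Y, σ y) ^ (1 - τ) := by
  intro n
  induction n with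
  | zero =>
    intro a b hab _ X Y _ hXa _
    have : a = 0 := by omega
    subst this
    exact absurd hXa (not_noCl_zero _ _)
  | succ n ih =>
    intro a b hab hak X Y hY0 hXa hXb
    rcases a with _ | a
    · exact absurd hXa (not_noCl_zero _ _)
    rcases b with _ | b
    · exact absurd hXb (not_noCl_zero _ _)
    rcases X.eq_empty_or_nonempty with rfl | hX
    · intro ρ σ _ hσ
      have : BB G p (1 - q * τ) (1 - τ) ∅ Y ρ σ = 0 := by unfold BB; simp
      rw [this]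
      have h2 : 0 ≤ (∑ y ∈ Y, σ y) ^ (1 - τ) := Real.rpow_nonneg (sum_nonneg hσ) _
      have h3 : 0 ≤ (∑ x ∈ (∅ : Finset V), ρ x) ^ (1 - q * τ) := Real.rpow_nonneg (by simp) _
      positivity
    rcases Y.eq_empty_or_nonempty with rfl | hY
    · intro ρ σ hρ _
      have : BB G p (1 - q * τ) (1 - τ) X ∅ ρ σ = 0 := by unfold BB; simp
      rw [this]
      have h2 : 0 ≤ (∑ x ∈ X, ρ x) ^ (1 - q * τ) := Real.rpow_nonneg (sum_nonneg hρ) _
      have h3 : 0 ≤ (∑ y ∈ (∅ : Finset V), σ y) ^ (1 - τ) := Real.rpow_nonneg (by simp) _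
      positivity
    have hγ : 0 < 1 - q * τ := by linarith
    have hδ : 0 < 1 - τ := by linarith
    obtain ⟨r, s, hr, hs, hr1, hs1, hmax⟩ := exists_max G p (1 - q * τ) (1 - τ) hγ hδ hX hY
    set N := BB G p (1 - q * τ) (1 - τ) X Y r s with hN
    set Θ := Real.exp (τ * (LM + C + A * ((a + 1 : ℕ) : ℝ) + W * ((b + 1 : ℕ) : ℝ))) with hΘ
    have hΘ0 : 0 < Θ := Real.exp_pos _
    -- it suffices to bound N
    suffices hNΘ : N ≤ Θ by
      intro ρ σ hρ hσ
      refine (hmax ρ σ hρ hσ).trans ?_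
      have h1 : 0 ≤ (∑ x ∈ X, ρ x) ^ (1 - q * τ) := Real.rpow_nonneg (sum_nonneg hρ) _
      have h2 : 0 ≤ (∑ y ∈ Y, σ y) ^ (1 - τ) := Real.rpow_nonneg (sum_nonneg hσ) _
      exact mul_le_mul_of_nonneg_right (mul_le_mul_of_nonneg_right hNΘ h1) h2
    by_contra hcon
    push Not at hcon
    have hN0 : 0 < N := lt_trans hΘ0 hcon
    -- kkt
    have hcol : ∀ y ∈ Y, ∑ x ∈ X, r x ^ (1 - q * τ) * s y ^ (1 - τ) * ee G p x y = N * s y :=
      fun y hy => kkt_col G p _ _ hδ hr hs hr1 hs1 hmax hy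
    have hrow : ∀ x ∈ X, ∑ y ∈ Y, r x ^ (1 - q * τ) * s y ^ (1 - τ) * ee G p x y = N * r x :=
      fun x hx => kkt_row G p _ _ hγ hr hs hr1 hs1 hmax hx
    -- choice of v
    have hsum : 0 ≤ ∑ v ∈ X, r v ^ (1 - q * τ) * (∑ y ∈ nb G v Y, s y - p) := by
      have e1 : ∀ v ∈ X, r v ^ (1 - q * τ) * (∑ y ∈ nb G v Y, s y - p)
          = ∑ y ∈ Y, s y * (r v ^ (1 - q * τ) * ee G p v y) := by
        intro v _
        have h1 : ∑ y ∈ nb G v Y, s y - p = ∑ y ∈ Y, s y * ee G p v y := by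
          unfold nb ee
          rw [sum_filter]
          have : p = ∑ y ∈ Y, s y * p := by rw [← sum_mul, hs1, one_mul]
          conv_lhs => rw [this]
          rw [← sum_sub_distrib]
          refine sum_congr rfl fun y _ => ?_
          split <;> ring
        rw [h1, mul_sum]
        refine sum_congr rfl fun y _ => by ring
      rw [sum_congr rfl e1, sum_comm]
      refine sum_nonneg fun y hy => ?_
      rw [← mul_sum]
      have h2 := hcol y hy
      have h3 : ∑ x ∈ X, r x ^ (1 - q * τ) * s y ^ (1 - τ) * ee G p x y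
          = s y ^ (1 - τ) * ∑ x ∈ X, r x ^ (1 - q * τ) * ee G p x y := by
        rw [mul_sum]; exact sum_congr rfl fun x _ => by ring
      rw [h3] at h2
      have h4 : s y = s y ^ τ * s y ^ (1 - τ) := by
        rw [← Real.rpow_add_of_nonneg (hs y) hτ0.le hδ.le]; simp
      have h5 : s y * ∑ x ∈ X, r x ^ (1 - q * τ) * ee G p x y = s y ^ τ * (N * s y) := by
        rw [← h2]
        conv_lhs => rw [h4]
        ring
      rw [h5]
      have := Real.rpow_nonneg (hs y) τ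
      have := hs y
      positivity
    obtain ⟨v, hvX, hvθ⟩ : ∃ v ∈ X, p ≤ ∑ y ∈ nb G v Y, s y := by
      by_contra hno
      push Not at hno
      obtain ⟨x0, hx0, hx0r⟩ : ∃ x ∈ X, 0 < r x := by
        by_contra hno2
        push Not at hno2
        have : ∑ x ∈ X, r x ≤ 0 := sum_nonpos hno2
        linarith
      have : ∑ v ∈ X, r v ^ (1 - q * τ) * (∑ y ∈ nb G v Y, s y - p) < 0 := by
        refine sum_neg' (fun v hv => ?_) ⟨x0, hx0, ?_⟩
        · have h1 := Real.rpow_nonneg (hr v) (1 - q * τ)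
          have h2 := hno v hv
          nlinarith
        · have h1 := Real.rpow_pos_of_pos hx0r (1 - q * τ)
          have h2 := hno x0 hx0
          nlinarith
      linarith
    set θ := ∑ y ∈ nb G v Y, s y with hθ
    have hθ1 : θ ≤ 1 := by
      rw [hθ, ← hs1]
      exact sum_le_sum_of_subset_of_nonneg (nb_subset _ _ _) fun y _ _ => hs y
    have hθ0 : 0 < θ := lt_of_lt_of_le hp0 hvθ
    -- the pieces
    set f : V → V → ℝ := fun x y => r x ^ (1 - q * τ) * s y ^ (1 - τ) * ee G p x y with hf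
    set SR := ∑ x ∈ nb G v X, ∑ y ∈ nb G v Y, f x y with hSR
    set SB := ∑ x ∈ nb Gᶜ v X, ∑ y ∈ nb G v Y, f x y with hSB
    set Sv := ∑ y ∈ nb G v Y, f v y with hSv
    set ρR := ∑ x ∈ nb G v X, r x with hρR
    set ρB := ∑ x ∈ nb Gᶜ v X, r x with hρB
    have hρR0 : 0 ≤ ρR := sum_nonneg fun x _ => hr x
    have hρB0 : 0 ≤ ρB := sum_nonneg fun x _ => hr x
    have hρ1 : ρR + ρB ≤ 1 := by
      have := split_sum G hvX r
      rw [hr1] at this
      have := hr v
      linarith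
    have htot : SR + SB + Sv = N * θ := by
      have h1 := split_sum G hvX (fun x => ∑ y ∈ nb G v Y, f x y)
      rw [← h1, sum_comm]
      rw [hθ, mul_sum]
      exact sum_congr rfl fun y hy => hcol y (nb_subset _ _ _ hy)
    -- Sv small
    have hYcard : (Y.card : ℝ) ≤ Real.exp (LM + A * ((a + 1 : ℕ) : ℝ)) :=
      hZ (a + 1) hak Y hY0 (hXa.mono subset_union_right) (hl.mono hY0)
    have hSvle : Sv ≤ ε1 * N := by
      have h1 : Sv ≤ ∑ y ∈ Y, s y ^ (1 - τ) := by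
        have h2 : Sv ≤ ∑ y ∈ nb G v Y, s y ^ (1 - τ) := by
          refine sum_le_sum fun y hy => ?_
          have hadj := (mem_nb.mp hy).2
          have he : ee G p v y = 1 - p := by unfold ee; simp [hadj]
          simp only [hf]
          rw [he]
          have h3 : r v ^ (1 - q * τ) ≤ 1 := by
            apply Real.rpow_le_one (hr v) _ hγ.le
            rw [← hr1]; exact single_le_sum (fun x _ => hr x) hvX
          have h4 := Real.rpow_nonneg (hr v) (1 - q * τ)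
          have h5 := Real.rpow_nonneg (hs y) (1 - τ)
          calc r v ^ (1 - q * τ) * s y ^ (1 - τ) * (1 - p) ≤ 1 * s y ^ (1 - τ) * 1 := by
                apply mul_le_mul _ (by linarith) (by linarith) (by positivity)
                exact mul_le_mul_of_nonneg_right h3 h5
            _ = s y ^ (1 - τ) := by ring
        refine h2.trans (sum_le_sum_of_subset_of_nonneg (nb_subset _ _ _) fun y _ _ => ?_)
        exact Real.rpow_nonneg (hs y) _
      have h2 := sum_rpow_le Y s (fun y _ => hs y) hs1 hτ0.le hτ1.le hY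
      have h3 : (Y.card : ℝ) ^ τ ≤ Real.exp (τ * (LM + A * ((a + 1 : ℕ) : ℝ))) := by
        have := Real.rpow_le_rpow (Nat.cast_nonneg _) hYcard hτ0.le
        rwa [← Real.exp_mul, mul_comm _ τ] at this
      have h4 : Real.exp (τ * (LM + A * ((a + 1 : ℕ) : ℝ))) ≤ Real.exp (-(τ * C)) * Θ := by
        rw [hΘ, ← Real.exp_add]
        apply Real.exp_le_exp.mpr
        have : 0 ≤ τ * (W * ((b + 1 : ℕ) : ℝ)) := by positivity
        linarith
      have h5 : Real.exp (-(τ * C)) * Θ ≤ ε1 * N :=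
        mul_le_mul hC hcon.le hΘ0.le hε.le
      linarith
    -- red
    have hred : SR ≤ Real.exp (-A * τ) * N * ρR ^ (1 - q * τ) * θ ^ (1 - τ) := by
      have h1 := ih a (b + 1) (by omega) (by omega) (nb G v X) (nb G v Y)
        ((nb_subset _ _ _).trans hY0)
        (hXa.step (mem_union_left _ hvX)
          (union_subset_union (nb_subset _ _ _) (nb_subset _ _ _)) (by
            intro w hw
            rcases mem_union.mp hw with h | h
            · exact (mem_nb.mp h).2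
            · exact (mem_nb.mp h).2))
        (hXb.mono (nb_subset _ _ _)) r s (fun x _ => hr x) (fun y _ => hs y)
      have h2 : Real.exp (τ * (LM + C + A * (a : ℝ) + W * ((b + 1 : ℕ) : ℝ))) = Real.exp (-A * τ) * Θ := by
        rw [hΘ, ← Real.exp_add]; congr 1; push_cast; ring
      rw [h2] at h1
      have h3 : BB G p (1 - q * τ) (1 - τ) (nb G v X) (nb G v Y) r s = SR := rfl
      rw [h3] at h1
      refine h1.trans ?_
      have h4 := Real.rpow_nonneg hρR0 (1 - q * τ)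
      have h5 := Real.rpow_nonneg hθ0.le (1 - τ)
      have h6 := Real.exp_pos (-A * τ)
      apply mul_le_mul_of_nonneg_right _ h5
      apply mul_le_mul_of_nonneg_right _ h4
      exact mul_le_mul_of_nonneg_left hcon.le h6.le
    -- blue
    have h1T : 0 < 1 - T := by linarith
    have hc1 : 0 < (1 - T) + T / θ := by positivity
    have hblue : (1 - T) * (N * ρB) + T / θ * SB
        ≤ Real.exp (-W * τ) * N * ρB ^ (1 - q * τ)
          * (θ * ((1 - T) + T / θ) ^ (1 / (1 - τ)) + (1 - θ) * (1 - T) ^ (1 / (1 - τ))) ^ (1 - τ) := by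
      classical
      set s' : V → ℝ := fun y => (if y ∈ nb G v Y then ((1 - T) + T / θ) ^ (1 / (1 - τ))
        else (1 - T) ^ (1 / (1 - τ))) * s y with hs'
      have hs'0 : ∀ y, 0 ≤ s' y := by
        intro y
        simp only [hs']
        have h1 := Real.rpow_nonneg hc1.le (1 / (1 - τ))
        have h2 := Real.rpow_nonneg h1T.le (1 / (1 - τ))
        have h3 := hs y
        split <;> positivity
      have h1 := ih (a + 1) b (by omega) hak (nb Gᶜ v X) Y hY0
        (hXa.mono (union_subset_union (nb_subset _ _ _) subset_rfl))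
        (hXb.step hvX (nb_subset _ _ _) (fun w hw => (mem_nb.mp hw).2)) r s'
        (fun x _ => hr x) (fun y _ => hs'0 y)
      have h2 : Real.exp (τ * (LM + C + A * ((a + 1 : ℕ) : ℝ) + W * (b : ℝ))) = Real.exp (-W * τ) * Θ := by
        rw [hΘ, ← Real.exp_add]; congr 1; push_cast; ring
      rw [h2] at h1
      -- sum of s'
      have hsum' : ∑ y ∈ Y, s' y
          = θ * ((1 - T) + T / θ) ^ (1 / (1 - τ)) + (1 - θ) * (1 - T) ^ (1 / (1 - τ)) := by
        have e0 : ∑ y ∈ Y, s' y = ∑ y ∈ Y, ((1 - T) ^ (1 / (1 - τ)) * s y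
            + (if y ∈ nb G v Y then (((1 - T) + T / θ) ^ (1 / (1 - τ)) - (1 - T) ^ (1 / (1 - τ))) * s y else 0)) := by
          refine sum_congr rfl fun y _ => ?_
          simp only [hs']
          split <;> ring
        rw [e0, sum_add_distrib, ← mul_sum, hs1, ← sum_filter]
        have e1 : Y.filter (fun y => y ∈ nb G v Y) = nb G v Y := by
          ext y
          simp only [mem_filter]
          exact ⟨fun h => h.2, fun h => ⟨nb_subset _ _ _ h, h⟩⟩
        rw [e1, ← mul_sum, ← hθ]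
        ring
      -- BB of the tilted weights
      have hBB : BB G p (1 - q * τ) (1 - τ) (nb Gᶜ v X) Y r s' = (1 - T) * (N * ρB) + T / θ * SB := by
        unfold BB
        have e0 : ∀ x ∈ nb Gᶜ v X, ∑ y ∈ Y, r x ^ (1 - q * τ) * s' y ^ (1 - τ) * ee G p x y
            = (1 - T) * (N * r x) + T / θ * ∑ y ∈ nb G v Y, f x y := by
          intro x hx
          have e1 : ∀ y ∈ Y, r x ^ (1 - q * τ) * s' y ^ (1 - τ) * ee G p x y
              = (1 - T) * (r x ^ (1 - q * τ) * s y ^ (1 - τ) * ee G p x y)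
                + (if y ∈ nb G v Y then T / θ * f x y else 0) := by
            intro y _
            simp only [hs', hf]
            split
            · rw [Real.mul_rpow (Real.rpow_nonneg hc1.le _) (hs y), ← Real.rpow_mul hc1.le,
                one_div_mul_cancel hδ.ne', Real.rpow_one]
              ring
            · rw [Real.mul_rpow (Real.rpow_nonneg h1T.le _) (hs y), ← Real.rpow_mul h1T.le,
                one_div_mul_cancel hδ.ne', Real.rpow_one]
              ring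
          rw [sum_congr rfl e1, sum_add_distrib, ← mul_sum, hrow x (nb_subset _ _ _ hx), ← sum_filter]
          have e2 : Y.filter (fun y => y ∈ nb G v Y) = nb G v Y := by
            ext y
            simp only [mem_filter]
            exact ⟨fun h => h.2, fun h => ⟨nb_subset _ _ _ h, h⟩⟩
          rw [e2, ← mul_sum]
        rw [sum_congr rfl e0, sum_add_distrib, ← mul_sum, ← mul_sum, ← mul_sum]
      rw [hBB, hsum'] at h1
      refine h1.trans ?_
      have h4 := Real.rpow_nonneg hρB0 (1 - q * τ)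
      have h6 := Real.exp_pos (-W * τ)
      have h7 : 0 ≤ (θ * ((1 - T) + T / θ) ^ (1 / (1 - τ)) + (1 - θ) * (1 - T) ^ (1 / (1 - τ))) ^ (1 - τ) := by
        rw [← hsum']; exact Real.rpow_nonneg (sum_nonneg fun y _ => hs'0 y) _
      apply mul_le_mul_of_nonneg_right _ h7
      apply mul_le_mul_of_nonneg_right _ h4
      exact mul_le_mul_of_nonneg_left hcon.le h6.le
    -- conclusion
    have h1θ : 0 ≤ 1 - θ := by linarith
    have hDθ : 0 ≤ θ * ((1 - T) + T / θ) ^ (1 / (1 - τ)) + (1 - θ) * (1 - T) ^ (1 / (1 - τ)) := by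
      have h1 := Real.rpow_nonneg hc1.le (1 / (1 - τ))
      have h2 := Real.rpow_nonneg h1T.le (1 / (1 - τ))
      positivity
    have hDm := Dmono hp0 hvθ hT0.le hT1.le (e := 1 / (1 - τ))
      (by rw [le_div_iff₀ hδ]; linarith)
    refine nb_scalar (p := p) (T := T) (κ := q * τ) (τ := τ) (ε1 := ε1) (PA := Real.exp (-A * τ))
      (PW := Real.exp (-W * τ)) (θ := θ) (β0 := β0) (ρR := ρR) (ρB := ρB) (uR := SR / N)
      (uB := SB / N) (uv := Sv / N) hp0 hvθ hT0 (by positivity) hqτ hτ0 hτ1 hβ0 hβ1 hε.le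
      (Real.exp_pos _) (Real.exp_pos _) hDθ hDm hρR0 hρB0 hρ1 ?_ ?_ ?_ ?_ E1 E2
    · rw [← add_div, ← add_div, htot, mul_div_cancel_left₀ _ hN0.ne']
    · rw [div_le_iff₀ hN0]; exact hSvle
    · rw [div_le_iff₀ hN0]
      calc SR ≤ _ := hred
        _ = _ := by ring
    · have e : (1 - T) * ρB + T / θ * (SB / N) = ((1 - T) * (N * ρB) + T / θ * SB) / N := by
        field_simp
      rw [e, div_le_iff₀ hN0]
      calc (1 - T) * (N * ρB) + T / θ * SB ≤ _ := hblue
        _ = _ := by ring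

omit [DecidableEq V] in
lemma sum_ee (G : SimpleGraph V) (p : ℝ) (x : V) (Y : Finset V) :
    ∑ y ∈ Y, ee G p x y = ((nb G x Y).card : ℝ) - p * Y.card := by
  classical
  unfold ee nb
  rw [sum_sub_distrib, sum_const, nsmul_eq_mul, Finset.card_filter]
  push_cast
  ring

/-- The book theorem, norm version. -/
theorem nbook (p q A W β0 T δ0 : ℝ) (hp0 : 0 < p) (hp1 : p < 1) (hq : 0 < q) (hβ0 : 0 < β0)
    (hβ1 : β0 < 1) (hT0 : 0 < T) (hT1 : T < 1) (hδ0 : 0 < δ0) (hW0 : 0 ≤ W)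
    (hA : Real.log (1 / p) + q * Real.log (1 / (1 - β0)) + q * β0 * (1 - T) / T < A)
    (hW : q * Real.log (1 / β0) + KK p T - q * (1 - β0) * (1 - T) < W) :
    ∃ c : ℝ, ∀ (V : Type) [DecidableEq V] (G : SimpleGraph V) (k l b : ℕ) (LM : ℝ)
      (X Y : Finset V), X.Nonempty → Y.Nonempty → NoCl G k (X ∪ Y) → NoCl Gᶜ b X →
      NoCl Gᶜ l Y →
      (∀ a ≤ k, ∀ Z ⊆ Y, NoCl G a Z → NoCl Gᶜ l Z → (Z.card : ℝ) ≤ Real.exp (LM + A * a)) →
      (p + δ0) * X.card * Y.card ≤ ∑ x ∈ X, ((nb G x Y).card : ℝ) →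
      q * Real.log X.card + Real.log Y.card ≤ LM + c + A * k + W * b := by
  obtain ⟨τ, ε1, hτ0, hτ1, hqτ, hε, E1, E2⟩ := nparams p q A W β0 T hp0 hp1 hq hβ0 hβ1 hT0 hT1 hA hW
  obtain ⟨C, hC⟩ : ∃ C : ℝ, Real.exp (-(τ * C)) ≤ ε1 := by
    refine ⟨-Real.log ε1 / τ, ?_⟩
    have : -(τ * (-Real.log ε1 / τ)) = Real.log ε1 := by field_simp
    rw [this, Real.exp_log hε]
  refine ⟨C - Real.log δ0 / τ, ?_⟩
  intro V _ G k l b LM X Y hX hY hXk hXb hYl hZ hdens
  have h := nb_induct G p q A W β0 T τ ε1 LM C k l Y hp0 hp1 hq hβ0 hβ1 hT0 hT1 hW0 hτ0 hτ1 hqτ hε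
    E1 E2 hC hYl hZ (k + b) k b le_rfl le_rfl X Y subset_rfl hXk hXb (fun _ => 1) (fun _ => 1)
    (fun _ _ => zero_le_one) (fun _ _ => zero_le_one)
  have hXpos : (0 : ℝ) < X.card := by exact_mod_cast hX.card_pos
  have hYpos : (0 : ℝ) < Y.card := by exact_mod_cast hY.card_pos
  have e1 : BB G p (1 - q * τ) (1 - τ) X Y (fun _ => 1) (fun _ => 1)
      = ∑ x ∈ X, (((nb G x Y).card : ℝ) - p * Y.card) := by
    unfold BB
    refine sum_congr rfl fun x _ => ?_
    simp only [Real.one_rpow, one_mul]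
    exact sum_ee G p x Y
  rw [e1, sum_sub_distrib, sum_const, sum_const, sum_const, nsmul_eq_mul, nsmul_eq_mul,
    nsmul_eq_mul, mul_one, mul_one] at h
  have h2 : δ0 * X.card * Y.card
      ≤ Real.exp (τ * (LM + C + A * k + W * b)) * (X.card : ℝ) ^ (1 - q * τ) * (Y.card : ℝ) ^ (1 - τ) := by
    linarith
  have h3 := Real.log_le_log (by positivity) h2
  rw [Real.log_mul (by positivity) hYpos.ne', Real.log_mul hδ0.ne' hXpos.ne',
    Real.log_mul (by positivity) (Real.rpow_pos_of_pos hYpos _).ne',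
    Real.log_mul (Real.exp_pos _).ne' (Real.rpow_pos_of_pos hXpos _).ne', Real.log_exp,
    Real.log_rpow hXpos, Real.log_rpow hYpos] at h3
  have h4 : τ * (q * Real.log X.card + Real.log Y.card) ≤ τ * (LM + (C - Real.log δ0 / τ) + A * k + W * b) := by
    have e2 : τ * (Real.log δ0 / τ) = Real.log δ0 := by field_simp
    have e3 : τ * (LM + (C - Real.log δ0 / τ) + A * k + W * b)
        = τ * (LM + C + A * k + W * b) - τ * (Real.log δ0 / τ) := by ring
    rw [e3, e2]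
    linarith
  exact le_of_mul_le_mul_left h4 hτ0

end H110R2
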