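import Pool.Agent.H110R2.StepES

open Finset

namespace H110R2

/-- possibly swapped line -/
def sw (b : Bool) (L : ℝ × ℝ) : ℝ × ℝ := if b then L.swap else L

lemma lv_sw_le {Ls : List (ℝ × ℝ)} (hLs : ∀ L' ∈ Ls, L'.1 ≤ L'.2) {L : ℝ × ℝ} {k l : ℕ}
    (hlk : l ≤ k) (hact : ∀ L' ∈ Ls, lv L k l ≤ lv L' k l) {L1 : ℝ × ℝ} (h1 : L1 ∈ Ls) (b : Bool) :
    lv L k l ≤ lv (sw b L1) k l := by
  cases b
  · exact hact L1 h1
  · refine (hact L1 h1).trans ?_
    have := hLs L1 h1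
    have h2 : (l : ℝ) ≤ k := by exact_mod_cast hlk
    simp only [sw, if_true, lv_swap]
    unfold lv
    nlinarith

lemma bd_sw {Ls : List (ℝ × ℝ)} {C : ℝ} {a b : ℕ} (h : BdAt Ls C a b) {V : Type} [DecidableEq V]
    (G : SimpleGraph V) (Z : Finset V) (ha : NoCl G a Z) (hb : NoCl Gᶜ b Z) {L1 : ℝ × ℝ}
    (h1 : L1 ∈ Ls) (t : Bool) : (Z.card : ℝ) ≤ C * Real.exp (lv (sw t L1) a b) := by
  have := h V G Z ha hb L1 h1
  cases t
  · exact this.1
  · simp only [sw, if_true, lv_swap]; exact this.2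

/-- The free bound for subsets, with slope `(A,B)` dominating a convex combination. -/
lemma free_bound {Ls : List (ℝ × ℝ)} {C : ℝ} (hC : 0 < C) {a b : ℕ} (h : BdAt Ls C a b) {V : Type}
    [DecidableEq V] (G : SimpleGraph V) (Z : Finset V) (ha : NoCl G a Z) (hb : NoCl Gᶜ b Z)
    {L1 L2 : ℝ × ℝ} (h1 : L1 ∈ Ls) (h2 : L2 ∈ Ls) (b1 b2 : Bool) {t A B : ℝ} (ht0 : 0 ≤ t)
    (ht1 : t ≤ 1) (hA : t * (sw b1 L1).1 + (1 - t) * (sw b2 L2).1 ≤ A)
    (hB : t * (sw b1 L1).2 + (1 - t) * (sw b2 L2).2 ≤ B) :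
    (Z.card : ℝ) ≤ C * Real.exp (A * a + B * b) := by
  have key : t * lv (sw b1 L1) a b + (1 - t) * lv (sw b2 L2) a b ≤ A * a + B * b := by
    unfold lv
    have ha' : (0 : ℝ) ≤ a := Nat.cast_nonneg _
    have hb' : (0 : ℝ) ≤ b := Nat.cast_nonneg _
    nlinarith [mul_le_mul_of_nonneg_right hA ha', mul_le_mul_of_nonneg_right hB hb']
  rcases conv_min ht0 ht1 key with hc | hc
  · exact (bd_sw h G Z ha hb h1 b1).trans
      (mul_le_mul_of_nonneg_left (Real.exp_le_exp.mpr hc) hC.le)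
  · exact (bd_sw h G Z ha hb h2 b2).trans
      (mul_le_mul_of_nonneg_left (Real.exp_le_exp.mpr hc) hC.le)

theorem step_direct (Ls : List (ℝ × ℝ)) (hLs : ∀ L' ∈ Ls, L'.1 ≤ L'.2) (L L1 L2 : ℝ × ℝ)
    (hL : L ∈ Ls) (h1 : L1 ∈ Ls) (h2 : L2 ∈ Ls) (b1 b2 : Bool) (t A B q μ p s σ : ℝ)
    (hP : 0 < L.1) (hQ : 0 < L.2) (ht0 : 0 ≤ t) (ht1 : t ≤ 1)
    (hA : t * (sw b1 L1).1 + (1 - t) * (sw b2 L2).1 ≤ A)
    (hB : t * (sw b1 L1).2 + (1 - t) * (sw b2 L2).2 ≤ B)
    (hp0 : 0 < p) (hp : p < 1 - Real.exp (-L.2)) (hμ0 : 0 < μ) (hμ1 : μ < 1) (hq : 0 < q)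
    (hs : 0 < s) (hσ : 0 < σ)
    (hbook : q * Real.log (1 / (1 - μ)) + Real.log (1 / p) / (1 - μ) < A)
    (hslack : ∀ k l : ℕ, l ≤ k → (∀ L' ∈ Ls, lv L k l ≤ lv L' k l) →
      A * k + (B + q * Real.log (1 / μ) + s) * l + σ * k ≤ (1 + q) * lv L k l) :
    StepOK Ls L := by
  have hp1 : p < 1 := by have := Real.exp_pos (-L.2); linarith
  set δ : ℝ := (1 - Real.exp (-L.2) - p) / 2 with hδ
  have hδ0 : 0 < δ := by rw [hδ]; linarith
  obtain ⟨c, D, hD, hbk⟩ := book p μ q A s δ hp0 hp1 hμ0 hμ1 hq hs hδ0 hbook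
  obtain ⟨k1, hk1⟩ := eventually_lin σ (c + Real.log 2) D hσ
  obtain ⟨k2, hk2⟩ := exists_nat_ge (Real.log (1 / δ) / L.1)
  refine ⟨max k1 (max k2 1), ?_⟩
  intro C hC k l hk hlk hact IH V _ G S hSk hSl
  by_contra hcon
  push Not at hcon
  have hkk1 : k1 ≤ k := le_trans (le_max_left _ _) hk
  have hkk2 : k2 ≤ k := le_trans (le_trans (le_max_left _ _) (le_max_right _ _)) hk
  have hk1' : 1 ≤ k := le_trans (le_trans (le_max_right _ _) (le_max_right _ _)) hk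
  have hC0 : 0 < C := by linarith
  rcases l with _ | l
  · exact not_noCl_zero _ _ hSl
  set E : ℝ := Real.exp (lv L k ((l + 1 : ℕ) : ℝ)) with hE
  have hE0 : 0 < E := Real.exp_pos _
  have hlv : 0 ≤ lv L k ((l + 1 : ℕ) : ℝ) := by unfold lv; positivity
  have hE1 : 1 ≤ E := Real.one_le_exp hlv
  have hT : 1 ≤ C * E := by nlinarith
  obtain ⟨U, hUS, hU1, hU2⟩ := exists_trunc S (C * E) hT hcon
  have hUpos : (0 : ℝ) < U.card := by linarith
  have hUne : U.Nonempty := by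
    rw [← Finset.card_pos]; exact_mod_cast hUpos
  have hUk : NoCl G k U := hSk.mono hUS
  have hUl : NoCl Gᶜ (l + 1) U := hSl.mono hUS
  -- blue degrees
  have hdeg : ∀ x ∈ U, (1 - Real.exp (-L.2)) * U.card - 1 ≤ ((nb G x U).card : ℝ) := by
    intro x hx
    have hb := (IH k l (by omega) V G (nb Gᶜ x U) (hUk.mono (nb_subset _ _ _))
      (hUl.step hx (nb_subset _ _ _) (fun w hw => (mem_nb.mp hw).2)) L hL).1
    have hbl : ((nb Gᶜ x U).card : ℝ) ≤ Real.exp (-L.2) * (C * E) := by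
      have e : Real.exp (lv L k l) = Real.exp (-L.2) * E := by
        rw [hE, ← Real.exp_add]; congr 1; unfold lv; push_cast; ring
      rw [e] at hb
      linarith
    have hc := card_nb_add G hx
    have hc' : ((nb G x U).card : ℝ) + (nb Gᶜ x U).card + 1 = U.card := by exact_mod_cast hc
    have : Real.exp (-L.2) * (C * E) ≤ Real.exp (-L.2) * U.card :=
      mul_le_mul_of_nonneg_left hU1.le (Real.exp_pos _).le
    linarith
  have hUbig : 1 ≤ δ * U.card := by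
    have e1 : Real.log (1 / δ) ≤ L.1 * k := by
      rw [div_le_iff₀ hP] at hk2
      have : (k2 : ℝ) ≤ k := by exact_mod_cast hkk2
      nlinarith
    have e2 : 1 / δ ≤ Real.exp (L.1 * k) := by
      rw [← Real.log_le_iff_le_exp (by positivity)]; exact e1
    have e3 : Real.exp (L.1 * k) ≤ E := by
      rw [hE]; apply Real.exp_le_exp.mpr; unfold lv
      have : 0 ≤ L.2 * ((l + 1 : ℕ) : ℝ) := by positivity
      linarith
    have e4 : E ≤ U.card := by nlinarith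
    have e5 : 1 / δ ≤ U.card := e2.trans (e3.trans e4)
    rw [div_le_iff₀ hδ0] at e5
    linarith
  have hdens : (p + δ) * U.card * U.card ≤ ∑ x ∈ U, ((nb G x U).card : ℝ) := by
    have h3 : ∑ x ∈ U, ((p + δ) * (U.card : ℝ)) ≤ ∑ x ∈ U, ((nb G x U).card : ℝ) := by
      apply Finset.sum_le_sum
      intro x hx
      have := hdeg x hx
      have e : (p + δ) * (U.card : ℝ) + δ * U.card = (1 - Real.exp (-L.2)) * U.card := by
        rw [hδ]; ring
      linarith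
    rw [Finset.sum_const, nsmul_eq_mul] at h3
    linarith
  have hZ : ∀ a ≤ k, ∀ Z ⊆ U, NoCl G a Z → NoCl Gᶜ (l + 1) Z →
      (Z.card : ℝ) ≤ Real.exp ((Real.log (2 * C) + B * ((l + 1 : ℕ) : ℝ)) + A * a) := by
    intro a ha Z hZU hZa hZl
    have e0 : Real.exp ((Real.log (2 * C) + B * ((l + 1 : ℕ) : ℝ)) + A * a)
        = 2 * C * Real.exp (A * a + B * ((l + 1 : ℕ) : ℝ)) := by
      rw [show (Real.log (2 * C) + B * ((l + 1 : ℕ) : ℝ)) + A * a
        = Real.log (2 * C) + (A * a + B * ((l + 1 : ℕ) : ℝ)) by ring, Real.exp_add,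
        Real.exp_log (by positivity)]
    rw [e0]
    rcases lt_or_eq_of_le ha with hlt | rfl
    · have := free_bound hC0 (IH a (l + 1) (by omega)) G Z hZa hZl h1 h2 b1 b2 ht0 ht1 hA hB
      have h0 : 0 < Real.exp (A * a + B * ((l + 1 : ℕ) : ℝ)) := Real.exp_pos _
      nlinarith
    · have e1 : (Z.card : ℝ) ≤ U.card := by exact_mod_cast card_le_card hZU
      have e2 : lv L a ((l + 1 : ℕ) : ℝ) ≤ A * a + B * ((l + 1 : ℕ) : ℝ) := by
        have key : t * lv (sw b1 L1) a ((l + 1 : ℕ) : ℝ) + (1 - t) * lv (sw b2 L2) a ((l + 1 : ℕ) : ℝ)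
            ≤ A * a + B * ((l + 1 : ℕ) : ℝ) := by
          unfold lv
          have ha' : (0 : ℝ) ≤ a := Nat.cast_nonneg _
          have hb' : (0 : ℝ) ≤ ((l + 1 : ℕ) : ℝ) := Nat.cast_nonneg _
          nlinarith [mul_le_mul_of_nonneg_right hA ha', mul_le_mul_of_nonneg_right hB hb']
        rcases conv_min ht0 ht1 key with hc | hc
        · exact (lv_sw_le hLs hlk hact h1 b1).trans hc
        · exact (lv_sw_le hLs hlk hact h2 b2).trans hc
      have e3 : E ≤ Real.exp (A * a + B * ((l + 1 : ℕ) : ℝ)) := Real.exp_le_exp.mpr e2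
      have e4 : C * E ≤ C * Real.exp (A * a + B * ((l + 1 : ℕ) : ℝ)) :=
        mul_le_mul_of_nonneg_left e3 hC0.le
      linarith
  have hfin := hbk V G k (l + 1) (l + 1) (Real.log (2 * C) + B * ((l + 1 : ℕ) : ℝ)) U U hk1' hUne hUne
    (by rw [Finset.union_self]; exact hUk) hUl hUl hZ hdens
  have hlogU : Real.log C + lv L k ((l + 1 : ℕ) : ℝ) ≤ Real.log U.card := by
    have : Real.log (C * E) = Real.log C + lv L k ((l + 1 : ℕ) : ℝ) := by
      rw [Real.log_mul hC0.ne' hE0.ne', hE, Real.log_exp]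
    rw [← this]
    exact Real.log_le_log (by positivity) hU1.le
  have hlogC : 0 ≤ Real.log C := Real.log_nonneg hC
  have h2C : Real.log (2 * C) = Real.log 2 + Real.log C := Real.log_mul (by norm_num) hC0.ne'
  have hsl := hslack k (l + 1) hlk hact
  have hev := hk1 k hkk1
  rw [h2C] at hfin
  have hqU : q * (Real.log C + lv L k ((l + 1 : ℕ) : ℝ)) ≤ q * Real.log U.card :=
    mul_le_mul_of_nonneg_left hlogU hq.le
  have hqC : 0 ≤ q * Real.log C := mul_nonneg hq.le hlogC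
  nlinarith

end H110R2
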