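import Pool.Agent.H110R2.Main

open Finset

namespace H110R2

/-- Erdős–Szekeres lines satisfy the step. -/
theorem step_es (Ls : List (ℝ × ℝ)) (L : ℝ × ℝ)
    (h : Real.exp (-L.1) + Real.exp (-L.2) ≤ 1) : StepOK Ls L := by
  refine ⟨0, ?_⟩
  intro C hC k l _ _ _ _ V _ G S hk hl
  have h1 := es_bound G (Real.exp_pos (-L.1)) (Real.exp_pos (-L.2)) h S.card S le_rfl k l hk hl
  have h2 : Real.exp (-L.1) ^ k * Real.exp (-L.2) ^ l = Real.exp (-(lv L k l)) := by
    rw [← Real.exp_nat_mul, ← Real.exp_nat_mul, ← Real.exp_add]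
    congr 1; unfold lv; ring
  rw [mul_assoc, h2] at h1
  have h3 : Real.exp (-(lv L k l)) * Real.exp (lv L k l) = 1 := by
    rw [← Real.exp_add]; simp
  have h4 : 0 < Real.exp (lv L k l) := Real.exp_pos _
  have h5 : ((S.card : ℝ) + 1) * (Real.exp (-(lv L k l)) * Real.exp (lv L k l))
      ≤ 1 * Real.exp (lv L k l) := by
    rw [← mul_assoc]; exact mul_le_mul_of_nonneg_right h1 h4.le
  rw [h3] at h5
  nlinarith

/-- Truncation: a set of size larger than `T ≥ 1` has a subset of size in `(T, 2T]`. -/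
lemma exists_trunc {V : Type} (S : Finset V) (T : ℝ) (hT : 1 ≤ T)
    (hS : T < S.card) : ∃ U ⊆ S, T < U.card ∧ (U.card : ℝ) ≤ 2 * T := by
  have h1 : ⌊T⌋₊ + 1 ≤ S.card := by
    have : ⌊T⌋₊ < S.card := by
      rw [Nat.floor_lt (by linarith)]; exact hS
    omega
  obtain ⟨U, hU, hc⟩ := Finset.exists_subset_card_eq h1
  refine ⟨U, hU, ?_, ?_⟩
  · rw [hc]; push_cast; exact Nat.lt_floor_add_one T
  · rw [hc]; push_cast
    have := Nat.floor_le (show 0 ≤ T by linarith)
    linarith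

/-- `(A,B)` dominates a convex combination of two lines -/
lemma conv_min {x1 x2 y t : ℝ} (ht0 : 0 ≤ t) (ht1 : t ≤ 1) (h : t * x1 + (1 - t) * x2 ≤ y) :
    x1 ≤ y ∨ x2 ≤ y := by
  by_contra hcon
  push Not at hcon
  obtain ⟨h1, h2⟩ := hcon
  rcases le_total t (1 / 2) with ht | ht
  · have e1 : 0 ≤ t * (x1 - y) := mul_nonneg ht0 (by linarith)
    have e2 : 1 / 2 * (x2 - y) ≤ (1 - t) * (x2 - y) :=
      mul_le_mul_of_nonneg_right (by linarith) (by linarith)
    nlinarith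
  · have e1 : 0 ≤ (1 - t) * (x2 - y) := mul_nonneg (by linarith) (by linarith)
    have e2 : 1 / 2 * (x1 - y) ≤ t * (x1 - y) :=
      mul_le_mul_of_nonneg_right (by linarith) (by linarith)
    nlinarith

end H110R2
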