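import Pool.Agent.H110R2.StepN

open Finset

namespace H110R2

lemma lv_sw_le' {Ls : List (ℝ × ℝ)} (hLs : ∀ L' ∈ Ls, L'.1 ≤ L'.2) {L : ℝ × ℝ} {k l : ℕ}
    (hlk : l ≤ k) (hact : ∀ L' ∈ Ls, lv L k l ≤ lv L' k l) {L1 : ℝ × ℝ} (h1 : L1 ∈ Ls) (b : Bool) :
    lv L k l ≤ lv (sw b L1) l k := by
  have h2 : (l : ℝ) ≤ k := by exact_mod_cast hlk
  have h3 := hLs L1 h1
  have h4 := hact L1 h1
  cases b
  · refine h4.trans ?_
    simp only [sw]
    unfold lv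
    simp only [Bool.false_eq_true, if_false]
    nlinarith
  · simp only [sw, if_true, lv_swap]; exact h4

/-- step by majority colour -/
theorem step_joint (Ls : List (ℝ × ℝ)) (hLs : ∀ L' ∈ Ls, L'.1 ≤ L'.2) (L : ℝ × ℝ)
    (L1 L2 : ℝ × ℝ) (h1 : L1 ∈ Ls) (h2 : L2 ∈ Ls) (b1 b2 : Bool) (t A B W q β0 T p : ℝ)
    (M1 M2 : ℝ × ℝ) (g1 : M1 ∈ Ls) (g2 : M2 ∈ Ls) (c1 c2 : Bool) (t' A' B' W' q' β0' T' p' : ℝ)
    (σ : ℝ) (hP : 0 < L.1) (hQ : 0 < L.2) (ht0 : 0 ≤ t) (ht1 : t ≤ 1)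
    (hA : t * (sw b1 L1).1 + (1 - t) * (sw b2 L2).1 ≤ A)
    (hB : t * (sw b1 L1).2 + (1 - t) * (sw b2 L2).2 ≤ B)
    (hn : NOK p q A W β0 T) (ht0' : 0 ≤ t') (ht1' : t' ≤ 1)
    (hA' : t' * (sw c1 M1).1 + (1 - t') * (sw c2 M2).1 ≤ A')
    (hB' : t' * (sw c1 M1).2 + (1 - t') * (sw c2 M2).2 ≤ B')
    (hn' : NOK p' q' A' W' β0' T') (hpp : p + p' < 1) (hσ : 0 < σ)
    (hslack : ∀ k l : ℕ, l ≤ k → (∀ L' ∈ Ls, lv L k l ≤ lv L' k l) →
      A * k + (B + W) * l + σ * k ≤ (1 + q) * lv L k l)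
    (hslack' : ∀ k l : ℕ, l ≤ k → (∀ L' ∈ Ls, lv L k l ≤ lv L' k l) →
      A' * l + (B' + W') * k + σ * k ≤ (1 + q') * lv L k l) :
    StepOK Ls L := by
  set δ : ℝ := (1 - p - p') / 3 with hδ
  have hδ0 : 0 < δ := by rw [hδ]; linarith
  obtain ⟨k1, hk1⟩ := win_host L1 L2 b1 b2 t A B W q β0 T p δ σ ht0 ht1 hA hB hn hδ0 hσ
  obtain ⟨k3, hk3⟩ := win_host M1 M2 c1 c2 t' A' B' W' q' β0' T' p' δ σ ht0' ht1' hA' hB' hn' hδ0 hσ
  obtain ⟨k2, hk2⟩ := trunc_big L.1 δ hP hδ0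
  refine ⟨max k1 (max k2 k3), ?_⟩
  intro C hC k l hk hlk hact IH V _ G S hSk hSl
  by_contra hcon
  push Not at hcon
  have hkk1 : k1 ≤ k := le_trans (le_max_left _ _) hk
  have hkk2 : k2 ≤ k := le_trans (le_trans (le_max_left _ _) (le_max_right _ _)) hk
  have hkk3 : k3 ≤ k := le_trans (le_trans (le_max_right _ _) (le_max_right _ _)) hk
  have hC0 : 0 < C := by linarith
  rcases l with _ | l
  · exact not_noCl_zero _ _ hSl
  set Λ : ℝ := lv L k ((l + 1 : ℕ) : ℝ) with hΛ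
  have hlv : L.1 * k ≤ Λ := by
    rw [hΛ]; unfold lv
    have : 0 ≤ L.2 * ((l + 1 : ℕ) : ℝ) := by positivity
    linarith
  have hk0 : (0 : ℝ) ≤ L.1 * k := by positivity
  have hE1 : 1 ≤ Real.exp Λ := Real.one_le_exp (by linarith)
  have hT : 1 ≤ C * Real.exp Λ := by nlinarith
  obtain ⟨U, hUS, hU1, hU2⟩ := exists_trunc S (C * Real.exp Λ) hT hcon
  have hUpos : (0 : ℝ) < U.card := by linarith
  have hUk : NoCl G k U := hSk.mono hUS
  have hUl : NoCl Gᶜ (l + 1) U := hSl.mono hUS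
  have hUbig : 1 ≤ δ * U.card := by
    have h3 := hk2 k hkk2 Λ C hlv hC
    have h4 : δ * (C * Real.exp Λ) ≤ δ * U.card := mul_le_mul_of_nonneg_left hU1.le hδ0.le
    linarith
  have htot : ∑ x ∈ U, ((nb G x U).card : ℝ) + ∑ x ∈ U, ((nb Gᶜ x U).card : ℝ)
      = U.card * (U.card - 1) := by
    rw [← sum_add_distrib]
    have : ∀ x ∈ U, ((nb G x U).card : ℝ) + ((nb Gᶜ x U).card : ℝ) = U.card - 1 := by
      intro x hx
      have hc := card_nb_add G hx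
      have hc' : ((nb G x U).card : ℝ) + (nb Gᶜ x U).card + 1 = U.card := by exact_mod_cast hc
      linarith
    rw [sum_congr rfl this, sum_const, nsmul_eq_mul]
  by_cases hr : (p + δ) * U.card * U.card ≤ ∑ x ∈ U, ((nb G x U).card : ℝ)
  · refine hk1 Ls C Λ h1 h2 hC k k (l + 1) hkk1 (lv_sw_le hLs hlk hact h1 b1)
      (lv_sw_le hLs hlk hact h2 b2) (fun a ha => IH a (l + 1) (by omega)) ?_ V G U hUk hUl hU1 hU2 hr
    exact hslack k (l + 1) hlk hact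
  · push Not at hr
    have hb : (p' + δ) * U.card * U.card ≤ ∑ x ∈ U, ((nb Gᶜ x U).card : ℝ) := by
      have e1 : (p + δ) * U.card * U.card + (p' + δ) * U.card * U.card + δ * U.card * U.card
          = (U.card : ℝ) * U.card := by
        rw [hδ]; ring
      have e2 : (U.card : ℝ) ≤ δ * U.card * U.card := by nlinarith
      nlinarith
    refine hk3 Ls C Λ g1 g2 hC k (l + 1) k hkk3 (lv_sw_le' hLs hlk hact g1 c1)
      (lv_sw_le' hLs hlk hact g2 c2) (fun a ha => IH a k (by omega)) ?_ V Gᶜ U hUl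
      (by rw [compl_compl']; exact hUk) hU1 hU2 hb
    exact hslack' k (l + 1) hlk hact

end H110R2
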