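import Pool.Agent.H110R2.NB3
import Pool.Agent.H110R2.StepDirect

open Finset

namespace H110R2

/-- conditions on the parameters of the norm book theorem -/
structure NOK (p q A W β0 T : ℝ) : Prop where
  hp0 : 0 < p
  hp1 : p < 1
  hq : 0 < q
  hβ0 : 0 < β0
  hβ1 : β0 < 1
  hT0 : 0 < T
  hT1 : T < 1
  hW0 : 0 ≤ W
  hA : Real.log (1 / p) + q * Real.log (1 / (1 - β0)) + q * β0 * (1 - T) / T < A
  hW : q * Real.log (1 / β0) + KK p T - q * (1 - β0) * (1 - T) < W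

/-- Win by the book theorem on a host `U` (red orientation). -/
theorem win_host (L1 L2 : ℝ × ℝ) (b1 b2 : Bool) (t A B W q β0 T p δ σ : ℝ)
    (ht0 : 0 ≤ t) (ht1 : t ≤ 1)
    (hA : t * (sw b1 L1).1 + (1 - t) * (sw b2 L2).1 ≤ A)
    (hB : t * (sw b1 L1).2 + (1 - t) * (sw b2 L2).2 ≤ B)
    (hn : NOK p q A W β0 T) (hδ : 0 < δ) (hσ : 0 < σ) :
    ∃ k0 : ℕ, ∀ (Ls : List (ℝ × ℝ)) (C Λ : ℝ), L1 ∈ Ls → L2 ∈ Ls → 1 ≤ C → ∀ n k l : ℕ,
    k0 ≤ n →
    (Λ ≤ lv (sw b1 L1) k l) → (Λ ≤ lv (sw b2 L2) k l) →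
    (∀ a : ℕ, a < k → BdAt Ls C a l) →
    A * k + (B + W) * l + σ * n ≤ (1 + q) * Λ →
    ∀ (V : Type) [DecidableEq V] (G : SimpleGraph V) (U : Finset V), NoCl G k U → NoCl Gᶜ l U →
    C * Real.exp Λ < U.card → (U.card : ℝ) ≤ 2 * (C * Real.exp Λ) →
    (p + δ) * U.card * U.card ≤ ∑ x ∈ U, ((nb G x U).card : ℝ) → False := by
  obtain ⟨c, hbk⟩ := nbook p q A W β0 T δ hn.hp0 hn.hp1 hn.hq hn.hβ0 hn.hβ1 hn.hT0 hn.hT1 hδ hn.hW0
    hn.hA hn.hW
  obtain ⟨k1, hk1⟩ := eventually_lin σ (c + Real.log 2) 0 hσ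
  refine ⟨k1, ?_⟩
  intro Ls C Λ h1 h2 hC n k l hn1 hact1 hact2 IH hslack V _ G U hUk hUl hU1 hU2 hdens
  have hC0 : 0 < C := by linarith
  have hE0 : 0 < Real.exp Λ := Real.exp_pos _
  have hUpos : (0 : ℝ) < U.card := lt_trans (by positivity) hU1
  have hUne : U.Nonempty := by
    rw [← Finset.card_pos]; exact_mod_cast hUpos
  have key : ∀ a : ℕ, t * lv (sw b1 L1) a l + (1 - t) * lv (sw b2 L2) a l ≤ A * a + B * l := by
    intro a
    unfold lv
    have ha' : (0 : ℝ) ≤ a := Nat.cast_nonneg _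
    have hb' : (0 : ℝ) ≤ l := Nat.cast_nonneg _
    nlinarith [mul_le_mul_of_nonneg_right hA ha', mul_le_mul_of_nonneg_right hB hb']
  have hZ : ∀ a ≤ k, ∀ Z ⊆ U, NoCl G a Z → NoCl Gᶜ l Z →
      (Z.card : ℝ) ≤ Real.exp ((Real.log (2 * C) + B * l) + A * a) := by
    intro a ha Z hZU hZa hZl
    have e0 : Real.exp ((Real.log (2 * C) + B * l) + A * a)
        = 2 * C * Real.exp (A * a + B * l) := by
      rw [show (Real.log (2 * C) + B * l) + A * a
        = Real.log (2 * C) + (A * a + B * l) by ring, Real.exp_add,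
        Real.exp_log (by positivity)]
    rw [e0]
    rcases lt_or_eq_of_le ha with hlt | rfl
    · have := free_bound hC0 (IH a hlt) G Z hZa hZl h1 h2 b1 b2 ht0 ht1 hA hB
      have h0 : 0 < Real.exp (A * a + B * l) := Real.exp_pos _
      nlinarith
    · have e1 : (Z.card : ℝ) ≤ U.card := by exact_mod_cast card_le_card hZU
      have e2 : Λ ≤ A * a + B * l := by
        rcases conv_min ht0 ht1 (key a) with hc | hc
        · exact hact1.trans hc
        · exact hact2.trans hc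
      have e3 : Real.exp Λ ≤ Real.exp (A * a + B * l) := Real.exp_le_exp.mpr e2
      have e4 : C * Real.exp Λ ≤ C * Real.exp (A * a + B * l) :=
        mul_le_mul_of_nonneg_left e3 hC0.le
      linarith
  have hfin := hbk V G k l l (Real.log (2 * C) + B * l) U U hUne hUne
    (by rw [Finset.union_self]; exact hUk) hUl hUl hZ hdens
  have hlogU : Real.log C + Λ ≤ Real.log U.card := by
    have : Real.log (C * Real.exp Λ) = Real.log C + Λ := by
      rw [Real.log_mul hC0.ne' hE0.ne', Real.log_exp]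
    rw [← this]
    exact Real.log_le_log (by positivity) hU1.le
  have hlogC : 0 ≤ Real.log C := Real.log_nonneg hC
  have h2C : Real.log (2 * C) = Real.log 2 + Real.log C := Real.log_mul (by norm_num) hC0.ne'
  have hev := hk1 n hn1
  rw [h2C] at hfin
  have hqU : q * (Real.log C + Λ) ≤ q * Real.log U.card :=
    mul_le_mul_of_nonneg_left hlogU hn.hq.le
  have hqC : 0 ≤ q * Real.log C := mul_nonneg hn.hq.le hlogC
  linarith

lemma trunc_big (P δ : ℝ) (hP : 0 < P) (hδ : 0 < δ) : ∃ k0 : ℕ, ∀ k : ℕ, k0 ≤ k → ∀ (Λ C : ℝ),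
    P * k ≤ Λ → 1 ≤ C → 1 ≤ δ * (C * Real.exp Λ) := by
  obtain ⟨k2, hk2⟩ := exists_nat_ge (Real.log (1 / δ) / P)
  refine ⟨k2, fun k hk Λ C hΛ hC => ?_⟩
  have e1 : Real.log (1 / δ) ≤ P * k := by
    rw [div_le_iff₀ hP] at hk2
    have : (k2 : ℝ) ≤ k := by exact_mod_cast hk
    nlinarith
  have e2 : 1 / δ ≤ Real.exp (P * k) := by
    rw [← Real.log_le_iff_le_exp (by positivity)]; exact e1
  have e3 : Real.exp (P * k) ≤ Real.exp Λ := Real.exp_le_exp.mpr hΛ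
  have e4 : 0 < Real.exp Λ := Real.exp_pos _
  have e5 : 1 / δ ≤ C * Real.exp Λ := by nlinarith
  rw [div_le_iff₀ hδ] at e5
  linarith

/-- direct step with the norm book theorem -/
theorem step_direct2 (Ls : List (ℝ × ℝ)) (hLs : ∀ L' ∈ Ls, L'.1 ≤ L'.2) (L L1 L2 : ℝ × ℝ)
    (hL : L ∈ Ls) (h1 : L1 ∈ Ls) (h2 : L2 ∈ Ls) (b1 b2 : Bool) (t A B W q β0 T p σ : ℝ)
    (hP : 0 < L.1) (hQ : 0 < L.2) (ht0 : 0 ≤ t) (ht1 : t ≤ 1)
    (hA : t * (sw b1 L1).1 + (1 - t) * (sw b2 L2).1 ≤ A)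
    (hB : t * (sw b1 L1).2 + (1 - t) * (sw b2 L2).2 ≤ B)
    (hp : p < 1 - Real.exp (-L.2)) (hn : NOK p q A W β0 T) (hσ : 0 < σ)
    (hslack : ∀ k l : ℕ, l ≤ k → (∀ L' ∈ Ls, lv L k l ≤ lv L' k l) →
      A * k + (B + W) * l + σ * k ≤ (1 + q) * lv L k l) :
    StepOK Ls L := by
  set δ : ℝ := (1 - Real.exp (-L.2) - p) / 2 with hδ
  have hδ0 : 0 < δ := by rw [hδ]; linarith
  obtain ⟨k1, hk1⟩ := win_host L1 L2 b1 b2 t A B W q β0 T p δ σ ht0 ht1 hA hB hn hδ0 hσ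
  obtain ⟨k2, hk2⟩ := trunc_big L.1 δ hP hδ0
  refine ⟨max k1 k2, ?_⟩
  intro C hC k l hk hlk hact IH V _ G S hSk hSl
  by_contra hcon
  push Not at hcon
  have hkk1 : k1 ≤ k := le_trans (le_max_left _ _) hk
  have hkk2 : k2 ≤ k := le_trans (le_max_right _ _) hk
  have hC0 : 0 < C := by linarith
  rcases l with _ | l
  · exact not_noCl_zero _ _ hSl
  set Λ : ℝ := lv L k ((l + 1 : ℕ) : ℝ) with hΛ
  have hlv : L.1 * k ≤ Λ := by
    rw [hΛ]; unfold lv
    have : 0 ≤ L.2 * ((l + 1 : ℕ) : ℝ) := by positivity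
    linarith
  have hk0 : (0 : ℝ) ≤ L.1 * k := by positivity
  have hE1 : 1 ≤ Real.exp Λ := Real.one_le_exp (by linarith)
  have hT : 1 ≤ C * Real.exp Λ := by nlinarith
  obtain ⟨U, hUS, hU1, hU2⟩ := exists_trunc S (C * Real.exp Λ) hT hcon
  have hUpos : (0 : ℝ) < U.card := by linarith
  have hUk : NoCl G k U := hSk.mono hUS
  have hUl : NoCl Gᶜ (l + 1) U := hSl.mono hUS
  -- blue degrees
  have hdeg : ∀ x ∈ U, (1 - Real.exp (-L.2)) * U.card - 1 ≤ ((nb G x U).card : ℝ) := by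
    intro x hx
    have hb := (IH k l (by omega) V G (nb Gᶜ x U) (hUk.mono (nb_subset _ _ _))
      (hUl.step hx (nb_subset _ _ _) (fun w hw => (mem_nb.mp hw).2)) L hL).1
    have hbl : ((nb Gᶜ x U).card : ℝ) ≤ Real.exp (-L.2) * (C * Real.exp Λ) := by
      have e : Real.exp (lv L k l) = Real.exp (-L.2) * Real.exp Λ := by
        rw [hΛ, ← Real.exp_add]; congr 1; unfold lv; push_cast; ring
      rw [e] at hb
      linarith
    have hc := card_nb_add G hx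
    have hc' : ((nb G x U).card : ℝ) + (nb Gᶜ x U).card + 1 = U.card := by exact_mod_cast hc
    have : Real.exp (-L.2) * (C * Real.exp Λ) ≤ Real.exp (-L.2) * U.card :=
      mul_le_mul_of_nonneg_left hU1.le (Real.exp_pos _).le
    linarith
  have hUbig : 1 ≤ δ * U.card := by
    have h3 := hk2 k hkk2 Λ C hlv hC
    have h4 : δ * (C * Real.exp Λ) ≤ δ * U.card := mul_le_mul_of_nonneg_left hU1.le hδ0.le
    linarith
  have hdens : (p + δ) * U.card * U.card ≤ ∑ x ∈ U, ((nb G x U).card : ℝ) := by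
    have h3 : ∑ x ∈ U, ((p + δ) * (U.card : ℝ)) ≤ ∑ x ∈ U, ((nb G x U).card : ℝ) := by
      apply Finset.sum_le_sum
      intro x hx
      have := hdeg x hx
      have e : (p + δ) * (U.card : ℝ) + δ * U.card = (1 - Real.exp (-L.2)) * U.card := by
        rw [hδ]; ring
      linarith
    rw [Finset.sum_const, nsmul_eq_mul] at h3
    linarith
  refine hk1 Ls C Λ h1 h2 hC k k (l + 1) hkk1 (lv_sw_le hLs hlk hact h1 b1)
    (lv_sw_le hLs hlk hact h2 b2) (fun a ha => IH a (l + 1) (by omega)) ?_ V G U hUk hUl hU1 hU2 hdens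
  exact hslack k (l + 1) hlk hact

end H110R2
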